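import Mathlib

/-!
# Elementary facts on the largest value of a quadratic form on the unit sphere
-/

set_option autoImplicit false

open Finset

namespace Pool.Agent.D0H98.Kik

variable {ι : Type} [Fintype ι]

/-- the quadratic form of `M` -/
def qf (M : Matrix ι ι ℝ) (v : ι → ℝ) : ℝ := dotProduct v (M.mulVec v)

/-- the values of the quadratic form on unit vectors -/
def qset (M : Matrix ι ι ℝ) : Set ℝ := {t : ℝ | ∃ v : ι → ℝ, dotProduct v v = 1 ∧ t = dotProduct v (M.mulVec v)}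

/-- the largest value of the quadratic form on unit vectors -/
noncomputable def lmax (M : Matrix ι ι ℝ) : ℝ := sSup (qset M)

lemma qf_eq (M : Matrix ι ι ℝ) (v : ι → ℝ) : qf M v = ∑ i, ∑ j, v i * M i j * v j := by
  unfold qf dotProduct Matrix.mulVec dotProduct
  refine Finset.sum_congr rfl fun i _ => ?_
  rw [Finset.mul_sum]
  exact Finset.sum_congr rfl fun j _ => by ring

lemma dot_eq (v : ι → ℝ) : dotProduct v v = ∑ i, v i ^ 2 := by
  unfold dotProduct
  exact Finset.sum_congr rfl fun i _ => by ring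

lemma abs_le_one_of_unit {v : ι → ℝ} (hv : dotProduct v v = 1) (i : ι) : |v i| ≤ 1 := by
  rw [dot_eq] at hv
  have h : v i ^ 2 ≤ 1 := by
    rw [← hv]
    exact Finset.single_le_sum (f := fun i => v i ^ 2) (fun j _ => sq_nonneg _) (Finset.mem_univ i)
  rw [abs_le]
  constructor <;> nlinarith

lemma qf_abs_le (M : Matrix ι ι ℝ) {v : ι → ℝ} (hv : dotProduct v v = 1) :
    |qf M v| ≤ ∑ i, ∑ j, |M i j| := by
  rw [qf_eq]
  refine (Finset.abs_sum_le_sum_abs _ _).trans (Finset.sum_le_sum fun i _ => ?_)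
  refine (Finset.abs_sum_le_sum_abs _ _).trans (Finset.sum_le_sum fun j _ => ?_)
  rw [abs_mul, abs_mul]
  have h1 := abs_le_one_of_unit hv i
  have h2 := abs_le_one_of_unit hv j
  calc |v i| * |M i j| * |v j| ≤ 1 * |M i j| * 1 := by gcongr
    _ = |M i j| := by ring

lemma qset_bdd (M : Matrix ι ι ℝ) : BddAbove (qset M) := by
  refine ⟨∑ i, ∑ j, |M i j|, ?_⟩
  rintro t ⟨v, hv, rfl⟩
  exact (le_abs_self _).trans (qf_abs_le M hv)

lemma qf_le_lmax (M : Matrix ι ι ℝ) {v : ι → ℝ} (hv : dotProduct v v = 1) : qf M v ≤ lmax M :=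
  le_csSup (qset_bdd M) ⟨v, hv, rfl⟩

lemma qset_nonempty [Nonempty ι] (M : Matrix ι ι ℝ) : (qset M).Nonempty := by
  classical
  obtain ⟨i⟩ := (inferInstance : Nonempty ι)
  refine ⟨_, Pi.single i 1, ?_, rfl⟩
  simp

lemma lmax_le [Nonempty ι] (M : Matrix ι ι ℝ) {c : ℝ}
    (h : ∀ v : ι → ℝ, dotProduct v v = 1 → qf M v ≤ c) : lmax M ≤ c := by
  refine csSup_le (qset_nonempty M) ?_
  rintro t ⟨v, hv, rfl⟩
  exact h v hv

lemma qf_smul (M : Matrix ι ι ℝ) (c : ℝ) (v : ι → ℝ) : qf M (fun i => c * v i) = c ^ 2 * qf M v := by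
  rw [qf_eq, qf_eq, Finset.mul_sum]
  refine Finset.sum_congr rfl fun i _ => ?_
  rw [Finset.mul_sum]
  exact Finset.sum_congr rfl fun j _ => by ring

lemma qf_le (M : Matrix ι ι ℝ) (v : ι → ℝ) : qf M v ≤ lmax M * ∑ i, v i ^ 2 := by
  rcases (Finset.sum_nonneg fun i (_ : i ∈ Finset.univ) => sq_nonneg (v i)).eq_or_lt with h | h
  · have h0 : ∀ i, v i = 0 := by
      intro i
      have := (Finset.sum_eq_zero_iff_of_nonneg (fun i _ => sq_nonneg (v i))).1 h.symm i
        (Finset.mem_univ i)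
      exact pow_eq_zero_iff (two_ne_zero) |>.1 this
    rw [← h, mul_zero, qf_eq]
    simp [h0]
  · set s := ∑ i, v i ^ 2 with hs
    have hss : 0 < √s := Real.sqrt_pos.2 h
    have hunit : dotProduct (fun i => (√s)⁻¹ * v i) (fun i => (√s)⁻¹ * v i) = 1 := by
      rw [dot_eq]
      simp only [mul_pow]
      rw [← Finset.mul_sum, ← hs, inv_pow, Real.sq_sqrt h.le]
      exact inv_mul_cancel₀ h.ne'
    have h1 := qf_le_lmax M hunit
    rw [qf_smul, inv_pow, Real.sq_sqrt h.le, inv_mul_le_iff₀ h] at h1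
    linarith

lemma qf_sub (M M' : Matrix ι ι ℝ) (v : ι → ℝ) : qf (M - M') v = qf M v - qf M' v := by
  simp only [qf_eq, Matrix.sub_apply, ← Finset.sum_sub_distrib]
  refine Finset.sum_congr rfl fun i _ => Finset.sum_congr rfl fun j _ => by ring

lemma qf_add (M M' : Matrix ι ι ℝ) (v : ι → ℝ) : qf (M + M') v = qf M v + qf M' v := by
  simp only [qf_eq, Matrix.add_apply, ← Finset.sum_add_distrib]
  refine Finset.sum_congr rfl fun i _ => Finset.sum_congr rfl fun j _ => by ring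

lemma lmax_sub_le [Nonempty ι] (M M' : Matrix ι ι ℝ) {c : ℝ}
    (h : ∀ v : ι → ℝ, dotProduct v v = 1 → |qf (M - M') v| ≤ c) : |lmax M - lmax M'| ≤ c := by
  rw [abs_le]
  constructor
  · have : lmax M' ≤ lmax M + c := lmax_le _ fun v hv => by
      have h1 := (abs_le.1 (h v hv)).1
      rw [qf_sub] at h1
      have h2 := qf_le_lmax M hv
      linarith
    linarith
  · have : lmax M ≤ lmax M' + c := lmax_le _ fun v hv => by
      have h1 := (abs_le.1 (h v hv)).2
      rw [qf_sub] at h1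
      have h2 := qf_le_lmax M' hv
      linarith
    linarith

/-- bilinear form bound for a symmetric matrix -/
lemma bil_le {M : Matrix ι ι ℝ} (hM : M.IsSymm) {c : ℝ}
    (h : ∀ v : ι → ℝ, |qf M v| ≤ c * ∑ i, v i ^ 2) (u w : ι → ℝ) :
    dotProduct u (M.mulVec w) ≤ c / 2 * (∑ i, u i ^ 2 + ∑ i, w i ^ 2) := by
  have h1 : qf M (fun i => u i + w i) - qf M (fun i => u i - w i) =
      4 * dotProduct u (M.mulVec w) := by
    have hsw : ∑ i, ∑ j, w i * M i j * u j = ∑ i, ∑ j, u i * M i j * w j := by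
      rw [Finset.sum_comm]
      refine Finset.sum_congr rfl fun i _ => Finset.sum_congr rfl fun j _ => ?_
      rw [hM.apply i j]; ring
    have e : dotProduct u (M.mulVec w) = ∑ i, ∑ j, u i * M i j * w j := by
      unfold dotProduct Matrix.mulVec dotProduct
      refine Finset.sum_congr rfl fun i _ => ?_
      rw [Finset.mul_sum]
      exact Finset.sum_congr rfl fun j _ => by ring
    rw [e, qf_eq, qf_eq, ← Finset.sum_sub_distrib]
    have : ∀ i, (∑ j, (u i + w i) * M i j * (u j + w j)) - ∑ j, (u i - w i) * M i j * (u j - w j) =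
        2 * ∑ j, u i * M i j * w j + 2 * ∑ j, w i * M i j * u j := by
      intro i
      rw [← Finset.sum_sub_distrib, Finset.mul_sum, Finset.mul_sum, ← Finset.sum_add_distrib]
      exact Finset.sum_congr rfl fun j _ => by ring
    simp only [this]
    rw [Finset.sum_add_distrib, ← Finset.mul_sum, ← Finset.mul_sum, hsw]
    ring
  have h2 := (abs_le.1 (h fun i => u i + w i)).2
  have h3 := (abs_le.1 (h fun i => u i - w i)).1
  have h4 : ∑ i, (u i + w i) ^ 2 + ∑ i, (u i - w i) ^ 2 = 2 * (∑ i, u i ^ 2 + ∑ i, w i ^ 2) := by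
    rw [← Finset.sum_add_distrib, ← Finset.sum_add_distrib, Finset.mul_sum]
    exact Finset.sum_congr rfl fun i _ => by ring
  have h5 : qf M (fun i => u i + w i) - qf M (fun i => u i - w i) ≤
      c * (2 * (∑ i, u i ^ 2 + ∑ i, w i ^ 2)) := by
    rw [← h4]; linarith
  rw [h1] at h5
  linarith

/-- norm bound for a symmetric matrix -/
lemma norm_le {M : Matrix ι ι ℝ} (hM : M.IsSymm) {c : ℝ} (hc : 0 ≤ c)
    (h : ∀ v : ι → ℝ, |qf M v| ≤ c * ∑ i, v i ^ 2) (w : ι → ℝ) :
    ∑ i, (M.mulVec w i) ^ 2 ≤ c ^ 2 * ∑ i, w i ^ 2 := by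
  rcases hc.eq_or_lt with hc0 | hc0
  · -- c = 0
    have h1 : ∀ s : ℝ, 0 < s → ∑ i, (M.mulVec w i) ^ 2 ≤ 0 := by
      intro s _
      have h2 := bil_le hM h (M.mulVec w) w
      rw [← hc0, dot_eq] at h2
      linarith
    have := h1 1 one_pos
    rw [← hc0]
    simpa using this
  · -- use `u = M w`, `c w`
    have h2 := bil_le hM h (M.mulVec w) (fun i => c * w i)
    have e1 : M.mulVec (fun i => c * w i) = fun i => c * M.mulVec w i := by
      funext i
      unfold Matrix.mulVec dotProduct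
      rw [Finset.mul_sum]
      exact Finset.sum_congr rfl fun j _ => by ring
    have e2 : dotProduct (M.mulVec w) (fun i => c * M.mulVec w i) =
        c * ∑ i, (M.mulVec w i) ^ 2 := by
      unfold dotProduct
      rw [Finset.mul_sum]
      exact Finset.sum_congr rfl fun j _ => by ring
    rw [e1, e2] at h2
    have e3 : ∑ i, (c * w i) ^ 2 = c ^ 2 * ∑ i, w i ^ 2 := by
      rw [Finset.mul_sum]
      exact Finset.sum_congr rfl fun j _ => by ring
    rw [e3] at h2
    have h3 : c / 2 * (∑ i, (M.mulVec w i) ^ 2) ≤ c / 2 * (c ^ 2 * ∑ i, w i ^ 2) := by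
      linarith
    exact le_of_mul_le_mul_left h3 (by positivity)

/-- powers -/
lemma norm_pow_le [DecidableEq ι] {M : Matrix ι ι ℝ} (hM : M.IsSymm) {c : ℝ} (hc : 0 ≤ c)
    (h : ∀ v : ι → ℝ, |qf M v| ≤ c * ∑ i, v i ^ 2) (k : ℕ) (w : ι → ℝ) :
    ∑ i, ((M ^ k).mulVec w i) ^ 2 ≤ c ^ (2 * k) * ∑ i, w i ^ 2 := by
  induction k with
  | zero => simp
  | succ k ih =>
    rw [pow_succ', ← Matrix.mulVec_mulVec]
    refine (norm_le hM hc h _).trans ?_
    calc c ^ 2 * ∑ i, ((M ^ k).mulVec w i) ^ 2 ≤ c ^ 2 * (c ^ (2 * k) * ∑ i, w i ^ 2) := by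
          gcongr
      _ = c ^ (2 * (k + 1)) * ∑ i, w i ^ 2 := by ring

/-- a diagonal entry of an even power is bounded -/
lemma diag_pow_le [DecidableEq ι] {M : Matrix ι ι ℝ} (hM : M.IsSymm) {c : ℝ} (hc : 0 ≤ c)
    (h : ∀ v : ι → ℝ, |qf M v| ≤ c * ∑ i, v i ^ 2) (k : ℕ) (i : ι) :
    (M ^ (2 * k)) i i ≤ c ^ (2 * k) := by
  have h1 := norm_pow_le hM hc h k (Pi.single i 1)
  have e1 : ∑ j, ((Pi.single i 1 : ι → ℝ) j) ^ 2 = 1 := by
    rw [Finset.sum_eq_single i]
    · simp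
    · intro j _ hj; simp [Pi.single_eq_of_ne hj]
    · intro h; exact absurd (Finset.mem_univ i) h
  rw [e1, mul_one] at h1
  have e2 : ∑ j, ((M ^ k).mulVec (Pi.single i 1) j) ^ 2 = (M ^ (2 * k)) i i := by
    have hs : (M ^ k).IsSymm := hM.pow k
    rw [two_mul, pow_add, Matrix.mul_apply]
    refine Finset.sum_congr rfl fun j _ => ?_
    rw [Matrix.mulVec_single_one, Matrix.col_apply, hs.apply i j]
    ring
  rw [← e2]
  exact h1

end Pool.Agent.D0H98.Kik
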