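import Pool.Agent.D0H98.Kik.Mean

/-!
# Reduction of the Kikuchi matrix of order two to the `n × n` matrix
-/

set_option autoImplicit false
set_option linter.unusedSectionVars false

open Finset MeasureTheory ProbabilityTheory
open Pool.Agent.H320R2.LD (gam nsq nrm Lip prove_MGF St_MGF)

namespace Pool.Agent.D0H98.Kik

section

variable {n ℓ : ℕ}

/-- extension by zero -/
noncomputable def ext (v : {K : Finset (Fin n) // K.card = ℓ} → ℝ) (K : Finset (Fin n)) : ℝ :=
  if h : K.card = ℓ then v ⟨K, h⟩ else 0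

lemma ext_coe (v : {K : Finset (Fin n) // K.card = ℓ} → ℝ)
    (K : {K : Finset (Fin n) // K.card = ℓ}) : ext v K.1 = v K := by
  unfold ext
  rw [dif_pos K.2]

lemma sum_coe (f : Finset (Fin n) → ℝ) :
    ∑ I : {K : Finset (Fin n) // K.card = ℓ}, f I.1 = ∑ I ∈ powersetCard ℓ univ, f I := by
  rw [← Finset.sum_coe_sort (powersetCard ℓ (univ : Finset (Fin n))) f]
  refine Fintype.sum_equiv (Equiv.subtypeEquivRight fun K => ?_) _ _ fun I => rfl
  simp [Finset.mem_powersetCard]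

lemma sd_insert {K : Finset (Fin n)} {i j : Fin n} (hij : i ≠ j) (hi : i ∉ K) (hj : j ∉ K) :
    symmDiff (insert i K) {i, j} = insert j K := by
  ext x
  simp only [Finset.mem_symmDiff, Finset.mem_insert, Finset.mem_singleton]
  constructor
  · rintro (⟨h1, h2⟩ | ⟨h1, h2⟩)
    · push Not at h2
      rcases h1 with h1 | h1
      · exact absurd h1 h2.1
      · exact Or.inr h1
    · push Not at h2
      rcases h1 with h1 | h1
      · exact absurd h1 h2.1
      · exact Or.inl h1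
  · rintro (h | h)
    · right
      subst h
      exact ⟨Or.inr rfl, by push Not; exact ⟨hij.symm, hj⟩⟩
    · left
      refine ⟨Or.inr h, ?_⟩
      push Not
      exact ⟨fun h2 => hi (h2 ▸ h), fun h2 => hj (h2 ▸ h)⟩

lemma sum_pairs (hℓ : 1 ≤ ℓ) (f : Finset (Fin n) → Finset (Fin n) → ℝ) :
    ∑ I ∈ powersetCard ℓ univ, ∑ S ∈ val ℓ 2 I, f I S =
      ∑ K ∈ powersetCard (ℓ - 1) univ, ∑ i, ∑ j,
        if i ≠ j ∧ i ∉ K ∧ j ∉ K then f (insert i K) {i, j} else 0 := by
  have e1 : ∀ K : Finset (Fin n), ∑ i, ∑ j,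
      (if i ≠ j ∧ i ∉ K ∧ j ∉ K then f (insert i K) {i, j} else 0) =
      ∑ p ∈ (univ ×ˢ univ : Finset (Fin n × Fin n)).filter
        (fun p => p.1 ≠ p.2 ∧ p.1 ∉ K ∧ p.2 ∉ K), f (insert p.1 K) {p.1, p.2} := by
    intro K
    rw [Finset.sum_filter, Finset.sum_product]
  simp only [e1]
  rw [Finset.sum_sigma', Finset.sum_sigma']
  symm
  refine Finset.sum_nbij (fun q => ⟨insert q.2.1 q.1, {q.2.1, q.2.2}⟩) ?_ ?_ ?_ ?_
  · rintro ⟨K, i, j⟩ h
    simp only [Finset.mem_sigma, Finset.mem_powersetCard, Finset.mem_filter, Finset.mem_product,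
      Finset.mem_univ, true_and, and_true, Finset.subset_univ] at h
    obtain ⟨hK, hij, hi, hj⟩ := h
    simp only [Finset.mem_sigma, Finset.mem_powersetCard, Finset.subset_univ, true_and, val,
      Finset.mem_filter, Finset.mem_univ]
    refine ⟨?_, ?_, ?_⟩
    · rw [Finset.card_insert_of_notMem hi, hK]; omega
    · exact Finset.card_pair hij
    · rw [sd_insert hij hi hj, Finset.card_insert_of_notMem hj, hK]; omega
  · rintro ⟨K, i, j⟩ h ⟨K', i', j'⟩ h' heq
    simp only [Finset.coe_sigma, Set.mem_sigma_iff, Finset.mem_coe, Finset.mem_powersetCard,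
      Finset.mem_filter, Finset.mem_product, Finset.mem_univ, true_and,
      Finset.subset_univ] at h h'
    obtain ⟨hK, hij, hi, hj⟩ := h
    obtain ⟨hK', hij', hi', hj'⟩ := h'
    simp only [Sigma.mk.injEq, heq_eq_eq] at heq
    obtain ⟨h1, h2⟩ := heq
    have key : ∀ (K : Finset (Fin n)) (i j : Fin n), i ≠ j → i ∉ K → j ∉ K →
        insert i K ∩ {i, j} = {i} ∧ ({i, j} : Finset (Fin n)) \ insert i K = {j} := by
      intro K i j hij hi hj
      constructor
      · ext x
        simp only [Finset.mem_inter, Finset.mem_insert, Finset.mem_singleton]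
        constructor
        · rintro ⟨h1, h2⟩
          rcases h2 with h2 | h2
          · exact h2
          · subst h2
            rcases h1 with h1 | h1
            · exact h1
            · exact absurd h1 hj
        · intro h; exact ⟨Or.inl h, Or.inl h⟩
      · ext x
        simp only [Finset.mem_sdiff, Finset.mem_insert, Finset.mem_singleton]
        constructor
        · rintro ⟨h1, h2⟩
          push Not at h2
          rcases h1 with h1 | h1
          · exact absurd h1 h2.1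
          · exact h1
        · intro h
          subst h
          exact ⟨Or.inr rfl, by push Not; exact ⟨hij.symm, hj⟩⟩
    have k1 := key K i j hij hi hj
    have k2 := key K' i' j' hij' hi' hj'
    have hii : i = i' := by
      have := k1.1
      rw [h1, h2, k2.1] at this
      exact (Finset.singleton_injective this).symm
    have hjj : j = j' := by
      have := k1.2
      rw [h1, h2, k2.2] at this
      exact (Finset.singleton_injective this).symm
    subst hii hjj
    have hKK : K = K' := by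
      have h3 : (insert i K).erase i = (insert i K').erase i := congrArg (fun A => A.erase i) h1
      rwa [Finset.erase_insert hi, Finset.erase_insert hi'] at h3
    subst hKK
    rfl
  · rintro ⟨I, S⟩ h
    simp only [Finset.coe_sigma, Set.mem_sigma_iff, Finset.mem_coe, Finset.mem_powersetCard,
      Finset.subset_univ, true_and] at h
    obtain ⟨hI, hS⟩ := h
    have hv := val_inter (k := 1) hI (by simpa using hS)
    obtain ⟨i, hi⟩ := Finset.card_eq_one.1 hv.1
    obtain ⟨j, hj⟩ := Finset.card_eq_one.1 hv.2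
    have hiS : i ∈ S ∩ I := by rw [hi]; simp
    have hjS : j ∈ S \ I := by rw [hj]; simp
    have hiS' := Finset.mem_inter.1 hiS
    have hjS' := Finset.mem_sdiff.1 hjS
    have hij : i ≠ j := fun h => hjS'.2 (h ▸ hiS'.2)
    refine ⟨⟨I.erase i, i, j⟩, ?_, ?_⟩
    · simp only [Finset.coe_sigma, Set.mem_sigma_iff, Finset.mem_coe, Finset.mem_powersetCard,
        Finset.mem_filter, Finset.mem_product, Finset.mem_univ, true_and,
        Finset.subset_univ]
      refine ⟨?_, hij, Finset.notMem_erase _ _, fun h => hjS'.2 (Finset.mem_of_mem_erase h)⟩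
      rw [Finset.card_erase_of_mem hiS'.2, hI]
    · simp only [Sigma.mk.injEq, heq_eq_eq]
      refine ⟨Finset.insert_erase hiS'.2, ?_⟩
      ext x
      simp only [Finset.mem_insert, Finset.mem_singleton]
      constructor
      · rintro (h | h)
        · rw [h]; exact hiS'.1
        · rw [h]; exact hjS'.1
      · intro hx
        by_cases hxI : x ∈ I
        · left
          have : x ∈ S ∩ I := Finset.mem_inter.2 ⟨hx, hxI⟩
          rw [hi] at this
          exact Finset.mem_singleton.1 this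
        · right
          have : x ∈ S \ I := Finset.mem_sdiff.2 ⟨hx, hxI⟩
          rw [hj] at this
          exact Finset.mem_singleton.1 this
  · rintro ⟨K, i, j⟩ _
    rfl

/-- the slice -/
noncomputable def slice (v : {K : Finset (Fin n) // K.card = ℓ} → ℝ) (K : Finset (Fin n)) :
    Fin n → ℝ := fun i => if i ∈ K then 0 else ext v (insert i K)

lemma qf_red (hℓ : 1 ≤ ℓ) (c : ℝ) (Z : Finset (Fin n) → ℝ)
    (v : {K : Finset (Fin n) // K.card = ℓ} → ℝ) :
    qf (KM n ℓ 2 c Z) v = ∑ K ∈ powersetCard (ℓ - 1) univ, qf (BM n c Z) (slice v K) := by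
  have e1 : qf (KM n ℓ 2 c Z) v = ∑ I ∈ powersetCard ℓ univ, ∑ S ∈ val ℓ 2 I,
      ext v I * (c + Z S) * ext v (symmDiff I S) := by
    rw [qf_eq, ← sum_coe]
    refine Finset.sum_congr rfl fun I _ => ?_
    rw [← sum_nbr I (fun S J => ext v I.1 * (c + Z S) * ext v J)]
    refine Finset.sum_congr rfl fun J _ => ?_
    simp only [KM, Matrix.of_apply, ext_coe]
    split_ifs <;> ring
  rw [e1, sum_pairs hℓ (fun I S => ext v I * (c + Z S) * ext v (symmDiff I S))]
  refine Finset.sum_congr rfl fun K _ => ?_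
  rw [qf_eq]
  refine Finset.sum_congr rfl fun i _ => Finset.sum_congr rfl fun j _ => ?_
  simp only [BM, Matrix.of_apply, slice]
  by_cases hij : i = j
  · subst hij; simp
  · by_cases hi : i ∈ K
    · simp [hi]
    · by_cases hj : j ∈ K
      · simp [hj]
      · rw [if_pos ⟨hij, hi, hj⟩, if_neg hi, if_neg hij, if_neg hj, sd_insert hij hi hj]

lemma slice_sq (hℓ : 1 ≤ ℓ) (v : {K : Finset (Fin n) // K.card = ℓ} → ℝ) :
    ∑ K ∈ powersetCard (ℓ - 1) univ, ∑ i, slice v K i ^ 2 = ℓ * ∑ I, v I ^ 2 := by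
  have e1 : ∑ K ∈ powersetCard (ℓ - 1) (univ : Finset (Fin n)), ∑ i, slice v K i ^ 2 =
      ∑ K ∈ powersetCard (ℓ - 1) (univ : Finset (Fin n)), ∑ i ∈ univ \ K,
        ext v (insert i K) ^ 2 := by
    refine Finset.sum_congr rfl fun K _ => ?_
    rw [← Finset.sum_sdiff (Finset.subset_univ K)]
    have : ∑ i ∈ K, slice v K i ^ 2 = 0 := by
      refine Finset.sum_eq_zero fun i hi => ?_
      simp [slice, hi]
    rw [this, add_zero]
    refine Finset.sum_congr rfl fun i hi => ?_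
    simp [slice, (Finset.mem_sdiff.1 hi).2]
  have e2 : (ℓ : ℝ) * ∑ I, v I ^ 2 = ∑ I ∈ powersetCard ℓ (univ : Finset (Fin n)),
      ∑ _i ∈ I, ext v I ^ 2 := by
    rw [← sum_coe, Finset.mul_sum]
    refine Finset.sum_congr rfl fun I _ => ?_
    rw [Finset.sum_const, I.2, nsmul_eq_mul, ext_coe]
  rw [e1, e2, Finset.sum_sigma', Finset.sum_sigma']
  refine Finset.sum_bij' (fun q _ => ⟨insert q.2 q.1, q.2⟩) (fun q _ => ⟨q.1.erase q.2, q.2⟩)
    ?_ ?_ ?_ ?_ ?_
  · rintro ⟨K, i⟩ h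
    simp only [Finset.mem_sigma, Finset.mem_powersetCard, Finset.subset_univ, true_and,
      Finset.mem_sdiff, Finset.mem_univ] at h ⊢
    refine ⟨?_, Finset.mem_insert_self _ _⟩
    rw [Finset.card_insert_of_notMem h.2, h.1]; omega
  · rintro ⟨I, i⟩ h
    simp only [Finset.mem_sigma, Finset.mem_powersetCard, Finset.subset_univ, true_and,
      Finset.mem_sdiff, Finset.mem_univ] at h ⊢
    refine ⟨?_, Finset.notMem_erase _ _⟩
    rw [Finset.card_erase_of_mem h.2, h.1]
  · rintro ⟨K, i⟩ h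
    simp only [Finset.mem_sigma, Finset.mem_powersetCard, Finset.subset_univ, true_and,
      Finset.mem_sdiff, Finset.mem_univ] at h
    simp only [Finset.erase_insert h.2]
  · rintro ⟨I, i⟩ h
    simp only [Finset.mem_sigma, Finset.mem_powersetCard, Finset.subset_univ, true_and] at h
    simp only [Finset.insert_erase h.2]
  · rintro ⟨K, i⟩ h
    rfl

theorem lmax_red (hℓ : 1 ≤ ℓ) [Nonempty {K : Finset (Fin n) // K.card = ℓ}] (c : ℝ)
    (Z : Finset (Fin n) → ℝ) : lmax (KM n ℓ 2 c Z) ≤ ℓ * lmax (BM n c Z) := by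
  refine lmax_le _ fun v hv => ?_
  rw [qf_red hℓ]
  calc ∑ K ∈ powersetCard (ℓ - 1) univ, qf (BM n c Z) (slice v K) ≤
        ∑ K ∈ powersetCard (ℓ - 1) univ, lmax (BM n c Z) * ∑ i, slice v K i ^ 2 :=
        Finset.sum_le_sum fun K _ => qf_le _ _
    _ = lmax (BM n c Z) * (ℓ * ∑ I, v I ^ 2) := by rw [← Finset.mul_sum, slice_sq hℓ]
    _ = _ := by rw [← dot_eq, hv]; ring

lemma BM_qf_abs_le (Z : Finset (Fin n) → ℝ) (x : Fin n → ℝ) :
    |qf (BM n 0 Z) x| ≤ 2 * nrm Z * ∑ i, x i ^ 2 := by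
  have h0 : 0 ≤ nrm Z := Real.sqrt_nonneg _
  have hns : nrm Z ^ 2 = nsq Z := by
    unfold nrm
    exact Real.sq_sqrt (Finset.sum_nonneg fun i _ => sq_nonneg _)
  -- Frobenius norm
  have hF : ∑ i, ∑ j, (BM n 0 Z i j) ^ 2 ≤ 4 * nsq Z := by
    have e1 : ∀ i j, (BM n 0 Z i j) ^ 2 = ∑ S : Finset (Fin n),
        if i ≠ j ∧ S = {i, j} then Z S ^ 2 else 0 := by
      intro i j
      by_cases hij : i = j
      · subst hij; simp [BM]
      · rw [Finset.sum_eq_single_of_mem {i, j} (Finset.mem_univ _)]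
        · simp [BM, hij]
        · intro S _ hS
          rw [if_neg]
          rintro ⟨_, h⟩
          exact hS h
    simp only [e1]
    have e2 : ∑ i, ∑ j, ∑ S : Finset (Fin n), (if i ≠ j ∧ S = {i, j} then Z S ^ 2 else 0) =
        ∑ S : Finset (Fin n), ∑ i, ∑ j, (if i ≠ j ∧ S = {i, j} then Z S ^ 2 else 0) := by
      rw [Finset.sum_congr rfl fun i _ => Finset.sum_comm, Finset.sum_comm]
    rw [e2]
    unfold nsq
    rw [Finset.mul_sum]
    refine Finset.sum_le_sum fun S _ => ?_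
    have e3 : ∑ i, ∑ j, (if i ≠ j ∧ S = {i, j} then Z S ^ 2 else 0) =
        ((univ ×ˢ univ : Finset (Fin n × Fin n)).filter
          (fun p => p.1 ≠ p.2 ∧ S = {p.1, p.2})).card * Z S ^ 2 := by
      rw [← nsmul_eq_mul, ← Finset.sum_const, Finset.sum_filter, Finset.sum_product]
    rw [e3]
    refine mul_le_mul_of_nonneg_right ?_ (sq_nonneg _)
    have h4 : ((univ ×ˢ univ : Finset (Fin n × Fin n)).filter
          (fun p => p.1 ≠ p.2 ∧ S = {p.1, p.2})).card ≤ 4 := by
      rcases Finset.eq_empty_or_nonempty ((univ ×ˢ univ : Finset (Fin n × Fin n)).filter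
          (fun p => p.1 ≠ p.2 ∧ S = {p.1, p.2})) with h | ⟨p, hp⟩
      · rw [h]; simp
      · have hp' := (Finset.mem_filter.1 hp).2
        have hSc : S.card ≤ 2 := by rw [hp'.2]; exact Finset.card_le_two
        have : (univ ×ˢ univ : Finset (Fin n × Fin n)).filter
          (fun p => p.1 ≠ p.2 ∧ S = {p.1, p.2}) ⊆ S ×ˢ S := by
          intro q hq
          have hq' := (Finset.mem_filter.1 hq).2
          rw [Finset.mem_product, hq'.2]
          simp
        refine (Finset.card_le_card this).trans ?_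
        rw [Finset.card_product]
        nlinarith
    exact_mod_cast h4
  have h1 : (qf (BM n 0 Z) x) ^ 2 ≤ (∑ i, x i ^ 2) * ∑ i, ((BM n 0 Z).mulVec x i) ^ 2 := cs _ _
  have h2 : ∑ i, ((BM n 0 Z).mulVec x i) ^ 2 ≤ ∑ i, (∑ j, (BM n 0 Z i j) ^ 2) * ∑ i, x i ^ 2 :=
    Finset.sum_le_sum fun i _ => cs (BM n 0 Z i) x
  rw [← Finset.sum_mul] at h2
  have hx0 : 0 ≤ ∑ i, x i ^ 2 := Finset.sum_nonneg fun i _ => sq_nonneg _
  have h3 : (qf (BM n 0 Z) x) ^ 2 ≤ (2 * nrm Z * ∑ i, x i ^ 2) ^ 2 := by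
    calc (qf (BM n 0 Z) x) ^ 2 ≤ (∑ i, x i ^ 2) * ∑ i, ((BM n 0 Z).mulVec x i) ^ 2 := h1
      _ ≤ (∑ i, x i ^ 2) * ((∑ i, ∑ j, (BM n 0 Z i j) ^ 2) * ∑ i, x i ^ 2) := by gcongr
      _ ≤ (∑ i, x i ^ 2) * ((4 * nsq Z) * ∑ i, x i ^ 2) := by gcongr
      _ = (2 * nrm Z * ∑ i, x i ^ 2) ^ 2 := by rw [← hns]; ring
  exact abs_le_of_sq_le_sq h3 (by positivity)

lemma KM2_qf_abs_le (hℓ : 1 ≤ ℓ) (Z : Finset (Fin n) → ℝ)
    {v : {K : Finset (Fin n) // K.card = ℓ} → ℝ} (hv : dotProduct v v = 1) :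
    |qf (KM n ℓ 2 0 Z) v| ≤ 2 * ℓ * nrm Z := by
  rw [qf_red hℓ]
  calc |∑ K ∈ powersetCard (ℓ - 1) univ, qf (BM n 0 Z) (slice v K)| ≤
        ∑ K ∈ powersetCard (ℓ - 1) univ, |qf (BM n 0 Z) (slice v K)| :=
        Finset.abs_sum_le_sum_abs _ _
    _ ≤ ∑ K ∈ powersetCard (ℓ - 1) univ, 2 * nrm Z * ∑ i, slice v K i ^ 2 :=
        Finset.sum_le_sum fun K _ => BM_qf_abs_le Z _
    _ = 2 * nrm Z * (ℓ * ∑ I, v I ^ 2) := by rw [← Finset.mul_sum, slice_sq hℓ]
    _ = _ := by rw [← dot_eq, hv]; ring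

lemma KM2_lip (hℓ : 1 ≤ ℓ) [Nonempty {K : Finset (Fin n) // K.card = ℓ}] (c : ℝ) :
    Lip (2 * ℓ) (fun Z => lmax (KM n ℓ 2 c Z)) := by
  intro Z Z'
  refine lmax_sub_le _ _ fun v hv => ?_
  rw [KM_sub]
  exact KM2_qf_abs_le hℓ _ hv

lemma BM_sub (c : ℝ) (Z Z' : Finset (Fin n) → ℝ) :
    BM n c Z - BM n c Z' = BM n 0 (Z - Z') := by
  ext I J
  simp only [BM, Matrix.sub_apply, Matrix.of_apply, Pi.sub_apply]
  split_ifs <;> ring

lemma BM_lip [Nonempty (Fin n)] (c : ℝ) : Lip 2 (fun Z => lmax (BM n c Z)) := by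
  intro Z Z'
  refine lmax_sub_le _ _ fun v hv => ?_
  rw [BM_sub]
  have := BM_qf_abs_le (Z - Z') v
  rwa [← dot_eq, hv, mul_one] at this

end

end Pool.Agent.D0H98.Kik
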