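import Pool.Agent.D0H98.Kik.Walks
import Pool.Agent.D0H98.Kik.Red

/-!
# Sharp lower bound for the expected largest eigenvalue of the Kikuchi matrix of order two
-/

set_option autoImplicit false
set_option linter.unusedSectionVars false

open Finset MeasureTheory ProbabilityTheory Filter
open Pool.Agent.H320R2.LD (gam nsq nrm Lip prove_MGF St_MGF)

namespace Pool.Agent.D0H98.Kik

lemma gam_neg (V : Type) [Fintype V] :
    MeasurePreserving (fun Z : V → ℝ => -Z) (gam V) (gam V) := by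
  have h : ∀ _ : V, MeasurePreserving (fun x : ℝ => -x) (gaussianReal 0 1) (gaussianReal 0 1) := by
    intro _
    refine ⟨measurable_neg, ?_⟩
    rw [gaussianReal_map_neg, neg_zero]
  exact measurePreserving_pi (fun _ : V => gaussianReal 0 1) (fun _ : V => gaussianReal 0 1) h

lemma KM_neg {n ℓ r : ℕ} (Z : Finset (Fin n) → ℝ) : KM n ℓ r 0 (-Z) = -KM n ℓ r 0 Z := by
  ext I J
  simp only [KM, Matrix.neg_apply, Matrix.of_apply, Pi.neg_apply]
  split_ifs <;> ring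

lemma pow_le_exp_add {n ℓ r : ℕ} [Nonempty {K : Finset (Fin n) // K.card = ℓ}]
    (Z : Finset (Fin n) → ℝ) (I0 : {K : Finset (Fin n) // K.card = ℓ}) {β : ℝ} (hβ : 0 ≤ β)
    (k : ℕ) :
    β ^ (2 * k) / (2 * k).factorial * (KM n ℓ r 0 Z ^ (2 * k)) I0 I0 ≤
      Real.exp (β * lmax (KM n ℓ r 0 Z)) + Real.exp (β * lmax (KM n ℓ r 0 (-Z))) := by
  set M := KM n ℓ r 0 Z with hM
  set u := lmax M with hu
  set u' := lmax (KM n ℓ r 0 (-Z)) with hu'
  have hq : ∀ v, -qf M v ≤ u' * ∑ i, v i ^ 2 := by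
    intro v
    have h1 := qf_le (KM n ℓ r 0 (-Z)) v
    have h2 : qf (KM n ℓ r 0 (-Z)) v = -qf M v := by
      rw [KM_neg]
      unfold qf
      rw [Matrix.neg_mulVec, dotProduct_neg]
    rwa [h2] at h1
  have hc : 0 ≤ max u u' := by
    have h1 := hq (Pi.single I0 1)
    have h2 := qf_le M (Pi.single I0 1)
    have e1 : ∑ j, ((Pi.single I0 1 : {K : Finset (Fin n) // K.card = ℓ} → ℝ) j) ^ 2 = 1 := by
      rw [Finset.sum_eq_single I0]
      · simp
      · intro j _ hj; simp [Pi.single_eq_of_ne hj]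
      · intro h; exact absurd (Finset.mem_univ I0) h
    rw [e1, mul_one] at h1 h2
    rcases le_total u u' with h | h
    · rw [max_eq_right h]; linarith
    · rw [max_eq_left h]; linarith
  have habs : ∀ v, |qf M v| ≤ max u u' * ∑ i, v i ^ 2 := by
    intro v
    have hs : 0 ≤ ∑ i, v i ^ 2 := Finset.sum_nonneg fun i _ => sq_nonneg _
    rw [abs_le]
    constructor
    · have h1 := hq v
      have h2 : u' * ∑ i, v i ^ 2 ≤ max u u' * ∑ i, v i ^ 2 :=
        mul_le_mul_of_nonneg_right (le_max_right _ _) hs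
      linarith
    · have h1 := qf_le M v
      have h2 : u * ∑ i, v i ^ 2 ≤ max u u' * ∑ i, v i ^ 2 :=
        mul_le_mul_of_nonneg_right (le_max_left _ _) hs
      linarith
  have h1 := diag_pow_le (KM_symm 0 Z) hc habs k I0
  have h2 : β ^ (2 * k) / (2 * k).factorial * (M ^ (2 * k)) I0 I0 ≤
      β ^ (2 * k) / (2 * k).factorial * (max u u') ^ (2 * k) :=
    mul_le_mul_of_nonneg_left h1 (by positivity)
  have h3 : β ^ (2 * k) / (2 * k).factorial * (max u u') ^ (2 * k) ≤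
      Real.exp (β * max u u') := by
    have := Real.pow_div_factorial_le_exp (β * max u u') (mul_nonneg hβ hc) (2 * k)
    rw [mul_pow] at this
    refine le_trans (le_of_eq ?_) this
    ring
  have h4 : Real.exp (β * max u u') ≤ Real.exp (β * u) + Real.exp (β * u') := by
    have p1 := Real.exp_pos (β * u)
    have p2 := Real.exp_pos (β * u')
    rcases le_total u u' with h | h
    · rw [max_eq_right h]; linarith
    · rw [max_eq_left h]; linarith
  linarith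

theorem exp_moment {n ℓ : ℕ} (hℓ : 1 ≤ ℓ) [Nonempty {K : Finset (Fin n) // K.card = ℓ}]
    (I0 : {K : Finset (Fin n) // K.card = ℓ}) {β : ℝ} (hβ : 0 ≤ β) (k : ℕ) :
    β ^ (2 * k) / (2 * k).factorial * Phi ℓ 2 I0.1 (2 * k) [] ≤
      2 * Real.exp (β * (∫ Z, lmax (KM n ℓ 2 0 Z) ∂(gam (Finset (Fin n)))) +
        β ^ 2 * (2 * ℓ) ^ 2) := by
  have hℓ' : (0 : ℝ) < ℓ := by exact_mod_cast hℓ
  obtain ⟨hint, hexp, hmgf⟩ := prove_MGF (Finset (Fin n)) (fun Z => lmax (KM n ℓ 2 0 Z)) (2 * ℓ)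
    (by positivity) (KM2_lip hℓ 0)
  set A := ∫ Z, lmax (KM n ℓ 2 0 Z) ∂(gam (Finset (Fin n))) with hA
  have hmom := KM_diag_moment (n := n) (ℓ := ℓ) (r := 2) (2 * k) I0
  have hmom1 : Integrable (fun Z => (KM n ℓ 2 0 Z ^ (2 * k)) I0 I0) (gam (Finset (Fin n))) :=
    hmom.1
  have hmom2 : ∫ Z, (KM n ℓ 2 0 Z ^ (2 * k)) I0 I0 ∂(gam (Finset (Fin n))) =
      Phi ℓ 2 I0.1 (2 * k) [] := hmom.2
  have hE : ∫ Z, Real.exp (β * lmax (KM n ℓ 2 0 Z)) ∂(gam (Finset (Fin n))) ≤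
      Real.exp (β * A + β ^ 2 * (2 * ℓ) ^ 2) := by
    have h1 := hmgf β
    have h2 : (fun Z : Finset (Fin n) → ℝ => Real.exp (β * (lmax (KM n ℓ 2 0 Z) - A))) =
        fun Z => Real.exp (-(β * A)) * Real.exp (β * lmax (KM n ℓ 2 0 Z)) := by
      funext Z
      rw [← Real.exp_add]
      congr 1
      ring
    rw [h2, integral_const_mul] at h1
    have h3 : Real.exp (β * A) * (Real.exp (-(β * A)) *
        ∫ Z, Real.exp (β * lmax (KM n ℓ 2 0 Z)) ∂(gam (Finset (Fin n)))) =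
        ∫ Z, Real.exp (β * lmax (KM n ℓ 2 0 Z)) ∂(gam (Finset (Fin n))) := by
      rw [← mul_assoc, ← Real.exp_add]
      simp
    rw [← h3, Real.exp_add]
    exact mul_le_mul_of_nonneg_left h1 (Real.exp_pos _).le
  have hneg := gam_neg (Finset (Fin n))
  have hemb : MeasurableEmbedding (fun Z : Finset (Fin n) → ℝ => -Z) :=
    (MeasurableEquiv.neg (Finset (Fin n) → ℝ)).measurableEmbedding
  have hE' : ∫ Z, Real.exp (β * lmax (KM n ℓ 2 0 (-Z))) ∂(gam (Finset (Fin n))) =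
      ∫ Z, Real.exp (β * lmax (KM n ℓ 2 0 Z)) ∂(gam (Finset (Fin n))) :=
    hneg.integral_comp hemb (fun Z => Real.exp (β * lmax (KM n ℓ 2 0 Z)))
  have hexp' : Integrable (fun Z => Real.exp (β * lmax (KM n ℓ 2 0 (-Z))))
      (gam (Finset (Fin n))) :=
    (hneg.integrable_comp_emb hemb (g := fun Z => Real.exp (β * lmax (KM n ℓ 2 0 Z)))).2 (hexp β)
  have h5 : ∫ Z, β ^ (2 * k) / (2 * k).factorial * (KM n ℓ 2 0 Z ^ (2 * k)) I0 I0
      ∂(gam (Finset (Fin n))) ≤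
      ∫ Z, (Real.exp (β * lmax (KM n ℓ 2 0 Z)) + Real.exp (β * lmax (KM n ℓ 2 0 (-Z))))
      ∂(gam (Finset (Fin n))) :=
    integral_mono (hmom1.const_mul _) ((hexp β).add hexp') fun Z => pow_le_exp_add Z I0 hβ k
  rw [integral_const_mul, hmom2, integral_add (hexp β) hexp', hE'] at h5
  linarith

/-- choice of the exponent -/
lemma exists_moment {κ c : ℝ} (hκ : 0 < κ) (hc : 0 < c) : ∀ᶠ m : ℕ in atTop,
    (m.factorial : ℝ) * Real.exp ((1 - κ) * m) ≤ c * (m : ℝ) ^ m := by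
  have hr : |Real.exp (-κ)| < 1 := by
    rw [abs_of_pos (Real.exp_pos _), Real.exp_lt_one_iff]
    linarith
  have h1 := tendsto_pow_const_mul_const_pow_of_abs_lt_one 1 hr
  have h2 : ∀ᶠ m : ℕ in atTop, (m : ℝ) ^ 1 * Real.exp (-κ) ^ m < c / Real.exp 1 :=
    h1.eventually (gt_mem_nhds (by positivity))
  filter_upwards [h2, eventually_ge_atTop 1] with m hm hm1
  have hm0 : (0 : ℝ) < m := by exact_mod_cast hm1
  have hm1' : (1 : ℝ) ≤ m := by exact_mod_cast hm1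
  -- Stirling
  have hst : (m.factorial : ℝ) ≤ Real.exp 1 * m * (m / Real.exp 1) ^ m := by
    obtain ⟨m', rfl⟩ : ∃ m', m = m' + 1 := ⟨m - 1, by omega⟩
    have h3 := Stirling.stirlingSeq'_antitone (Nat.zero_le m')
    simp only [Function.comp, Nat.succ_eq_add_one, zero_add, Stirling.stirlingSeq_one] at h3
    rw [Stirling.stirlingSeq, div_le_iff₀ (by positivity)] at h3
    refine h3.trans ?_
    have h4 : √(2 * ((m' + 1 : ℕ) : ℝ)) = √2 * √((m' + 1 : ℕ) : ℝ) :=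
      Real.sqrt_mul (by norm_num) _
    rw [h4]
    have h5 : √((m' + 1 : ℕ) : ℝ) ≤ ((m' + 1 : ℕ) : ℝ) := by
      rw [Real.sqrt_le_left (by positivity)]
      nlinarith
    have h6 : Real.exp 1 / √2 * (√2 * √((m' + 1 : ℕ) : ℝ) *
        (((m' + 1 : ℕ) : ℝ) / Real.exp 1) ^ (m' + 1)) =
        Real.exp 1 * √((m' + 1 : ℕ) : ℝ) * (((m' + 1 : ℕ) : ℝ) / Real.exp 1) ^ (m' + 1) := by
      field_simp
    rw [h6]
    gcongr
  have he : Real.exp ((1 - κ) * m) = Real.exp (-κ) ^ m * Real.exp 1 ^ m := by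
    rw [← Real.exp_nat_mul, ← Real.exp_nat_mul, ← Real.exp_add]
    congr 1
    ring
  rw [he]
  rw [pow_one, lt_div_iff₀ (Real.exp_pos 1)] at hm
  calc (m.factorial : ℝ) * (Real.exp (-κ) ^ m * Real.exp 1 ^ m) ≤
      (Real.exp 1 * m * (m / Real.exp 1) ^ m) * (Real.exp (-κ) ^ m * Real.exp 1 ^ m) := by
        gcongr
    _ = (m * Real.exp (-κ) ^ m * Real.exp 1) * ((m / Real.exp 1) ^ m * Real.exp 1 ^ m) := by ring
    _ = (m * Real.exp (-κ) ^ m * Real.exp 1) * (m : ℝ) ^ m := by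
        rw [← mul_pow, div_mul_cancel₀ _ (Real.exp_pos 1).ne']
    _ ≤ c * (m : ℝ) ^ m := by gcongr

theorem KM2_lower {ℓ : ℕ} (hℓ : 1 ≤ ℓ) {a : ℝ} (ha0 : 0 < a) (ha : a < 2 * ℓ) :
    ∀ᶠ n : ℕ in atTop, a * √(n : ℝ) ≤
      ∫ Z, lmax (KM n ℓ 2 0 Z) ∂(gam (Finset (Fin n))) := by
  have hℓ' : (0 : ℝ) < ℓ := by exact_mod_cast hℓ
  -- choose `H`
  obtain ⟨H', hH'⟩ : ∃ H' : ℕ, a < 2 * ℓ * Real.cos (Real.pi / ((2 * (H' + 1) : ℕ) + 1)) := by
    have h1 : Tendsto (fun H' : ℕ => 2 * (ℓ : ℝ) *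
        Real.cos (Real.pi / ((2 * (H' + 1) : ℕ) + 1))) atTop (nhds (2 * ℓ * Real.cos 0)) := by
      refine Tendsto.const_mul _ ((Real.continuous_cos.tendsto 0).comp ?_)
      refine Tendsto.div_atTop tendsto_const_nhds ?_
      have : Tendsto (fun H' : ℕ => (H' : ℝ)) atTop atTop := tendsto_natCast_atTop_atTop
      refine tendsto_atTop_mono (fun H' => ?_) this
      push_cast
      have : (0 : ℝ) ≤ H' := Nat.cast_nonneg _
      linarith
    rw [Real.cos_zero, mul_one] at h1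
    exact (h1.eventually (lt_mem_nhds ha)).exists
  set H := 2 * (H' + 1) with hH
  set θ := 2 * ℓ * Real.cos (Real.pi / (H + 1)) with hθ
  have hθpos : 0 < θ := ha0.trans hH'
  have hH1 : 1 ≤ H := by omega
  set φ0 := phiH H (0 : Fin ℓ → ℕ) with hφ0
  have hφpos : 0 < φ0 := phiH_zero_pos hH1
  set κ := 1 - a / θ with hκ
  have hκpos : 0 < κ := by
    rw [hκ, sub_pos, div_lt_one hθpos]
    exact hH'
  set t0 := ℓ * H with ht0
  -- choose the moment `m = 2 k`
  have hev := exists_moment hκpos (c := φ0 / (5 * θ ^ t0)) (by positivity)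
  obtain ⟨m0, hm0⟩ := eventually_atTop.1 hev
  set k := m0 + t0 + 1 with hk
  set m := 2 * k with hm
  have hmm0 := hm0 m (by omega)
  have ht0e : Even t0 := by
    rw [ht0, hH]
    exact ⟨ℓ * (H' + 1), by ring⟩
  obtain ⟨j, hj⟩ : ∃ j, m = t0 + j := ⟨m - t0, by omega⟩
  have hjpar : Even (ℓ * H + j + ∑ a : Fin ℓ, (0 : Fin ℓ → ℕ) a) := by
    simp only [Pi.zero_apply, Finset.sum_const_zero, add_zero]
    rw [← ht0, ← hj, hm]
    exact even_two_mul k
  have hPP := PP_lower hℓ hH1 j (0 : Fin ℓ → ℕ) hjpar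
  rw [← ht0, ← hj, ← hθ, ← hφ0] at hPP
  have hm1 : (0 : ℝ) < m := by
    have : 0 < m := by omega
    exact_mod_cast this
  set β0 := (m : ℝ) / θ with hβ0
  have hβ0pos : 0 < β0 := by positivity
  -- limits in n
  have hlim1 : Tendsto (fun n : ℕ => ((n : ℝ) - (ℓ + m)) / n) atTop (nhds 1) := by
    have : Tendsto (fun n : ℕ => 1 - ((ℓ : ℝ) + m) / n) atTop (nhds (1 - 0)) :=
      tendsto_const_nhds.sub (tendsto_const_div_atTop_nhds_zero_nat _)
    rw [sub_zero] at this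
    refine this.congr' ?_
    filter_upwards [eventually_gt_atTop 0] with n hn
    have : (0 : ℝ) < n := by exact_mod_cast hn
    field_simp
  have hlim2 : Tendsto (fun n : ℕ => (((n : ℝ) - (ℓ + m)) / n) ^ k) atTop (nhds 1) := by
    have := hlim1.pow k
    rwa [one_pow] at this
  have hlim3 : Tendsto (fun n : ℕ => Real.exp ((β0 ^ 2 * (2 * ℓ) ^ 2) / n)) atTop (nhds 1) := by
    have h1 : Tendsto (fun n : ℕ => (β0 ^ 2 * (2 * (ℓ : ℝ)) ^ 2) / n) atTop (nhds 0) :=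
      tendsto_const_div_atTop_nhds_zero_nat _
    have := (Real.continuous_exp.tendsto 0).comp h1
    rwa [Real.exp_zero] at this
  filter_upwards [hlim2.eventually (lt_mem_nhds (by norm_num : (9 : ℝ) / 10 < 1)),
    hlim3.eventually (gt_mem_nhds (by norm_num : (1 : ℝ) < 11 / 10)),
    eventually_ge_atTop (ℓ + m + 1)] with n h1 h2 hn
  have hnpos : (0 : ℝ) < n := by
    have : 0 < n := by omega
    exact_mod_cast this
  set s := √(n : ℝ) with hs
  have hspos : 0 < s := Real.sqrt_pos.2 hnpos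
  have hss : s ^ 2 = n := Real.sq_sqrt hnpos.le
  have hbinj : Function.Injective (Fin.castLE (by omega : ℓ ≤ n)) := Fin.castLE_injective _
  set b : Fin ℓ → Fin n := Fin.castLE (by omega : ℓ ≤ n) with hb
  set I0 : {K : Finset (Fin n) // K.card = ℓ} := ⟨univ.image b, by
    rw [Finset.card_image_of_injective _ hbinj]; simp⟩ with hI0
  haveI : Nonempty {K : Finset (Fin n) // K.card = ℓ} := ⟨I0⟩
  set A := ∫ Z, lmax (KM n ℓ 2 0 Z) ∂(gam (Finset (Fin n))) with hA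
  by_contra hcon
  push Not at hcon
  have hDpos : (0 : ℝ) < (n : ℝ) - (ℓ + m) := by
    have : ((ℓ + m + 1 : ℕ) : ℝ) ≤ n := by exact_mod_cast hn
    push_cast at this
    linarith
  set d := √((n : ℝ) - (ℓ + m)) with hd
  have hdpos : 0 < d := Real.sqrt_pos.2 hDpos
  have hd2 : d ^ 2 = (n : ℝ) - (ℓ + m) := Real.sq_sqrt hDpos.le
  have hPhi := PP_le_Phi (V := Fin n) (b := b) hbinj (T := m) hdpos (by
    rw [hd2, Fintype.card_fin]; linarith) m [] trivial (by simp)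
  simp only [List.length_nil, pow_zero, one_mul, lw] at hPhi
  have hgt0 : hgt ([] : List (Fin ℓ × Fin n)) = 0 := rfl
  rw [hgt0] at hPhi
  have hexpm := exp_moment hℓ I0 (β := β0 / s) (by positivity) k
  rw [← hm, ← hA] at hexpm
  -- combine
  have hPhi2 : d ^ m * (θ ^ j * φ0) ≤ Phi ℓ 2 I0.1 m [] :=
    (mul_le_mul_of_nonneg_left hPP (by positivity)).trans hPhi
  have hexpA : Real.exp (β0 / s * A + (β0 / s) ^ 2 * (2 * ℓ) ^ 2) ≤
      Real.exp (β0 * a) * (11 / 10) := by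
    rw [Real.exp_add]
    have e1 : Real.exp (β0 / s * A) ≤ Real.exp (β0 * a) := by
      rw [Real.exp_le_exp, div_mul_eq_mul_div, div_le_iff₀ hspos, mul_assoc]
      exact mul_le_mul_of_nonneg_left hcon.le hβ0pos.le
    have e2 : Real.exp ((β0 / s) ^ 2 * (2 * ℓ) ^ 2) ≤ 11 / 10 := by
      have : (β0 / s) ^ 2 * (2 * (ℓ : ℝ)) ^ 2 = (β0 ^ 2 * (2 * ℓ) ^ 2) / n := by
        rw [div_pow, hss]; ring
      rw [this]
      exact h2.le
    exact mul_le_mul e1 e2 (Real.exp_pos _).le (Real.exp_pos _).le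
  have hkey : (β0 / s) ^ m / m.factorial * (d ^ m * (θ ^ j * φ0)) ≤
      2 * (Real.exp (β0 * a) * (11 / 10)) := by
    refine (mul_le_mul_of_nonneg_left hPhi2 (by positivity)).trans (hexpm.trans ?_)
    exact mul_le_mul_of_nonneg_left hexpA (by norm_num)
  have hds : (d / s) ^ m = (((n : ℝ) - (ℓ + m)) / n) ^ k := by
    rw [hm, pow_mul, div_pow, hd2, hss]
  have hlhs : (β0 / s) ^ m / m.factorial * (d ^ m * (θ ^ j * φ0)) =
      (d / s) ^ m * (β0 ^ m * θ ^ j * φ0 / m.factorial) := by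
    rw [div_pow, div_pow]; ring
  rw [hlhs, hds] at hkey
  have hβθ : β0 ^ m * θ ^ j = (m : ℝ) ^ m / θ ^ t0 := by
    have : θ ^ m = θ ^ t0 * θ ^ j := by rw [← pow_add, ← hj]
    rw [hβ0, div_pow, this]
    field_simp
  rw [hβθ] at hkey
  have hfac : (0 : ℝ) < m.factorial := by exact_mod_cast Nat.factorial_pos m
  set X := (m : ℝ) ^ m / θ ^ t0 * φ0 / m.factorial with hX
  have hXpos : 0 < X := by positivity
  have hX1 : 9 / 10 * X ≤ 2 * (Real.exp (β0 * a) * (11 / 10)) :=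
    (mul_le_mul_of_nonneg_right h1.le hXpos.le).trans hkey
  have hexpa : Real.exp (β0 * a) = Real.exp ((1 - κ) * m) := by
    congr 1
    rw [hκ, hβ0]
    ring
  rw [hexpa] at hX1
  have hX2 : 5 * Real.exp ((1 - κ) * m) ≤ X := by
    rw [hX, le_div_iff₀ hfac]
    have e1 : φ0 / (5 * θ ^ t0) * (m : ℝ) ^ m = ((m : ℝ) ^ m / θ ^ t0 * φ0) / 5 := by
      field_simp
    rw [e1] at hmm0
    linarith
  have hp := Real.exp_pos ((1 - κ) * m)
  linarith

end Pool.Agent.D0H98.Kik
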