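import Pool.Agent.D0H98.Kik.Signal

/-!
# A symmetric Gaussian matrix with a constant mean: moments by a supersolution
-/

set_option autoImplicit false
set_option linter.unusedSectionVars false

open Finset MeasureTheory ProbabilityTheory MvPolynomial
open Pool.Agent.H320R2.LD (gam nsq nrm Lip prove_MGF St_MGF)
open Pool.Agent.TH722.K6 (gm Ex stein Ex_apply int_poly Ex_C)

namespace Pool.Agent.D0H98.Kik

section

variable {n : ℕ}

/-- the `n × n` matrix with zero diagonal and entries `c + Z {i, j}` -/
def BM (n : ℕ) (c : ℝ) (Z : Finset (Fin n) → ℝ) : Matrix (Fin n) (Fin n) ℝ :=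
  Matrix.of fun i j => if i = j then 0 else c + Z {i, j}

/-- entries of the powers -/
noncomputable def entB (c : ℝ) (i0 : Fin n) : ℕ → Fin n → MvPolynomial (Finset (Fin n)) ℝ
  | 0, i => if i = i0 then 1 else 0
  | t + 1, i => ∑ j ∈ univ.erase i, (C c * entB c i0 t j + X {i, j} * entB c i0 t j)

lemma BM_symm (c : ℝ) (Z : Finset (Fin n) → ℝ) : (BM n c Z).IsSymm := by
  ext i j
  simp only [BM, Matrix.transpose_apply, Matrix.of_apply]
  by_cases h : i = j
  · subst h; simp
  · rw [if_neg h, if_neg (Ne.symm h), Finset.pair_comm]

lemma BM_pow (c : ℝ) (Z : Finset (Fin n) → ℝ) (t : ℕ) (i i0 : Fin n) :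
    (BM n c Z ^ t) i i0 = MvPolynomial.eval Z (entB c i0 t i) := by
  induction t generalizing i with
  | zero =>
    simp only [pow_zero, entB, Matrix.one_apply]
    split_ifs <;> simp
  | succ t ih =>
    rw [pow_succ', Matrix.mul_apply]
    simp only [entB, map_sum, map_add, map_mul, eval_X, eval_C]
    rw [← Finset.add_sum_erase _ _ (Finset.mem_univ i)]
    have : BM n c Z i i = 0 := by simp [BM]
    rw [this, zero_mul, zero_add]
    refine Finset.sum_congr rfl fun j hj => ?_
    have hij : i ≠ j := (Finset.ne_of_mem_erase hj).symm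
    rw [ih]
    simp only [BM, Matrix.of_apply, if_neg hij]
    ring

lemma D_C_mul {ι : Type} [Fintype ι] [DecidableEq ι] (l : List ι) (c : ℝ)
    (Q : MvPolynomial ι ℝ) : D l (C c * Q) = C c * D l Q := by
  induction l with
  | nil => rfl
  | cons S l ih =>
    simp only [D, ih]
    rw [Derivation.leibniz]
    simp

lemma Ul_eq_union {V : Type} [DecidableEq V] (I : Finset V) (l : List (Finset V)) :
    Ul I l = I ∪ Ul ∅ l := by
  induction l with
  | nil => simp [Ul]
  | cons S l ih => simp only [Ul, ih, Finset.union_assoc]

/-- the growth rate -/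
noncomputable def thetaB (n T : ℕ) (c x Y : ℝ) : ℝ :=
  x * (n + (1 + 2 * T) / Y) + c * (n * Y + (2 * T) / Y) + x⁻¹ * (T * Y) + x⁻¹

lemma sum_pow_ind {V : Type} [Fintype V] [DecidableEq V] (s : Finset V) (E : Finset V) {Y : ℝ}
    (hY : 0 < Y) : ∑ j ∈ s, (if j ∈ E then 1 else Y) ≤ Fintype.card V * Y + E.card := by
  calc ∑ j ∈ s, (if j ∈ E then (1 : ℝ) else Y) ≤ ∑ j : V, (if j ∈ E then (1 : ℝ) else Y) :=
        Finset.sum_le_sum_of_subset_of_nonneg (Finset.subset_univ _) fun j _ _ => by
          split_ifs <;> linarith
    _ ≤ ∑ j : V, (Y + if j ∈ E then 1 else 0) :=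
        Finset.sum_le_sum fun j _ => by split_ifs <;> linarith
    _ = _ := by
        rw [Finset.sum_add_distrib, Finset.sum_const, Finset.card_univ, nsmul_eq_mul]
        congr 1
        rw [← Finset.sum_filter, Finset.filter_mem_eq_inter, Finset.univ_inter,
          Finset.sum_const, nsmul_eq_mul, mul_one]

lemma Ul_insert_card {V : Type} [Fintype V] [DecidableEq V] (i j : V) (hij : i ≠ j) (l : List (Finset V))
    (a : ℕ) (h : l[a]? = some {i, j}) :
    (Ul {i} l).card = (Ul {j} (l.eraseIdx a)).card +
      if i ∈ Ul ∅ (l.eraseIdx a) then 0 else 1 := by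
  have e : Ul {i} l = insert i (Ul {j} (l.eraseIdx a)) := by
    rw [Ul_eq_union {i} l, Ul_eq_union {j} (l.eraseIdx a)]
    have h1 := Ul_subset_eraseIdx ∅ l a _ h
    have h2 := Ul_eraseIdx_subset ∅ l a
    have h3 := subset_Ul ∅ l a _ h
    ext x
    simp only [Finset.mem_union, Finset.mem_singleton, Finset.mem_insert]
    constructor
    · rintro (hx | hx)
      · exact Or.inl hx
      · have := h1 hx
        simp only [Finset.mem_union, Finset.mem_insert, Finset.mem_singleton] at this
        tauto
    · rintro (hx | hx | hx)
      · exact Or.inl hx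
      · right; exact h3 (by simp [hx])
      · right; exact h2 hx
  have hi : i ∈ Ul {j} (l.eraseIdx a) ↔ i ∈ Ul ∅ (l.eraseIdx a) := by
    rw [Ul_eq_union {j} (l.eraseIdx a)]
    simp [hij]
  rw [e]
  by_cases h4 : i ∈ Ul ∅ (l.eraseIdx a)
  · rw [if_pos h4, Finset.insert_eq_of_mem (hi.2 h4), add_zero]
  · rw [if_neg h4, Finset.card_insert_of_notMem (fun h5 => h4 (hi.1 h5))]

theorem entB_le {T : ℕ} {c x Y : ℝ} (hc : 0 ≤ c) (hx : 0 < x) (hcx : c * n ≤ x⁻¹)
    (hY : 0 < Y) (hY1 : Y ≤ 1) (i0 : Fin n) (t : ℕ) (i : Fin n) (l : List (Finset (Fin n)))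
    (hl : ∀ S ∈ l, S.card ≤ 2) (hT : l.length + t ≤ T) :
    Ex (D l (entB c i0 t i)) * Y ≤ thetaB n T c x Y ^ t *
      ((x * Y⁻¹) ^ l.length * Y ^ (Ul {i} l).card) := by
  set θ := thetaB n T c x Y with hθ
  have hθ0 : 0 ≤ θ := by rw [hθ]; unfold thetaB; positivity
  set X0 := x * Y⁻¹ with hX0
  have hXpos : 0 < X0 := by positivity
  have hYi : Y * Y⁻¹ = 1 := mul_inv_cancel₀ hY.ne'
  induction t generalizing i l with
  | zero =>
    rw [pow_zero, one_mul]
    by_cases h : l = []
    · subst h
      have h1 : Ex (D [] (entB c i0 0 i)) ≤ 1 := by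
        simp only [D, entB]
        split_ifs
        · have := Ex_C (ι := Finset (Fin n)) 1
          rw [map_one] at this
          exact this.le
        · rw [map_zero]; exact zero_le_one
      simp only [Ul, List.length_nil, pow_zero, one_mul, Finset.card_singleton, pow_one]
      exact mul_le_of_le_one_left hY.le h1
    · have h1 : Ex (D l (entB c i0 0 i)) = 0 := by
        simp only [entB]
        split_ifs
        · rw [D_one l h, map_zero]
        · rw [D_zero, map_zero]
      rw [h1, zero_mul]
      positivity
  | succ t ih =>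
    simp only [entB]
    rw [D_sum, map_sum]
    set U := Ul {i} l with hU
    set E := Ul ∅ l with hE
    set W := X0 ^ l.length * Y ^ U.card with hW
    have hWpos : 0 < W := by positivity
    have hEc : (E.card : ℝ) ≤ 2 * T := by
      have h4 : E.card ≤ (∅ : Finset (Fin n)).card + 2 * l.length := Ul_card_le ∅ l hl
      rw [Finset.card_empty, zero_add] at h4
      have h5 : E.card ≤ 2 * T := by omega
      exact_mod_cast h5
    have hUE : U = insert i E := by
      rw [hU, hE, Ul_eq_union {i} l]; rfl
    have hUc : (U.card : ℝ) ≤ 1 + 2 * T := by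
      have : U.card ≤ E.card + 1 := by rw [hUE]; exact Finset.card_insert_le _ _
      have h2 : (U.card : ℝ) ≤ E.card + 1 := by exact_mod_cast this
      linarith
    have hstep : ∀ j ∈ univ.erase i, Ex (D l (C c * entB c i0 t j + X {i, j} * entB c i0 t j)) =
        c * Ex (D l (entB c i0 t j)) + Ex (D ({i, j} :: l) (entB c i0 t j)) +
        ∑ a ∈ range l.length, if l[a]? = some {i, j} then Ex (D (l.eraseIdx a) (entB c i0 t j))
          else 0 := by
      intro j _
      rw [D_add, D_C_mul, D_X_mul, map_add, map_add, C_mul', map_smul, smul_eq_mul, stein, map_sum,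
        ← add_assoc]
      congr 1
      refine Finset.sum_congr rfl fun a _ => ?_
      split_ifs
      · rfl
      · exact map_zero _
    rw [Finset.sum_congr rfl hstep, Finset.sum_add_distrib, Finset.sum_add_distrib, add_mul,
      add_mul]
    -- mean moves
    have hmean : (∑ j ∈ univ.erase i, c * Ex (D l (entB c i0 t j))) * Y ≤
        θ ^ t * W * (c * (n * Y + (2 * T) / Y) + if i ∈ E then 0 else c * n) := by
      rw [Finset.sum_mul]
      have h1 : ∀ j ∈ univ.erase i, c * Ex (D l (entB c i0 t j)) * Y ≤
          θ ^ t * X0 ^ l.length * c * Y ^ (Ul {j} l).card := by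
        intro j _
        have h2 := ih j l hl (by omega)
        have h3 := mul_le_mul_of_nonneg_left h2 hc
        linarith
      refine (Finset.sum_le_sum h1).trans ?_
      rw [← Finset.mul_sum]
      have h4 : ∑ j ∈ univ.erase i, Y ^ (Ul {j} l).card =
          Y ^ E.card * ∑ j ∈ univ.erase i, (if j ∈ E then 1 else Y) := by
        rw [Finset.mul_sum]
        refine Finset.sum_congr rfl fun j _ => ?_
        rw [Ul_eq_union {j} l]
        change Y ^ (insert j E).card = _
        by_cases hj : j ∈ E
        · rw [Finset.insert_eq_of_mem hj, if_pos hj, mul_one]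
        · rw [Finset.card_insert_of_notMem hj, if_neg hj, pow_succ]
      rw [h4]
      have h5 := sum_pow_ind (univ.erase i) E hY
      rw [Fintype.card_fin] at h5
      have h6 : Y ^ E.card * ∑ j ∈ univ.erase i, (if j ∈ E then 1 else Y) ≤
          Y ^ U.card * ((n * Y + (2 * T) / Y) + if i ∈ E then 0 else (n : ℝ)) := by
        by_cases hi : i ∈ E
        · have hUE' : U = E := by rw [hUE, Finset.insert_eq_of_mem hi]
          rw [if_pos hi, add_zero, hUE']
          refine mul_le_mul_of_nonneg_left (h5.trans ?_) (by positivity)
          have : (2 * T : ℝ) ≤ (2 * T) / Y := by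
            rw [le_div_iff₀ hY]; exact mul_le_of_le_one_right (by positivity) hY1
          linarith
        · have hUE' : U.card = E.card + 1 := by
            rw [hUE, Finset.card_insert_of_notMem hi]
          rw [if_neg hi, hUE', pow_succ, mul_assoc]
          refine mul_le_mul_of_nonneg_left (h5.trans ?_) (by positivity)
          have e1 : Y * ((n * Y + (2 * T) / Y) + (n : ℝ)) = n * Y * Y + 2 * T + n * Y := by
            field_simp
          rw [e1]
          have : 0 ≤ (n : ℝ) * Y * Y := by positivity
          linarith
      have hpos : 0 ≤ θ ^ t * X0 ^ l.length * c := by positivity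
      refine (mul_le_mul_of_nonneg_left h6 hpos).trans (le_of_eq ?_)
      rw [hW]
      split_ifs <;> ring
    -- upward moves
    have hup : (∑ j ∈ univ.erase i, Ex (D ({i, j} :: l) (entB c i0 t j))) * Y ≤
        θ ^ t * W * (x * (n + (1 + 2 * T) / Y)) := by
      rw [Finset.sum_mul]
      have h1 : ∀ j ∈ univ.erase i, Ex (D ({i, j} :: l) (entB c i0 t j)) * Y ≤
          θ ^ t * W * X0 * (if j ∈ U then 1 else Y) := by
        intro j hj
        have h2 := ih j ({i, j} :: l) (by
          intro S hS
          rcases List.mem_cons.1 hS with h | h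
          · rw [h]; exact Finset.card_le_two
          · exact hl S h) (by rw [List.length_cons]; omega)
        refine h2.trans (le_of_eq ?_)
        have e1 : Ul {j} ({i, j} :: l) = insert j U := by
          rw [hUE, Ul_eq_union {j} ({i, j} :: l)]
          simp only [Ul]
          rw [← hE]
          ext y
          simp only [Finset.mem_union, Finset.mem_insert, Finset.mem_singleton]
          tauto
        rw [e1, List.length_cons, hW]
        by_cases h : j ∈ U
        · rw [if_pos h, Finset.insert_eq_of_mem h, pow_succ]
          ring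
        · rw [if_neg h, Finset.card_insert_of_notMem h, pow_succ, pow_succ]
          ring
      refine (Finset.sum_le_sum h1).trans ?_
      rw [← Finset.mul_sum]
      have h5 := sum_pow_ind (univ.erase i) U hY
      rw [Fintype.card_fin] at h5
      have hpos : 0 ≤ θ ^ t * W := by positivity
      rw [mul_assoc]
      refine mul_le_mul_of_nonneg_left ?_ hpos
      calc X0 * ∑ j ∈ univ.erase i, (if j ∈ U then 1 else Y) ≤ X0 * (n * Y + U.card) := by gcongr
        _ = x * (n + U.card / Y) := by rw [hX0]; field_simp
        _ ≤ x * (n + (1 + 2 * T) / Y) := by gcongr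
    -- downward moves
    have hdown : (∑ j ∈ univ.erase i, ∑ a ∈ range l.length,
        if l[a]? = some {i, j} then Ex (D (l.eraseIdx a) (entB c i0 t j)) else 0) * Y ≤
        θ ^ t * W * (x⁻¹ * (T * Y) + if i ∈ E then x⁻¹ else 0) := by
      rw [Finset.sum_comm, Finset.sum_mul]
      set nat : ℕ → Prop := fun a => i ∈ l.getD a ∅ ∧ i ∉ Ul ∅ (l.eraseIdx a) with hnat
      classical
      have h1 : ∀ a ∈ range l.length, (∑ j ∈ univ.erase i,
          if l[a]? = some {i, j} then Ex (D (l.eraseIdx a) (entB c i0 t j)) else 0) * Y ≤
          θ ^ t * W * x⁻¹ * ((if nat a then 1 else 0) + Y) := by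
        intro a ha
        have hget := getD_eq (Finset.mem_range.1 ha)
        have hR : 0 ≤ θ ^ t * W * x⁻¹ * ((if nat a then 1 else 0) + Y) := by
          have : 0 ≤ (if nat a then (1 : ℝ) else 0) + Y := by split_ifs <;> linarith
          positivity
        by_cases hex : ∃ j ∈ univ.erase i, l[a]? = some {i, j}
        · obtain ⟨j, hj, hja⟩ := hex
          have hij : i ≠ j := (Finset.ne_of_mem_erase hj).symm
          rw [Finset.sum_eq_single_of_mem j hj]
          · rw [if_pos hja]
            have hlen : (l.eraseIdx a).length = l.length - 1 :=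
              List.length_eraseIdx_of_lt (Finset.mem_range.1 ha)
            have h2 := ih j (l.eraseIdx a) (fun S' hS'' => hl S' (List.mem_of_mem_eraseIdx hS''))
              (by rw [hlen]; omega)
            refine h2.trans ?_
            have hc := Ul_insert_card i j hij l a hja
            rw [← hU] at hc
            have hlen2 : X0 ^ l.length = X0 ^ (l.eraseIdx a).length * X0 := by
              rw [← pow_succ, hlen]
              congr 1
              have := Finset.mem_range.1 ha
              omega
            rw [hW, hlen2]
            have hX : X0 * x⁻¹ = Y⁻¹ := by rw [hX0]; field_simp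
            have e1 : θ ^ t * (X0 ^ (l.eraseIdx a).length * X0 * Y ^ U.card) * x⁻¹ *
                ((if nat a then 1 else 0) + Y) =
                θ ^ t * (X0 ^ (l.eraseIdx a).length * (Y ^ U.card * Y⁻¹ *
                ((if nat a then 1 else 0) + Y))) := by
              rw [← hX]; ring
            rw [e1]
            refine mul_le_mul_of_nonneg_left ?_ (by positivity)
            refine mul_le_mul_of_nonneg_left ?_ (by positivity)
            rw [hc]
            by_cases hi : i ∈ Ul ∅ (l.eraseIdx a)
            · rw [if_pos hi, add_zero, mul_assoc]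
              refine le_mul_of_one_le_right (by positivity) ?_
              have : (0 : ℝ) ≤ if nat a then 1 else 0 := by split_ifs <;> norm_num
              have h3 : Y⁻¹ * Y = 1 := by rw [mul_comm]; exact hYi
              have h4 : 0 ≤ Y⁻¹ * (if nat a then (1 : ℝ) else 0) := by positivity
              linarith [mul_add Y⁻¹ (if nat a then (1 : ℝ) else 0) Y]
            · have hna : nat a := by
                refine ⟨?_, hi⟩
                rw [hja] at hget
                rw [← Option.some.inj hget]
                simp
              rw [if_neg hi, if_pos hna, pow_succ, mul_assoc, mul_assoc]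
              refine le_mul_of_one_le_right (by positivity) ?_
              rw [← mul_assoc, hYi, one_mul]
              linarith
          · intro j' _ hne
            rw [if_neg]
            intro h
            rw [hja] at h
            have h2 : ({i, j} : Finset (Fin n)) = {i, j'} := Option.some.inj h
            apply hne
            have h3 : j' ∈ ({i, j} : Finset (Fin n)) := by rw [h2]; simp
            have h4 : j ∈ ({i, j'} : Finset (Fin n)) := by rw [← h2]; simp
            simp only [Finset.mem_insert, Finset.mem_singleton] at h3 h4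
            rcases h4 with h4 | h4
            · exact absurd h4.symm hij
            · exact h4.symm
        · push Not at hex
          rw [Finset.sum_eq_zero fun j hj => if_neg (hex j hj), zero_mul]
          exact hR
      refine (Finset.sum_le_sum h1).trans ?_
      rw [← Finset.mul_sum]
      have h2 : ∑ a ∈ range l.length, ((if nat a then (1 : ℝ) else 0) + Y) ≤
          (if i ∈ E then 1 else 0) + T * Y := by
        rw [Finset.sum_add_distrib, Finset.sum_const, Finset.card_range, nsmul_eq_mul]
        refine add_le_add ?_ ?_
        · rw [← Finset.sum_filter, Finset.sum_const, nsmul_eq_mul, mul_one]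
          have hcard : ((range l.length).filter nat).card ≤ 1 := by
            rw [Finset.card_le_one]
            intro a ha b hb
            by_contra hab
            have ha' := (Finset.mem_filter.1 ha).2
            have hb' := (Finset.mem_filter.1 hb).2
            have hgb := getD_eq (Finset.mem_range.1 (Finset.mem_filter.1 hb).1)
            exact ha'.2 (subset_Ul_eraseIdx ∅ l a b hab _ hgb hb'.1)
          by_cases hi : i ∈ E
          · rw [if_pos hi]; exact_mod_cast hcard
          · rw [if_neg hi]
            have : (range l.length).filter nat = ∅ := by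
              rw [Finset.filter_eq_empty_iff]
              intro a ha hna
              have hga := getD_eq (Finset.mem_range.1 ha)
              exact hi (subset_Ul ∅ l a _ hga hna.1)
            rw [this]; simp
        · have : (l.length : ℝ) ≤ T := by exact_mod_cast (by omega : l.length ≤ T)
          gcongr
      have hpos : 0 ≤ θ ^ t * W * x⁻¹ := by positivity
      refine (mul_le_mul_of_nonneg_left h2 hpos).trans (le_of_eq ?_)
      split_ifs <;> ring
    refine (add_le_add (add_le_add hmean hup) hdown).trans ?_
    have hpos : 0 ≤ θ ^ t * W := by positivity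
    rw [pow_succ]
    have hfin : (c * (n * Y + (2 * T) / Y) + if i ∈ E then 0 else c * n) +
        (x * (n + (1 + 2 * T) / Y)) + (x⁻¹ * (T * Y) + if i ∈ E then x⁻¹ else 0) ≤ θ := by
      rw [hθ]; unfold thetaB
      split_ifs <;> linarith
    have := mul_le_mul_of_nonneg_left hfin hpos
    linarith

/-- the trace moments -/
theorem BM_diag_moment {T : ℕ} {c x Y : ℝ} (hc : 0 ≤ c) (hx : 0 < x) (hcx : c * n ≤ x⁻¹)
    (hY : 0 < Y) (hY1 : Y ≤ 1) (i0 : Fin n) :
    Integrable (fun Z => (BM n c Z ^ T) i0 i0) (gam (Finset (Fin n))) ∧
    ∫ Z, (BM n c Z ^ T) i0 i0 ∂(gam (Finset (Fin n))) ≤ thetaB n T c x Y ^ T := by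
  have h := entB_le hc hx hcx hY hY1 i0 T i0 [] (by simp) (T := T) (by simp)
  simp only [D, List.length_nil, pow_zero, one_mul, Ul, Finset.card_singleton, pow_one] at h
  have h2 := le_of_mul_le_mul_right h hY
  simp only [BM_pow]
  exact ⟨int_poly _, h2⟩

end

end Pool.Agent.D0H98.Kik
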