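import Pool.Agent.D0H98.Kik.Phi

/-!
# Upper bound for the moments of the Kikuchi matrix by a supersolution
-/

set_option autoImplicit false
set_option linter.unusedSectionVars false

open Finset

namespace Pool.Agent.D0H98.Kik

variable {V : Type} [Fintype V] [DecidableEq V]

lemma esymm_le {α : Type} [DecidableEq α] (w : α → ℝ) (hw : ∀ x, 0 ≤ w x) (T : Finset α) (k : ℕ) :
    ∑ B ∈ powersetCard k T, ∏ x ∈ B, w x ≤ (∑ x ∈ T, w x) ^ k := by
  induction T using Finset.induction_on generalizing k with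
  | empty =>
    cases k with
    | zero => simp
    | succ k => rw [Finset.powersetCard_eq_empty.2 (by simp)]; simp
  | insert a T ha ih =>
    cases k with
    | zero => simp
    | succ k =>
      rw [Finset.powersetCard_succ_insert ha, Finset.sum_union, Finset.sum_image,
        Finset.sum_insert ha]
      · have h1 := ih (k + 1)
        have h2 : ∑ B ∈ powersetCard k T, ∏ x ∈ insert a B, w x ≤ w a * (∑ x ∈ T, w x) ^ k := by
          refine le_trans (le_of_eq ?_) (mul_le_mul_of_nonneg_left (ih k) (hw a))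
          rw [Finset.mul_sum]
          refine Finset.sum_congr rfl fun B hB => ?_
          rw [Finset.prod_insert]
          intro h
          exact ha ((Finset.mem_powersetCard.1 hB).1 h)
        set s := ∑ x ∈ T, w x with hs
        have hs0 : 0 ≤ s := Finset.sum_nonneg fun x _ => hw x
        have h3 : s ^ k ≤ (w a + s) ^ k := by
          have := hw a
          gcongr
          linarith
        calc _ ≤ s ^ (k + 1) + w a * s ^ k := add_le_add h1 h2
          _ = (w a + s) * s ^ k := by ring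
          _ ≤ (w a + s) * (w a + s) ^ k :=
              mul_le_mul_of_nonneg_left h3 (add_nonneg (hw a) hs0)
          _ = (w a + s) ^ (k + 1) := by ring
      · intro B hB B' hB' h
        have hB2 : a ∉ B := fun h => ha ((Finset.mem_powersetCard.1 hB).1 h)
        have hB2' : a ∉ B' := fun h => ha ((Finset.mem_powersetCard.1 hB').1 h)
        rw [← Finset.erase_insert hB2, ← Finset.erase_insert hB2', h]
      · rw [Finset.disjoint_left]
        intro B hB hB'
        obtain ⟨B2, _, rfl⟩ := Finset.mem_image.1 hB'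
        exact ha ((Finset.mem_powersetCard.1 hB).1 (Finset.mem_insert_self a B2))

lemma val_inter {ℓ k : ℕ} {J S : Finset V} (hJ : J.card = ℓ) (hS : S ∈ val ℓ (2 * k) J) :
    (S ∩ J).card = k ∧ (S \ J).card = k := by
  simp only [val, Finset.mem_filter, Finset.mem_univ, true_and] at hS
  obtain ⟨h1, h2⟩ := hS
  have e1 : (symmDiff J S).card = (J \ S).card + (S \ J).card := by
    rw [symmDiff_def, Finset.sup_eq_union, Finset.card_union_of_disjoint]
    rw [Finset.disjoint_left]
    intro x hx hx'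
    exact (Finset.mem_sdiff.1 hx').2 (Finset.mem_sdiff.1 hx).1
  have e2 : (J \ S).card + (J ∩ S).card = J.card := Finset.card_sdiff_add_card_inter J S
  have e3 : (S \ J).card + (S ∩ J).card = S.card := Finset.card_sdiff_add_card_inter S J
  have e4 : (J ∩ S).card = (S ∩ J).card := by rw [Finset.inter_comm]
  omega

/-- the sum over the upward moves -/
lemma up_sum {ℓ k : ℕ} {J U : Finset V} (hJ : J.card = ℓ) (hJU : J ⊆ U) {Y : ℝ} (hY : 0 < Y)
    (hY1 : Y ≤ 1) :
    ∑ S ∈ val ℓ (2 * k) J, Y ^ (S \ U).card ≤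
      (ℓ.choose k : ℝ) * (Fintype.card V * Y + U.card) ^ k := by
  set w : V → ℝ := fun x => if x ∈ U then 1 else Y with hw
  have hw0 : ∀ x, 0 ≤ w x := fun x => by simp only [hw]; split_ifs <;> linarith
  have h1 : ∀ S ∈ val ℓ (2 * k) J, Y ^ (S \ U).card = ∏ x ∈ S \ J, w x := by
    intro S _
    have : ∏ x ∈ S \ J, w x = ∏ x ∈ (S \ J).filter (fun x => x ∉ U), Y := by
      rw [Finset.prod_filter]
      refine Finset.prod_congr rfl fun x _ => ?_
      simp only [hw]
      split_ifs <;> simp_all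
    rw [this, Finset.prod_const]
    congr 2
    ext x
    simp only [Finset.mem_sdiff, Finset.mem_filter]
    constructor
    · intro h
      exact ⟨⟨h.1, fun h2 => h.2 (hJU h2)⟩, h.2⟩
    · intro h
      exact ⟨h.1.1, h.2⟩
  rw [Finset.sum_congr rfl h1]
  set e : Finset V → Finset V × Finset V := fun S => (S ∩ J, S \ J) with he
  have hinj : Set.InjOn e (val ℓ (2 * k) J) := by
    intro S _ S' _ h
    simp only [he, Prod.mk.injEq] at h
    have e1 : S = (S ∩ J) ∪ (S \ J) := by ext x; simp only [mem_union, mem_inter, mem_sdiff]; tauto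
    have e2 : S' = (S' ∩ J) ∪ (S' \ J) := by
      ext x; simp only [mem_union, mem_inter, mem_sdiff]; tauto
    rw [e1, e2, h.1, h.2]
  have h2 : ∑ S ∈ val ℓ (2 * k) J, ∏ x ∈ S \ J, w x =
      ∑ p ∈ (val ℓ (2 * k) J).image e, ∏ x ∈ p.2, w x := by
    rw [Finset.sum_image hinj]
  have hsub : (val ℓ (2 * k) J).image e ⊆ powersetCard k J ×ˢ powersetCard k (univ \ J) := by
    intro p hp
    obtain ⟨S, hS, rfl⟩ := Finset.mem_image.1 hp
    have := val_inter hJ hS
    simp only [he, Finset.mem_product, Finset.mem_powersetCard]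
    refine ⟨⟨Finset.inter_subset_right, this.1⟩, ?_, this.2⟩
    exact Finset.sdiff_subset_sdiff (Finset.subset_univ _) (Finset.Subset.refl _)
  rw [h2]
  have h3 : ∑ p ∈ (val ℓ (2 * k) J).image e, ∏ x ∈ p.2, w x ≤
      ∑ p ∈ powersetCard k J ×ˢ powersetCard k (univ \ J), ∏ x ∈ p.2, w x :=
    Finset.sum_le_sum_of_subset_of_nonneg hsub fun p _ _ => Finset.prod_nonneg fun x _ => hw0 x
  refine h3.trans ?_
  rw [Finset.sum_product]
  simp only
  rw [Finset.sum_const, Finset.card_powersetCard, hJ, nsmul_eq_mul]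
  have h4 := esymm_le w hw0 (univ \ J) k
  have h5 : ∑ x ∈ univ \ J, w x ≤ Fintype.card V * Y + U.card := by
    calc ∑ x ∈ univ \ J, w x ≤ ∑ x, w x :=
          Finset.sum_le_sum_of_subset_of_nonneg (Finset.sdiff_subset) fun x _ _ => hw0 x
      _ ≤ ∑ x : V, (Y + if x ∈ U then 1 else 0) := by
          refine Finset.sum_le_sum fun x _ => ?_
          simp only [hw]
          split_ifs <;> linarith
      _ = Fintype.card V * Y + U.card := by
          rw [Finset.sum_add_distrib, Finset.sum_const, Finset.card_univ, nsmul_eq_mul]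
          congr 1
          rw [← Finset.sum_filter, Finset.filter_mem_eq_inter, Finset.univ_inter,
            Finset.sum_const, nsmul_eq_mul, mul_one]
  have h6 : 0 ≤ ∑ x ∈ univ \ J, w x := Finset.sum_nonneg fun x _ => hw0 x
  gcongr
  exact h4.trans (pow_le_pow_left₀ h6 h5 k)

/-- the sum over the downward moves -/
lemma down_sum {ℓ k : ℕ} (hk : 1 ≤ k) (I0 : Finset V) (l : List (Finset V))
    (hJ : (Jl I0 l).card = ℓ) {Y : ℝ} (hY : 0 < Y) (hY1 : Y ≤ 1) :
    (∑ i ∈ range l.length, if l.getD i ∅ ∈ val ℓ (2 * k) (Jl I0 l)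
        then Y ^ (Ul I0 (l.eraseIdx i)).card else 0) ≤
      Y ^ (Ul I0 l).card * (Y⁻¹) ^ k * ((ℓ : ℝ) / k + l.length * Y) := by
  set J := Jl I0 l with hJdef
  set G : Finset ℕ := (range l.length).filter
    fun i => l.getD i ∅ ∈ val ℓ (2 * k) J with hG
  have hGS : ∀ i ∈ G, ∃ S ∈ val ℓ (2 * k) J, l[i]? = some S := fun i hi =>
    ⟨_, (Finset.mem_filter.1 hi).2, getD_eq (Finset.mem_range.1 (Finset.mem_filter.1 hi).1)⟩
  set pr : ℕ → Finset V := fun i => Ul I0 l \ Ul I0 (l.eraseIdx i) with hpr
  have hprJ : ∀ i ∈ G, pr i ⊆ J ∧ (pr i).card ≤ k := by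
    intro i hi
    obtain ⟨S, hS, hiS⟩ := hGS i hi
    have h1 : pr i ⊆ S ∩ J := by
      intro x hx
      obtain ⟨hx1, hx2⟩ := Finset.mem_sdiff.1 hx
      have hxS : x ∈ S := by
        rcases Finset.mem_union.1 (Ul_subset_eraseIdx I0 l i S hiS hx1) with h | h
        · exact absurd h hx2
        · exact h
      have hxJ' : x ∉ Jl I0 (l.eraseIdx i) := fun h => hx2 (Jl_subset_Ul _ _ h)
      rw [Jl_eraseIdx I0 l i S hiS, Finset.mem_symmDiff] at hxJ'
      push Not at hxJ'
      refine Finset.mem_inter.2 ⟨hxS, ?_⟩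
      exact hxJ'.2 hxS
    exact ⟨h1.trans Finset.inter_subset_right,
      (Finset.card_le_card h1).trans (val_inter hJ hS).1.le⟩
  have hcard : ∀ i, (Ul I0 l).card = (Ul I0 (l.eraseIdx i)).card + (pr i).card := by
    intro i
    have := Finset.card_sdiff_add_card_eq_card (Ul_eraseIdx_subset I0 l i)
    simp only [hpr]
    omega
  set F : Finset ℕ := G.filter fun i => (pr i).card = k with hF
  have hFcard : k * F.card ≤ ℓ := by
    have hdisj : ∀ i ∈ F, ∀ j ∈ F, i ≠ j → Disjoint (pr i) (pr j) := by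
      intro i hi j hj hij
      rw [Finset.disjoint_left]
      intro x hxi hxj
      obtain ⟨S, hS, hjS⟩ := hGS j (Finset.mem_filter.1 hj).1
      have hxS : x ∈ S := by
        obtain ⟨hx1, hx2⟩ := Finset.mem_sdiff.1 hxj
        rcases Finset.mem_union.1 (Ul_subset_eraseIdx I0 l j S hjS hx1) with h | h
        · exact absurd h hx2
        · exact h
      exact (Finset.mem_sdiff.1 hxi).2 (subset_Ul_eraseIdx I0 l i j hij S hjS hxS)
    have h1 : (F.biUnion pr).card = ∑ i ∈ F, (pr i).card := Finset.card_biUnion hdisj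
    have h2 : ∑ i ∈ F, (pr i).card = F.card * k := by
      rw [Finset.sum_congr rfl fun i hi => (Finset.mem_filter.1 hi).2, Finset.sum_const,
        smul_eq_mul]
    have h3 : (F.biUnion pr).card ≤ J.card := by
      refine Finset.card_le_card ?_
      intro x hx
      obtain ⟨i, hi, hxi⟩ := Finset.mem_biUnion.1 hx
      exact (hprJ i (Finset.mem_filter.1 hi).1).1 hxi
    rw [h1, h2, hJ] at h3
    linarith
  have hk0 : (0 : ℝ) < k := by exact_mod_cast hk
  have hYi : Y * Y⁻¹ = 1 := mul_inv_cancel₀ hY.ne'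
  -- the terms
  have hterm : ∀ i ∈ G, Y ^ (Ul I0 (l.eraseIdx i)).card ≤
      Y ^ (Ul I0 l).card * (Y⁻¹) ^ k * ((if (pr i).card = k then 1 else 0) + Y) := by
    intro i hi
    have hc := hcard i
    have hle := (hprJ i hi).2
    obtain ⟨m, hm⟩ : ∃ m, k = (pr i).card + m := ⟨k - (pr i).card, by omega⟩
    have e1 : Y ^ (Ul I0 l).card * (Y⁻¹) ^ k = Y ^ (Ul I0 (l.eraseIdx i)).card * (Y⁻¹) ^ m := by
      rw [hc, hm, pow_add, pow_add]
      have : Y ^ (pr i).card * (Y⁻¹) ^ (pr i).card = 1 := by rw [← mul_pow, hYi, one_pow]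
      calc _ = Y ^ (Ul I0 (l.eraseIdx i)).card * (Y⁻¹) ^ m *
            (Y ^ (pr i).card * (Y⁻¹) ^ (pr i).card) := by ring
        _ = _ := by rw [this, mul_one]
    rw [e1, mul_assoc]
    have hp : 0 < Y ^ (Ul I0 (l.eraseIdx i)).card := by positivity
    refine le_mul_of_one_le_right hp.le ?_
    by_cases h : (pr i).card = k
    · rw [if_pos h]
      have : m = 0 := by omega
      rw [this, pow_zero, one_mul]
      linarith
    · rw [if_neg h, zero_add]
      obtain ⟨m', rfl⟩ : ∃ m', m = m' + 1 := ⟨m - 1, by omega⟩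
      have : (Y⁻¹) ^ (m' + 1) * Y = (Y⁻¹) ^ m' := by
        rw [pow_succ, mul_assoc, mul_comm Y⁻¹ Y, hYi, mul_one]
      rw [this]
      exact one_le_pow₀ (by rw [one_le_inv₀ hY]; exact hY1)
  rw [← Finset.sum_filter]
  refine (Finset.sum_le_sum hterm).trans ?_
  rw [← Finset.mul_sum]
  have hpos : 0 ≤ Y ^ (Ul I0 l).card * (Y⁻¹) ^ k := by positivity
  refine mul_le_mul_of_nonneg_left ?_ hpos
  rw [Finset.sum_add_distrib, Finset.sum_const, nsmul_eq_mul, ← Finset.sum_filter,
    Finset.sum_const, nsmul_eq_mul, mul_one]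
  have h1 : ((G.filter fun i => (pr i).card = k).card : ℝ) ≤ ℓ / k := by
    rw [le_div_iff₀ hk0]
    have : (k : ℝ) * F.card ≤ ℓ := by exact_mod_cast hFcard
    linarith
  have h2 : (G.card : ℝ) ≤ l.length := by
    have : G.card ≤ l.length := (Finset.card_filter_le _ _).trans (by rw [Finset.card_range])
    exact_mod_cast this
  have h3 : (G.card : ℝ) * Y ≤ l.length * Y := mul_le_mul_of_nonneg_right h2 hY.le
  linarith

lemma Ul_card_le (I0 : Finset V) {r : ℕ} (l : List (Finset V)) (hl : ∀ S ∈ l, S.card ≤ r) :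
    (Ul I0 l).card ≤ I0.card + r * l.length := by
  induction l with
  | nil => simp [Ul]
  | cons S l ih =>
    have h1 := ih fun S' hS' => hl S' (List.mem_cons_of_mem _ hS')
    have h2 := hl S List.mem_cons_self
    have h3 : (Ul I0 (S :: l)).card ≤ (Ul I0 l).card + S.card := Finset.card_union_le _ _
    rw [List.length_cons]
    nlinarith

/-- the growth rate -/
noncomputable def theta (N ℓ k T : ℕ) (x Y : ℝ) : ℝ :=
  x * (ℓ.choose k : ℝ) * (N + (ℓ + 2 * k * T) / Y) ^ k + x⁻¹ * ((ℓ : ℝ) / k + T * Y)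

theorem Phi_le {ℓ k T : ℕ} (hk : 1 ≤ k) (I0 : Finset V) (hI0 : I0.card = ℓ) {x Y : ℝ} (hx : 0 < x)
    (hY : 0 < Y) (hY1 : Y ≤ 1) (t : ℕ) (l : List (Finset V)) (hJ : (Jl I0 l).card = ℓ)
    (hl : ∀ S ∈ l, S.card ≤ 2 * k) (hT : l.length + t ≤ T) :
    Phi ℓ (2 * k) I0 t l * Y ^ ℓ ≤ theta (Fintype.card V) ℓ k T x Y ^ t *
      ((x * (Y⁻¹) ^ k) ^ l.length * Y ^ (Ul I0 l).card) := by
  set θ := theta (Fintype.card V) ℓ k T x Y with hθ
  set X := x * (Y⁻¹) ^ k with hX
  have hX0 : 0 < X := by positivity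
  have hθ0 : 0 ≤ θ := by
    rw [hθ]; unfold theta; positivity
  induction t generalizing l with
  | zero =>
    simp only [Phi, pow_zero, one_mul]
    by_cases h : l = []
    · subst h
      simp [Ul, hI0]
    · rw [if_neg h, zero_mul]
      positivity
  | succ t ih =>
    simp only [Phi]
    set U := Ul I0 l with hU
    set J := Jl I0 l with hJd
    rw [add_mul, Finset.sum_mul, Finset.sum_mul]
    -- upward moves
    have hup : ∑ S ∈ val ℓ (2 * k) J, Phi ℓ (2 * k) I0 t (S :: l) * Y ^ ℓ ≤
        θ ^ t * (X ^ l.length * Y ^ U.card) *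
          (x * (ℓ.choose k : ℝ) * (Fintype.card V + (ℓ + 2 * k * T) / Y) ^ k) := by
      have h1 : ∀ S ∈ val ℓ (2 * k) J, Phi ℓ (2 * k) I0 t (S :: l) * Y ^ ℓ ≤
          θ ^ t * (X ^ l.length * Y ^ U.card) * X * Y ^ (S \ U).card := by
        intro S hS
        have hS' := hS
        simp only [val, Finset.mem_filter, Finset.mem_univ, true_and] at hS'
        have h2 := ih (S :: l) (by simp only [Jl]; exact hS'.2) (by
          intro S' hS''
          rcases List.mem_cons.1 hS'' with h | h
          · rw [h]; exact hS'.1.le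
          · exact hl S' h) (by rw [List.length_cons]; omega)
        refine h2.trans (le_of_eq ?_)
        have e1 : (Ul I0 (S :: l)).card = U.card + (S \ U).card := by
          rw [Ul_cons, ← hU]
          have := Finset.card_union_of_disjoint (s := U) (t := S \ U)
            (Finset.disjoint_sdiff)
          rw [← this, Finset.union_sdiff_self_eq_union]
        rw [e1, List.length_cons, pow_succ, pow_add]
        ring
      refine (Finset.sum_le_sum h1).trans ?_
      rw [← Finset.mul_sum]
      have h3 := up_sum hJ (Jl_subset_Ul I0 l) hY hY1 (k := k)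
      have hpos : 0 ≤ θ ^ t * (X ^ l.length * Y ^ U.card) := by positivity
      rw [mul_assoc]
      refine mul_le_mul_of_nonneg_left ?_ hpos
      calc X * ∑ S ∈ val ℓ (2 * k) J, Y ^ (S \ U).card
          ≤ X * ((ℓ.choose k : ℝ) * (Fintype.card V * Y + U.card) ^ k) := by gcongr
        _ = x * (ℓ.choose k : ℝ) * (Fintype.card V + U.card / Y) ^ k := by
            rw [hX]
            have : (Fintype.card V + U.card / Y : ℝ) = Y⁻¹ * (Fintype.card V * Y + U.card) := by
              field_simp
            rw [this, mul_pow]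
            ring
        _ ≤ x * (ℓ.choose k : ℝ) * (Fintype.card V + (ℓ + 2 * k * T) / Y) ^ k := by
            have hUc : (U.card : ℝ) ≤ ℓ + 2 * k * T := by
              have h4 : U.card ≤ I0.card + 2 * k * l.length := Ul_card_le I0 l hl
              rw [hI0] at h4
              have h5 : 2 * k * l.length ≤ 2 * k * T := Nat.mul_le_mul_left _ (by omega)
              have h6 : U.card ≤ ℓ + 2 * k * T := h4.trans (by omega)
              exact_mod_cast h6
            gcongr
    -- downward moves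
    have hdown : ∑ i ∈ range l.length, (if l.getD i ∅ ∈ val ℓ (2 * k) J
        then Phi ℓ (2 * k) I0 t (l.eraseIdx i) else 0) * Y ^ ℓ ≤
        θ ^ t * (X ^ l.length * Y ^ U.card) * (x⁻¹ * ((ℓ : ℝ) / k + T * Y)) := by
      have h1 : ∀ i ∈ range l.length, (if l.getD i ∅ ∈ val ℓ (2 * k) J
          then Phi ℓ (2 * k) I0 t (l.eraseIdx i) else 0) * Y ^ ℓ ≤
          θ ^ t * X ^ (l.length - 1) * (if l.getD i ∅ ∈ val ℓ (2 * k) J
            then Y ^ (Ul I0 (l.eraseIdx i)).card else 0) := by
        intro i hi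
        rw [Finset.mem_range] at hi
        by_cases h : l.getD i ∅ ∈ val ℓ (2 * k) J
        · rw [if_pos h, if_pos h]
          obtain ⟨S, hS, hiS⟩ : ∃ S ∈ val ℓ (2 * k) J, l[i]? = some S := ⟨_, h, getD_eq hi⟩
          have hS' := hS
          simp only [val, Finset.mem_filter, Finset.mem_univ, true_and] at hS'
          have hlen : (l.eraseIdx i).length = l.length - 1 := List.length_eraseIdx_of_lt hi
          have h2 := ih (l.eraseIdx i) (by rw [Jl_eraseIdx I0 l i S hiS]; exact hS'.2)
            (fun S' hS'' => hl S' (List.mem_of_mem_eraseIdx hS'')) (by rw [hlen]; omega)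
          rw [hlen] at h2
          refine h2.trans (le_of_eq ?_)
          ring
        · rw [if_neg h, if_neg h]; simp
      refine (Finset.sum_le_sum h1).trans ?_
      rw [← Finset.mul_sum]
      rcases Nat.eq_zero_or_pos l.length with h0 | h0
      · rw [h0]
        simp only [Finset.range_zero, Finset.sum_empty, mul_zero]
        positivity
      · have h3 := down_sum hk I0 l hJ hY hY1
        have hpos : 0 ≤ θ ^ t * X ^ (l.length - 1) := by positivity
        refine (mul_le_mul_of_nonneg_left h3 hpos).trans ?_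
        have e1 : X ^ l.length = X ^ (l.length - 1) * X := by
          rw [← pow_succ]; congr 1; omega
        have hlT : (l.length : ℝ) ≤ T := by exact_mod_cast (by omega : l.length ≤ T)
        rw [e1]
        have e2 : θ ^ t * (X ^ (l.length - 1) * X * Y ^ U.card) * (x⁻¹ * ((ℓ : ℝ) / k + T * Y)) =
            θ ^ t * X ^ (l.length - 1) * (Y ^ U.card * (Y⁻¹) ^ k * ((ℓ : ℝ) / k + T * Y)) := by
          have : X * x⁻¹ = (Y⁻¹) ^ k := by rw [hX]; field_simp
          calc _ = θ ^ t * X ^ (l.length - 1) * (Y ^ U.card * (X * x⁻¹) * ((ℓ : ℝ) / k + T * Y)) := by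
                ring
            _ = _ := by rw [this]
        rw [e2]
        gcongr
    refine (add_le_add hup hdown).trans (le_of_eq ?_)
    rw [pow_succ]
    have : θ = x * (ℓ.choose k : ℝ) * (Fintype.card V + (ℓ + 2 * k * T) / Y) ^ k +
        x⁻¹ * ((ℓ : ℝ) / k + T * Y) := rfl
    rw [← mul_add, ← this]
    ring

/-- the moments -/
theorem Phi_nil_le {ℓ k T : ℕ} (hk : 1 ≤ k) (I0 : Finset V) (hI0 : I0.card = ℓ) {x Y : ℝ}
    (hx : 0 < x) (hY : 0 < Y) (hY1 : Y ≤ 1) (t : ℕ) (hT : t ≤ T) :
    Phi ℓ (2 * k) I0 t [] ≤ theta (Fintype.card V) ℓ k T x Y ^ t := by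
  have h := Phi_le hk I0 hI0 hx hY hY1 t [] hI0 (by simp) (by simpa using hT)
  simp only [List.length_nil, pow_zero, one_mul, Ul, hI0] at h
  exact le_of_mul_le_mul_right h (by positivity)

end Pool.Agent.D0H98.Kik
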