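import Pool.Agent.D0H98.Kik.Basic
import Pool.Agent.D0H98.Kik.Upper
import Pool.Agent.H320R2.LD.MGF

/-!
# Expected largest eigenvalue of the noise: upper bound
-/

set_option autoImplicit false
set_option linter.unusedSectionVars false

open Finset MeasureTheory ProbabilityTheory
open Pool.Agent.H320R2.LD (gam nsq nrm Lip prove_MGF St_MGF)
open Pool.Agent.TH722.K6 (gm)

namespace Pool.Agent.D0H98.Kik

section powers

variable {ι : Type} [Fintype ι] [DecidableEq ι]

/-- Cauchy-Schwarz -/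
lemma cs (u v : ι → ℝ) : (dotProduct u v) ^ 2 ≤ (∑ i, u i ^ 2) * ∑ i, v i ^ 2 := by
  unfold dotProduct
  exact Finset.sum_mul_sq_le_sq_mul_sq _ _ _

lemma qf_sq_le {M : Matrix ι ι ℝ} (hM : M.IsSymm) {v : ι → ℝ} (hv : dotProduct v v = 1) :
    qf M v ^ 2 ≤ qf (M * M) v := by
  have h1 := cs v (M.mulVec v)
  rw [← dot_eq, hv, one_mul] at h1
  have h2 : qf (M * M) v = ∑ i, (M.mulVec v i) ^ 2 := by
    unfold qf
    rw [← Matrix.mulVec_mulVec, Matrix.dotProduct_mulVec, ← Matrix.mulVec_transpose, hM.eq, dot_eq]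
  rw [h2]
  exact h1

lemma qf_pow_le {M : Matrix ι ι ℝ} (hM : M.IsSymm) {v : ι → ℝ} (hv : dotProduct v v = 1) (j : ℕ) :
    qf M v ^ (2 ^ (j + 1)) ≤ qf (M ^ (2 ^ (j + 1))) v := by
  induction j with
  | zero => simp only [zero_add, pow_one]; rw [pow_two M]; exact qf_sq_le hM hv
  | succ j ih =>
    have h0 : 0 ≤ qf M v ^ (2 ^ (j + 1)) := by
      rw [pow_succ, mul_comm, pow_mul]
      positivity
    have h1 := qf_sq_le (hM.pow (2 ^ (j + 1))) hv
    have e : M ^ (2 ^ (j + 1 + 1)) = M ^ (2 ^ (j + 1)) * M ^ (2 ^ (j + 1)) := by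
      rw [← pow_add]; congr 1; ring
    rw [e]
    refine le_trans ?_ h1
    rw [pow_succ 2 (j + 1), pow_mul]
    exact pow_le_pow_left₀ h0 ih 2

lemma qf_le_trace {M : Matrix ι ι ℝ} (hM : M.IsSymm) {v : ι → ℝ} (hv : dotProduct v v = 1) :
    qf (M * M) v ≤ ∑ i, (M * M) i i := by
  have h2 : qf (M * M) v = ∑ i, (M.mulVec v i) ^ 2 := by
    unfold qf
    rw [← Matrix.mulVec_mulVec, Matrix.dotProduct_mulVec, ← Matrix.mulVec_transpose, hM.eq, dot_eq]
  rw [h2]
  refine Finset.sum_le_sum fun i _ => ?_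
  have h3 := cs (M i) v
  rw [← dot_eq v, hv, mul_one] at h3
  refine h3.trans (le_of_eq ?_)
  rw [Matrix.mul_apply]
  refine Finset.sum_congr rfl fun j _ => ?_
  rw [hM.apply i j]; ring

lemma lmax_le_trace [Nonempty ι] {M : Matrix ι ι ℝ} (hM : M.IsSymm) (j : ℕ) {a : ℝ} (ha : 0 < a) :
    lmax M ≤ a + (∑ i, (M ^ (2 ^ (j + 1))) i i) / a ^ (2 ^ (j + 1) - 1) := by
  set T := 2 ^ (j + 1) with hT
  have hT1 : 1 ≤ T := Nat.one_le_two_pow
  refine lmax_le M fun v hv => ?_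
  have h1 : qf M v ^ T ≤ ∑ i, (M ^ T) i i := by
    refine (qf_pow_le hM hv j).trans ?_
    have e : M ^ T = M ^ (2 ^ j) * M ^ (2 ^ j) := by
      rw [← pow_add, hT]; congr 1; ring
    rw [← hT, e]
    exact qf_le_trace (hM.pow _) hv
  have h0 : 0 ≤ qf M v ^ T := by
    rw [hT, pow_succ, mul_comm, pow_mul]; positivity
  have hpos : 0 < a ^ (T - 1) := by positivity
  rcases le_total (qf M v) a with h | h
  · have : 0 ≤ (∑ i, (M ^ T) i i) / a ^ (T - 1) := div_nonneg (h0.trans h1) hpos.le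
    linarith
  · have h2 : qf M v ≤ qf M v ^ T / a ^ (T - 1) := by
      rw [le_div_iff₀ hpos]
      have e : qf M v ^ T = qf M v * qf M v ^ (T - 1) := by
        rw [← pow_succ']; congr 1; omega
      rw [e]
      have : 0 < qf M v := lt_of_lt_of_le ha h
      gcongr
    have h3 : qf M v ^ T / a ^ (T - 1) ≤ (∑ i, (M ^ T) i i) / a ^ (T - 1) := by gcongr
    linarith

end powers

section integ

variable {n ℓ r : ℕ}

lemma le_nrm {V : Type} [Fintype V] (x : V → ℝ) (v : V) : |x v| ≤ nrm x := by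
  unfold nrm nsq
  rw [← Real.sqrt_sq_eq_abs]
  exact Real.sqrt_le_sqrt (Finset.single_le_sum (f := fun v => x v ^ 2)
    (fun j _ => sq_nonneg _) (Finset.mem_univ v))

lemma KM_sub (c : ℝ) (Z Z' : Finset (Fin n) → ℝ) :
    KM n ℓ r c Z - KM n ℓ r c Z' = KM n ℓ r 0 (Z - Z') := by
  ext I J
  simp only [KM, Matrix.sub_apply, Matrix.of_apply, Pi.sub_apply]
  split_ifs <;> ring

lemma KM_qf_abs_le (Z : Finset (Fin n) → ℝ) {v : {K : Finset (Fin n) // K.card = ℓ} → ℝ}
    (hv : dotProduct v v = 1) :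
    |qf (KM n ℓ r 0 Z) v| ≤
      ((Fintype.card {K : Finset (Fin n) // K.card = ℓ} : ℝ) ^ 2 + 1) * nrm Z := by
  refine (qf_abs_le _ hv).trans ?_
  have h0 : 0 ≤ nrm Z := Real.sqrt_nonneg _
  have h1 : ∀ I J, |KM n ℓ r 0 Z I J| ≤ nrm Z := by
    intro I J
    simp only [KM, Matrix.of_apply, zero_add]
    split_ifs
    · exact le_nrm Z _
    · simpa using h0
  calc ∑ I, ∑ J, |KM n ℓ r 0 Z I J| ≤ ∑ _I : {K : Finset (Fin n) // K.card = ℓ},
        ∑ _J : {K : Finset (Fin n) // K.card = ℓ}, nrm Z :=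
        Finset.sum_le_sum fun I _ => Finset.sum_le_sum fun J _ => h1 I J
    _ = (Fintype.card {K : Finset (Fin n) // K.card = ℓ} : ℝ) ^ 2 * nrm Z := by
        simp only [Finset.sum_const, Finset.card_univ, nsmul_eq_mul]; ring
    _ ≤ _ := by nlinarith

lemma lmax_lip [Nonempty {K : Finset (Fin n) // K.card = ℓ}] (c : ℝ) :
    Lip ((Fintype.card {K : Finset (Fin n) // K.card = ℓ} : ℝ) ^ 2 + 1)
      (fun Z => lmax (KM n ℓ r c Z)) := by
  intro Z Z'
  refine lmax_sub_le _ _ fun v hv => ?_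
  rw [KM_sub]
  exact KM_qf_abs_le _ hv

lemma lmax_integrable [Nonempty {K : Finset (Fin n) // K.card = ℓ}] (c : ℝ) :
    Integrable (fun Z => lmax (KM n ℓ r c Z)) (gam (Finset (Fin n))) :=
  (prove_MGF (Finset (Fin n)) _ _ (by positivity) (lmax_lip c)).1

end integ

/-- the expected largest eigenvalue of the noise matrix -/
theorem noise_le {n ℓ k : ℕ} (hk : 1 ≤ k) [Nonempty {K : Finset (Fin n) // K.card = ℓ}] (j : ℕ)
    (hj : n ^ ℓ ≤ 2 ^ (2 ^ (j + 1))) {x Y : ℝ} (hx : 0 < x) (hY : 0 < Y) (hY1 : Y ≤ 1) :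
    ∫ Z, lmax (KM n ℓ (2 * k) 0 Z) ∂(gam (Finset (Fin n))) ≤
      4 * theta n ℓ k (2 ^ (j + 1)) x Y := by
  set T := 2 ^ (j + 1) with hT
  set θ := theta n ℓ k T x Y with hθ
  have hθ0 : 0 < θ := by
    rw [hθ]; unfold theta
    have h1 : 0 < x⁻¹ * ((ℓ : ℝ) / k + T * Y) := by
      have : (0 : ℝ) < T := by rw [hT]; positivity
      positivity
    have h2 : 0 ≤ x * (ℓ.choose k : ℝ) * (n + (ℓ + 2 * k * T) / Y) ^ k := by positivity
    linarith
  set a := 2 * θ with ha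
  have ha0 : 0 < a := by positivity
  have hint : ∀ I : {K : Finset (Fin n) // K.card = ℓ},
      Integrable (fun Z => (KM n ℓ (2 * k) 0 Z ^ T) I I) (gam (Finset (Fin n))) ∧
      ∫ Z, (KM n ℓ (2 * k) 0 Z ^ T) I I ∂(gam (Finset (Fin n))) ≤ θ ^ T := by
    intro I
    have h := KM_diag_moment (n := n) (ℓ := ℓ) (r := 2 * k) T I
    refine ⟨h.1, ?_⟩
    have h2 := Phi_nil_le (T := T) hk I.1 I.2 hx hY hY1 T le_rfl
    rw [Fintype.card_fin] at h2
    exact (le_of_eq h.2).trans h2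
  have h1 : ∫ Z, lmax (KM n ℓ (2 * k) 0 Z) ∂(gam (Finset (Fin n))) ≤
      ∫ Z, (a + (∑ I, (KM n ℓ (2 * k) 0 Z ^ T) I I) / a ^ (T - 1)) ∂(gam (Finset (Fin n))) := by
    refine integral_mono (lmax_integrable 0) ?_ fun Z => lmax_le_trace (KM_symm 0 Z) j ha0
    exact (integrable_const a).add ((integrable_finsetSum _ fun I _ => (hint I).1).div_const _)
  refine h1.trans ?_
  rw [integral_add (integrable_const a)
    ((integrable_finsetSum _ fun I _ => (hint I).1).div_const _), integral_const, integral_div,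
    integral_finsetSum _ fun I _ => (hint I).1]
  simp only [probReal_univ, smul_eq_mul, one_mul]
  have h2 : ∑ I : {K : Finset (Fin n) // K.card = ℓ},
      ∫ Z, (KM n ℓ (2 * k) 0 Z ^ T) I I ∂(gam (Finset (Fin n))) ≤ 2 ^ T * θ ^ T := by
    calc _ ≤ ∑ _I : {K : Finset (Fin n) // K.card = ℓ}, θ ^ T :=
          Finset.sum_le_sum fun I _ => (hint I).2
      _ = (n.choose ℓ : ℝ) * θ ^ T := by
          rw [Finset.sum_const, Finset.card_univ, nsmul_eq_mul]
          congr 2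
          rw [Fintype.card_subtype]
          have := Finset.card_powersetCard ℓ (Finset.univ : Finset (Fin n))
          rw [Finset.card_univ, Fintype.card_fin] at this
          rw [← this]
          congr 1
          ext K
          simp [Finset.mem_powersetCard]
      _ ≤ 2 ^ T * θ ^ T := by
          have h3 : (n.choose ℓ : ℝ) ≤ 2 ^ T := by
            have : n.choose ℓ ≤ 2 ^ T := (Nat.choose_le_pow n ℓ).trans hj
            exact_mod_cast this
          gcongr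
  have h3 : 2 ^ T * θ ^ T / a ^ (T - 1) = a := by
    have : (2 : ℝ) ^ T * θ ^ T = a ^ T := by rw [← mul_pow]
    rw [this, div_eq_iff (by positivity), ← pow_succ']
    congr 1
    have : 1 ≤ T := Nat.one_le_two_pow
    omega
  have h4 : (∑ I : {K : Finset (Fin n) // K.card = ℓ},
      ∫ Z, (KM n ℓ (2 * k) 0 Z ^ T) I I ∂(gam (Finset (Fin n)))) / a ^ (T - 1) ≤ a :=
    (div_le_div_of_nonneg_right h2 (by positivity)).trans h3.le
  linarith

end Pool.Agent.D0H98.Kik
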