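import Pool.Agent.TH722.K6.Gauss

/-!
# Moments of the Kikuchi matrix: an exact recursion
-/

set_option autoImplicit false
set_option linter.unusedSectionVars false

open Finset MvPolynomial MeasureTheory ProbabilityTheory
open Pool.Agent.TH722.K6

namespace Pool.Agent.D0H98.Kik

section deriv

variable {ι : Type} [Fintype ι] [DecidableEq ι]

/-- iterated derivative along a list -/
noncomputable def D : List ι → MvPolynomial ι ℝ → MvPolynomial ι ℝ
  | [], Q => Q
  | S :: l, Q => pderiv S (D l Q)

lemma D_add (l : List ι) (P Q : MvPolynomial ι ℝ) : D l (P + Q) = D l P + D l Q := by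
  induction l with
  | nil => rfl
  | cons S l ih => simp only [D, ih, map_add]

lemma D_zero (l : List ι) : D l (0 : MvPolynomial ι ℝ) = 0 := by
  induction l with
  | nil => rfl
  | cons S l ih => simp only [D, ih, map_zero]

lemma D_sum {α : Type} (l : List ι) (s : Finset α) (f : α → MvPolynomial ι ℝ) :
    D l (∑ a ∈ s, f a) = ∑ a ∈ s, D l (f a) := by
  classical
  induction s using Finset.induction_on with
  | empty => simp [D_zero]
  | insert a s ha ih => rw [Finset.sum_insert ha, Finset.sum_insert ha, D_add, ih]

lemma D_one (l : List ι) (hl : l ≠ []) : D l (1 : MvPolynomial ι ℝ) = 0 := by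
  induction l with
  | nil => exact absurd rfl hl
  | cons S l ih =>
    by_cases h : l = []
    · subst h; simp [D]
    · simp only [D, ih h, map_zero]

/-- Leibniz rule for the multiplication by a variable -/
lemma D_X_mul (l : List ι) (S : ι) (Q : MvPolynomial ι ℝ) :
    D l (X S * Q) = X S * D l Q +
      ∑ i ∈ range l.length, if l[i]? = some S then D (l.eraseIdx i) Q else 0 := by
  induction l with
  | nil => simp [D]
  | cons S' l ih =>
    have e : D (S' :: l) (X S * Q) = pderiv S' (D l (X S * Q)) := rfl
    rw [e, ih, map_add, Derivation.leibniz, map_sum, List.length_cons, Finset.sum_range_succ']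
    simp only [smul_eq_mul, List.getElem?_cons_succ, List.eraseIdx_cons_succ,
      List.getElem?_cons_zero, List.eraseIdx_cons_zero, Option.some.injEq]
    have e1 : ∑ i ∈ range l.length, (pderiv S') (if l[i]? = some S then D (l.eraseIdx i) Q else 0) =
        ∑ i ∈ range l.length, if l[i]? = some S then D (S' :: l.eraseIdx i) Q else 0 := by
      refine Finset.sum_congr rfl fun i _ => ?_
      split_ifs
      · rfl
      · simp
    rw [e1, pderiv_X]
    by_cases h : S' = S
    · subst h
      simp only [Pi.single_eq_same, if_true, D]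
      ring
    · rw [Pi.single_eq_of_ne (Ne.symm h), if_neg h]
      simp only [D]
      ring

end deriv

section phi

variable {V : Type} [Fintype V] [DecidableEq V]

/-- the sets `S` of size `r` for which `J Δ S` has size `ℓ` -/
def val (ℓ r : ℕ) (J : Finset V) : Finset (Finset V) :=
  univ.filter fun S => S.card = r ∧ (symmDiff J S).card = ℓ

/-- the set reached from `I0` by the moves of the list -/
def Jl (I0 : Finset V) : List (Finset V) → Finset V
  | [] => I0
  | S :: l => symmDiff (Jl I0 l) S

/-- the set of all elements which occur -/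
def Ul (I0 : Finset V) : List (Finset V) → Finset V
  | [] => I0
  | S :: l => Ul I0 l ∪ S

lemma Jl_subset_Ul (I0 : Finset V) (l : List (Finset V)) : Jl I0 l ⊆ Ul I0 l := by
  induction l with
  | nil => exact Finset.Subset.refl _
  | cons S l ih =>
    intro x hx
    simp only [Jl, Finset.mem_symmDiff] at hx
    simp only [Ul, Finset.mem_union]
    rcases hx with h | h
    · exact Or.inl (ih h.1)
    · exact Or.inr h.1

lemma Jl_eraseIdx (I0 : Finset V) (l : List (Finset V)) (i : ℕ) (S : Finset V)
    (h : l[i]? = some S) : Jl I0 (l.eraseIdx i) = symmDiff (Jl I0 l) S := by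
  induction l generalizing i with
  | nil => simp at h
  | cons S' l ih =>
    cases i with
    | zero =>
      simp only [List.getElem?_cons_zero, Option.some.injEq] at h
      subst h
      simp [Jl]
    | succ i =>
      simp only [List.getElem?_cons_succ] at h
      simp only [List.eraseIdx_cons_succ, Jl]
      rw [ih i h, symmDiff_assoc, symmDiff_comm S S', ← symmDiff_assoc]

lemma Ul_cons (I0 : Finset V) (l : List (Finset V)) (S : Finset V) :
    Ul I0 (S :: l) = Ul I0 l ∪ S := rfl

lemma subset_Ul (I0 : Finset V) (l : List (Finset V)) (i : ℕ) (S : Finset V)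
    (h : l[i]? = some S) : S ⊆ Ul I0 l := by
  induction l generalizing i with
  | nil => simp at h
  | cons S' l ih =>
    cases i with
    | zero =>
      simp only [List.getElem?_cons_zero, Option.some.injEq] at h
      subst h
      exact Finset.subset_union_right
    | succ i =>
      simp only [List.getElem?_cons_succ] at h
      exact (ih i h).trans Finset.subset_union_left

lemma I0_subset_Ul (I0 : Finset V) (l : List (Finset V)) : I0 ⊆ Ul I0 l := by
  induction l with
  | nil => exact Finset.Subset.refl _
  | cons S l ih => exact ih.trans Finset.subset_union_left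

lemma Ul_eraseIdx_subset (I0 : Finset V) (l : List (Finset V)) (i : ℕ) :
    Ul I0 (l.eraseIdx i) ⊆ Ul I0 l := by
  induction l generalizing i with
  | nil => simp
  | cons S' l ih =>
    cases i with
    | zero => simp only [List.eraseIdx_cons_zero, Ul]; exact Finset.subset_union_left
    | succ i =>
      simp only [List.eraseIdx_cons_succ, Ul]
      exact Finset.union_subset_union (ih i) (Finset.Subset.refl _)

lemma Ul_subset_eraseIdx (I0 : Finset V) (l : List (Finset V)) (i : ℕ) (S : Finset V)
    (h : l[i]? = some S) : Ul I0 l ⊆ Ul I0 (l.eraseIdx i) ∪ S := by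
  induction l generalizing i with
  | nil => simp at h
  | cons S' l ih =>
    cases i with
    | zero =>
      simp only [List.getElem?_cons_zero, Option.some.injEq] at h
      subst h
      simp only [List.eraseIdx_cons_zero, Ul]
      exact Finset.Subset.refl _
    | succ i =>
      simp only [List.getElem?_cons_succ] at h
      simp only [List.eraseIdx_cons_succ, Ul]
      intro x hx
      rcases Finset.mem_union.1 hx with hx | hx
      · rcases Finset.mem_union.1 (ih i h hx) with h1 | h1
        · exact Finset.mem_union_left _ (Finset.mem_union_left _ h1)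
        · exact Finset.mem_union_right _ h1
      · exact Finset.mem_union_left _ (Finset.mem_union_right _ hx)

/-- an element of the list at another position survives the erasure -/
lemma subset_Ul_eraseIdx (I0 : Finset V) (l : List (Finset V)) (i j : ℕ) (hij : i ≠ j)
    (S : Finset V) (h : l[j]? = some S) : S ⊆ Ul I0 (l.eraseIdx i) := by
  rcases Nat.lt_or_ge j i with hlt | hge
  · have : (l.eraseIdx i)[j]? = some S := by rw [List.getElem?_eraseIdx_of_lt hlt, h]
    exact subset_Ul _ _ _ _ this
  · have hgt : i < j := lt_of_le_of_ne hge hij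
    obtain ⟨j', rfl⟩ : ∃ j', j = j' + 1 := ⟨j - 1, by omega⟩
    have : (l.eraseIdx i)[j']? = some S := by
      rw [List.getElem?_eraseIdx_of_ge (by omega), h]
    exact subset_Ul _ _ _ _ this

/-- the entry `(I, I0)` of the power `t` of the Kikuchi matrix, as a polynomial -/
noncomputable def ent (ℓ r : ℕ) (I0 : Finset V) : ℕ → Finset V → MvPolynomial (Finset V) ℝ
  | 0, I => if I = I0 then 1 else 0
  | t + 1, I => ∑ S ∈ val ℓ r I, X S * ent ℓ r I0 t (symmDiff I S)

/-- the recursion for the moments -/
noncomputable def Phi (ℓ r : ℕ) (I0 : Finset V) : ℕ → List (Finset V) → ℝ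
  | 0, l => if l = [] then 1 else 0
  | t + 1, l => ∑ S ∈ val ℓ r (Jl I0 l), Phi ℓ r I0 t (S :: l) +
      ∑ i ∈ range l.length, if l.getD i ∅ ∈ val ℓ r (Jl I0 l)
        then Phi ℓ r I0 t (l.eraseIdx i) else 0

lemma getD_eq {l : List (Finset V)} {i : ℕ} (hi : i < l.length) : l[i]? = some (l.getD i ∅) := by
  rw [List.getD_eq_getElem _ _ hi, List.getElem?_eq_getElem hi]

theorem Ex_ent (ℓ r : ℕ) (I0 : Finset V) (t : ℕ) (l : List (Finset V)) :
    Ex (D l (ent ℓ r I0 t (Jl I0 l))) = Phi ℓ r I0 t l := by
  induction t generalizing l with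
  | zero =>
    simp only [ent, Phi]
    by_cases h : l = []
    · subst h
      simp only [D, Jl, if_true]
      have := Ex_C (ι := Finset V) 1
      rwa [map_one] at this
    · rw [if_neg h]
      split_ifs
      · rw [D_one l h, map_zero]
      · rw [D_zero, map_zero]
  | succ t ih =>
    simp only [ent, Phi]
    rw [D_sum, map_sum]
    have h1 : ∀ S ∈ val ℓ r (Jl I0 l), Ex (D l (X S * ent ℓ r I0 t (symmDiff (Jl I0 l) S))) =
        Phi ℓ r I0 t (S :: l) + ∑ i ∈ range l.length,
          if l[i]? = some S then Phi ℓ r I0 t (l.eraseIdx i) else 0 := by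
      intro S _
      rw [D_X_mul, map_add, map_sum, stein]
      congr 1
      · exact ih (S :: l)
      · refine Finset.sum_congr rfl fun i _ => ?_
        split_ifs with h
        · rw [← Jl_eraseIdx I0 l i S h, ih]
        · exact map_zero _
    rw [Finset.sum_congr rfl h1, Finset.sum_add_distrib]
    congr 1
    rw [Finset.sum_comm]
    refine Finset.sum_congr rfl fun i hi => ?_
    have hiS := getD_eq (Finset.mem_range.1 hi)
    by_cases h : l.getD i ∅ ∈ val ℓ r (Jl I0 l)
    · rw [if_pos h]
      rw [Finset.sum_eq_single (l.getD i ∅)]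
      · rw [if_pos hiS]
      · intro S' _ hS'
        rw [if_neg]
        rw [hiS]
        intro h2
        exact hS' (Option.some.inj h2).symm
      · intro h2; exact absurd h h2
    · rw [if_neg h]
      refine Finset.sum_eq_zero fun S hS => ?_
      rw [if_neg]
      intro h2
      rw [hiS] at h2
      exact h ((Option.some.inj h2).symm ▸ hS)

lemma Phi_nonneg (ℓ r : ℕ) (I0 : Finset V) (t : ℕ) (l : List (Finset V)) :
    0 ≤ Phi ℓ r I0 t l := by
  induction t generalizing l with
  | zero => simp only [Phi]; split_ifs <;> norm_num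
  | succ t ih =>
    simp only [Phi]
    refine add_nonneg (Finset.sum_nonneg fun S _ => ih _) (Finset.sum_nonneg fun i _ => ?_)
    split_ifs
    · exact ih _
    · exact le_rfl

/-- the Kikuchi matrix -/
def KM (n ℓ r : ℕ) (c : ℝ) (Z : Finset (Fin n) → ℝ) :
    Matrix {K : Finset (Fin n) // K.card = ℓ} {K : Finset (Fin n) // K.card = ℓ} ℝ :=
  Matrix.of fun I J => if (symmDiff I.1 J.1).card = r then c + Z (symmDiff I.1 J.1) else 0

/-- sum over the neighbours -/
lemma sum_nbr {n ℓ r : ℕ} (I : {K : Finset (Fin n) // K.card = ℓ})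
    (f : Finset (Fin n) → Finset (Fin n) → ℝ) :
    (∑ J : {K : Finset (Fin n) // K.card = ℓ},
      if (symmDiff I.1 J.1).card = r then f (symmDiff I.1 J.1) J.1 else 0) =
    ∑ S ∈ val ℓ r I.1, f S (symmDiff I.1 S) := by
  rw [← Finset.sum_filter]
  refine Finset.sum_bij (fun J _ => symmDiff I.1 J.1) ?_ ?_ ?_ ?_
  · intro J hJ
    simp only [Finset.mem_filter, Finset.mem_univ, true_and] at hJ
    simp only [val, Finset.mem_filter, Finset.mem_univ, true_and]
    refine ⟨hJ, ?_⟩
    rw [← symmDiff_assoc, symmDiff_self, bot_symmDiff]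
    exact J.2
  · intro J _ J' _ h
    apply Subtype.ext
    exact symmDiff_right_injective _ h
  · intro S hS
    simp only [val, Finset.mem_filter, Finset.mem_univ, true_and] at hS
    refine ⟨⟨symmDiff I.1 S, hS.2⟩, ?_, ?_⟩
    · simp only [Finset.mem_filter, Finset.mem_univ, true_and]
      rw [← symmDiff_assoc, symmDiff_self, bot_symmDiff]
      exact hS.1
    · simp only
      rw [← symmDiff_assoc, symmDiff_self, bot_symmDiff]
  · intro J hJ
    rw [← symmDiff_assoc, symmDiff_self, bot_symmDiff]

theorem KM_pow {n ℓ r : ℕ} (Z : Finset (Fin n) → ℝ) (t : ℕ)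
    (I I0 : {K : Finset (Fin n) // K.card = ℓ}) :
    (KM n ℓ r 0 Z ^ t) I I0 = MvPolynomial.eval Z (ent ℓ r I0.1 t I.1) := by
  induction t generalizing I with
  | zero =>
    simp only [pow_zero, ent, Matrix.one_apply]
    by_cases h : I = I0
    · subst h; simp
    · rw [if_neg h, if_neg (fun h2 => h (Subtype.ext h2))]
      simp
  | succ t ih =>
    rw [pow_succ', Matrix.mul_apply]
    simp only [ent, map_sum, map_mul, eval_X, ih]
    rw [← sum_nbr I (fun S J => Z S * MvPolynomial.eval Z (ent ℓ r I0.1 t J))]
    refine Finset.sum_congr rfl fun J _ => ?_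
    simp only [KM, Matrix.of_apply, zero_add]
    split_ifs
    · rfl
    · simp

theorem KM_symm {n ℓ r : ℕ} (c : ℝ) (Z : Finset (Fin n) → ℝ) : (KM n ℓ r c Z).IsSymm := by
  ext I J
  simp only [KM, Matrix.transpose_apply, Matrix.of_apply]
  rw [symmDiff_comm]

/-- the moments of the diagonal entries -/
theorem KM_diag_moment {n ℓ r : ℕ} (t : ℕ) (I0 : {K : Finset (Fin n) // K.card = ℓ}) :
    Integrable (fun Z => (KM n ℓ r 0 Z ^ t) I0 I0) (gm (Finset (Fin n))) ∧
    ∫ Z, (KM n ℓ r 0 Z ^ t) I0 I0 ∂(gm (Finset (Fin n))) = Phi ℓ r I0.1 t [] := by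
  have h := Ex_ent ℓ r I0.1 t []
  simp only [KM_pow]
  exact ⟨int_poly _, h⟩

end phi

end Pool.Agent.D0H98.Kik
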