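import Pool.Agent.D0H98.Kik.Noise

/-!
# Lower bounds for the expected largest eigenvalue
-/

set_option autoImplicit false
set_option linter.unusedSectionVars false

open Finset MeasureTheory ProbabilityTheory
open Pool.Agent.H320R2.LD (gam nsq nrm Lip prove_MGF St_MGF)
open Pool.Agent.TH722.K6 (gm Ex stein Ex_apply int_poly Ex_C)

namespace Pool.Agent.D0H98.Kik

lemma card_val_ge {V : Type} [Fintype V] [DecidableEq V] {ℓ k : ℕ} {J : Finset V}
    (hJ : J.card = ℓ) :
    ℓ.choose k * (Fintype.card V - ℓ).choose k ≤ (val ℓ (2 * k) J).card := by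
  have h1 : (powersetCard k J ×ˢ powersetCard k (univ \ J)).card =
      ℓ.choose k * (Fintype.card V - ℓ).choose k := by
    rw [Finset.card_product, Finset.card_powersetCard, Finset.card_powersetCard, hJ,
      Finset.card_sdiff_of_subset (Finset.subset_univ J), Finset.card_univ, hJ]
  rw [← h1]
  refine Finset.card_le_card_of_injOn (fun p => p.1 ∪ p.2) ?_ ?_
  · rintro ⟨A, B⟩ h
    simp only [Finset.coe_product, Set.mem_prod, Finset.mem_coe, Finset.mem_powersetCard] at h
    obtain ⟨⟨hA, hAc⟩, hB, hBc⟩ := h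
    have hdisj : Disjoint A B := by
      rw [Finset.disjoint_left]
      intro x hx hx'
      exact (Finset.mem_sdiff.1 (hB hx')).2 (hA hx)
    have hsd : symmDiff J (A ∪ B) = (J \ A) ∪ B := by
      ext x
      simp only [Finset.mem_symmDiff, Finset.mem_union, Finset.mem_sdiff]
      have h1 : x ∈ A → x ∈ J := fun h => hA h
      have h2 : x ∈ B → x ∉ J := fun h => (Finset.mem_sdiff.1 (hB h)).2
      tauto
    simp only [val, Finset.coe_filter, Finset.mem_univ, true_and, Set.mem_ofPred_eq]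
    constructor
    · rw [Finset.card_union_of_disjoint hdisj, hAc, hBc]; ring
    · rw [hsd, Finset.card_union_of_disjoint, Finset.card_sdiff_of_subset hA, hBc, hJ, hAc]
      · have : k ≤ ℓ := by rw [← hAc, ← hJ]; exact Finset.card_le_card hA
        omega
      · rw [Finset.disjoint_left]
        intro x hx hx'
        exact (Finset.mem_sdiff.1 (hB hx')).2 (Finset.mem_sdiff.1 hx).1
  · rintro ⟨A, B⟩ h ⟨A', B'⟩ h' heq
    simp only [Finset.coe_product, Set.mem_prod, Finset.mem_coe, Finset.mem_powersetCard] at h h'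
    simp only at heq
    have e1 : ∀ (A B : Finset V), A ⊆ J → B ⊆ univ \ J → (A ∪ B) ∩ J = A ∧ (A ∪ B) \ J = B := by
      intro A B hA hB
      constructor
      · ext x
        simp only [Finset.mem_inter, Finset.mem_union]
        have h1 : x ∈ A → x ∈ J := fun h => hA h
        have h2 : x ∈ B → x ∉ J := fun h => (Finset.mem_sdiff.1 (hB h)).2
        tauto
      · ext x
        simp only [Finset.mem_sdiff, Finset.mem_union]
        have h1 : x ∈ A → x ∈ J := fun h => hA h
        have h2 : x ∈ B → x ∉ J := fun h => (Finset.mem_sdiff.1 (hB h)).2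
        tauto
    have e2 := e1 A B h.1.1 h.2.1
    have e3 := e1 A' B' h'.1.1 h'.2.1
    rw [Prod.mk.injEq]
    constructor
    · rw [← e2.1, ← e3.1, heq]
    · rw [← e2.2, ← e3.2, heq]

lemma coord_integrable {n : ℕ} (S : Finset (Fin n)) :
    Integrable (fun Z : Finset (Fin n) → ℝ => Z S) (gam (Finset (Fin n))) := by
  have h := int_poly (MvPolynomial.X S : MvPolynomial (Finset (Fin n)) ℝ)
  have h' : Integrable (fun Z : Finset (Fin n) → ℝ => Z S) (gm (Finset (Fin n))) := by
    simpa using h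
  exact h'

lemma coord_integral {n : ℕ} (S : Finset (Fin n)) :
    ∫ Z : Finset (Fin n) → ℝ, Z S ∂(gam (Finset (Fin n))) = 0 := by
  have h := stein (1 : MvPolynomial (Finset (Fin n)) ℝ) S
  rw [mul_one, MvPolynomial.pderiv_one, map_zero, Ex_apply] at h
  have h' : ∫ Z : Finset (Fin n) → ℝ, Z S ∂(gm (Finset (Fin n))) = 0 := by
    simpa using h
  exact h'

theorem signal_ge {n ℓ k : ℕ} [Nonempty {K : Finset (Fin n) // K.card = ℓ}] {c : ℝ} (hc : 0 ≤ c) :
    c * (ℓ.choose k * (n - ℓ).choose k : ℕ) ≤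
      ∫ Z, lmax (KM n ℓ (2 * k) c Z) ∂(gam (Finset (Fin n))) := by
  set N : ℝ := (Fintype.card {K : Finset (Fin n) // K.card = ℓ} : ℝ) with hN
  have hN0 : 0 < N := by
    rw [hN]
    exact Nat.cast_pos.2 Fintype.card_pos
  set v : {K : Finset (Fin n) // K.card = ℓ} → ℝ := fun _ => (√N)⁻¹ with hv
  have hunit : dotProduct v v = 1 := by
    rw [dot_eq]
    simp only [hv, Finset.sum_const, Finset.card_univ, nsmul_eq_mul]
    rw [inv_pow, Real.sq_sqrt hN0.le]
    exact mul_inv_cancel₀ hN0.ne'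
  have hq : ∀ Z, qf (KM n ℓ (2 * k) c Z) v =
      N⁻¹ * ∑ I : {K : Finset (Fin n) // K.card = ℓ}, ∑ S ∈ val ℓ (2 * k) I.1, (c + Z S) := by
    intro Z
    rw [qf_eq, Finset.mul_sum]
    refine Finset.sum_congr rfl fun I _ => ?_
    rw [← sum_nbr I (fun S _ => c + Z S), Finset.mul_sum]
    refine Finset.sum_congr rfl fun J _ => ?_
    simp only [hv, KM, Matrix.of_apply]
    have : (√N)⁻¹ * (√N)⁻¹ = N⁻¹ := by
      rw [← mul_inv, Real.mul_self_sqrt hN0.le]
    rw [← this]
    split_ifs <;> ring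
  have hint : ∀ S, Integrable (fun Z : Finset (Fin n) → ℝ => c + Z S) (gam (Finset (Fin n))) :=
    fun S => (integrable_const c).add (coord_integrable S)
  have h1 : ∫ Z, N⁻¹ * ∑ I : {K : Finset (Fin n) // K.card = ℓ}, ∑ S ∈ val ℓ (2 * k) I.1, (c + Z S)
      ∂(gam (Finset (Fin n))) ≤ ∫ Z, lmax (KM n ℓ (2 * k) c Z) ∂(gam (Finset (Fin n))) := by
    refine integral_mono ?_ (lmax_integrable c) fun Z => ?_
    · exact (integrable_finsetSum _ fun I _ => integrable_finsetSum _ fun S _ => hint S).const_mul _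
    · simp only
      rw [← hq Z]
      exact qf_le_lmax _ hunit
  refine le_trans ?_ h1
  rw [integral_const_mul, integral_finsetSum _ fun I _ => integrable_finsetSum _ fun S _ => hint S]
  have h2 : ∀ I : {K : Finset (Fin n) // K.card = ℓ},
      ∫ Z, ∑ S ∈ val ℓ (2 * k) I.1, (c + Z S) ∂(gam (Finset (Fin n))) =
        (val ℓ (2 * k) I.1).card * c := by
    intro I
    rw [integral_finsetSum _ fun S _ => hint S]
    have : ∀ S ∈ val ℓ (2 * k) I.1, ∫ Z : Finset (Fin n) → ℝ, (c + Z S)
        ∂(gam (Finset (Fin n))) = c := by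
      intro S _
      rw [integral_add (integrable_const c) (coord_integrable S), coord_integral, add_zero,
        integral_const]
      simp
    rw [Finset.sum_congr rfl this, Finset.sum_const, nsmul_eq_mul]
  simp only [h2]
  have h3 : ∀ I : {K : Finset (Fin n) // K.card = ℓ},
      ((ℓ.choose k * (n - ℓ).choose k : ℕ) : ℝ) * c ≤ (val ℓ (2 * k) I.1).card * c := by
    intro I
    have := card_val_ge (k := k) I.2
    rw [Fintype.card_fin] at this
    have h4 : ((ℓ.choose k * (n - ℓ).choose k : ℕ) : ℝ) ≤ (val ℓ (2 * k) I.1).card := by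
      exact_mod_cast this
    exact mul_le_mul_of_nonneg_right h4 hc
  calc c * ((ℓ.choose k * (n - ℓ).choose k : ℕ) : ℝ) =
        N⁻¹ * ∑ _I : {K : Finset (Fin n) // K.card = ℓ},
          ((ℓ.choose k * (n - ℓ).choose k : ℕ) : ℝ) * c := by
        rw [Finset.sum_const, Finset.card_univ, nsmul_eq_mul, ← hN, ← mul_assoc,
          inv_mul_cancel₀ hN0.ne', one_mul, mul_comm]
    _ ≤ _ := by
        refine mul_le_mul_of_nonneg_left (Finset.sum_le_sum fun I _ => h3 I) (by positivity)

/-- the noise has a positive expected largest eigenvalue -/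
theorem noise_pos {n ℓ k : ℕ} (hk : 1 ≤ k) (hkℓ : k ≤ ℓ) (hn : ℓ + k ≤ n)
    [Nonempty {K : Finset (Fin n) // K.card = ℓ}] :
    0 < ∫ Z, lmax (KM n ℓ (2 * k) 0 Z) ∂(gam (Finset (Fin n))) := by
  classical
  obtain ⟨I⟩ := (inferInstance : Nonempty {K : Finset (Fin n) // K.card = ℓ})
  obtain ⟨S, hS⟩ : (val ℓ (2 * k) I.1).Nonempty := by
    rw [← Finset.card_pos]
    refine lt_of_lt_of_le ?_ (card_val_ge I.2)
    rw [Fintype.card_fin]
    exact Nat.mul_pos (Nat.choose_pos hkℓ) (Nat.choose_pos (by omega))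
  have hS' := hS
  simp only [val, Finset.mem_filter, Finset.mem_univ, true_and] at hS'
  set J : {K : Finset (Fin n) // K.card = ℓ} := ⟨symmDiff I.1 S, hS'.2⟩ with hJ
  have hIJ : symmDiff I.1 J.1 = S := by
    simp only [hJ]
    rw [← symmDiff_assoc, symmDiff_self, bot_symmDiff]
  have hne : I ≠ J := by
    intro h
    rw [← h, symmDiff_self] at hIJ
    rw [← hIJ] at hS'
    simp at hS'
    omega
  have hpt : ∀ Z : Finset (Fin n) → ℝ, |Z S| ≤ lmax (KM n ℓ (2 * k) 0 Z) := by
    intro Z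
    set s : ℝ := if 0 ≤ Z S then 1 else -1 with hs
    have hs2 : s ^ 2 = 1 := by rw [hs]; split_ifs <;> norm_num
    have hsZ : s * Z S = |Z S| := by
      rw [hs]
      split_ifs with h
      · rw [abs_of_nonneg h, one_mul]
      · rw [abs_of_neg (not_le.1 h)]; ring
    set w : {K : Finset (Fin n) // K.card = ℓ} → ℝ := Pi.single I 1 + Pi.single J s with hw
    have hwI : w I = 1 := by simp [hw, Pi.single_eq_of_ne hne]
    have hwJ : w J = s := by simp [hw, Pi.single_eq_of_ne hne.symm]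
    have hw0 : ∀ K, K ≠ I → K ≠ J → w K = 0 := by
      intro K h1 h2
      simp [hw, Pi.single_eq_of_ne h1, Pi.single_eq_of_ne h2]
    have hsum : ∀ f : {K : Finset (Fin n) // K.card = ℓ} → ℝ, (∀ K, K ≠ I → K ≠ J → f K = 0) →
        ∑ K, f K = f I + f J := by
      intro f hf
      rw [Fintype.sum_eq_add I J hne]
      intro K hK
      exact hf K hK.1 hK.2
    have hnorm : ∑ K, w K ^ 2 = 2 := by
      rw [hsum _ fun K h1 h2 => by rw [hw0 K h1 h2]; simp, hwI, hwJ, hs2]
      norm_num
    have hII : ∀ K : {K : Finset (Fin n) // K.card = ℓ}, KM n ℓ (2 * k) 0 Z K K = 0 := by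
      intro K
      simp only [KM, Matrix.of_apply, symmDiff_self]
      rw [if_neg]
      simp
      omega
    have hIJe : KM n ℓ (2 * k) 0 Z I J = Z S := by
      simp only [KM, Matrix.of_apply, hIJ, zero_add]
      rw [if_pos hS'.1]
    have hJIe : KM n ℓ (2 * k) 0 Z J I = Z S := by
      rw [(KM_symm 0 Z).apply I J, hIJe]
    have hq : qf (KM n ℓ (2 * k) 0 Z) w = 2 * |Z S| := by
      rw [qf_eq, hsum]
      · rw [hsum, hsum, hII, hII, hIJe, hJIe, hwI, hwJ, ← hsZ]
        · ring
        · intro K h1 h2; rw [hw0 K h1 h2]; simp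
        · intro K h1 h2; rw [hw0 K h1 h2]; simp
      · intro K h1 h2
        refine Finset.sum_eq_zero fun K' _ => ?_
        rw [hw0 K h1 h2]; simp
    have h := qf_le (KM n ℓ (2 * k) 0 Z) w
    rw [hq, hnorm] at h
    linarith
  have hpoly : ∀ z : ℝ, z ^ 2 / 2 - z ^ 4 / 8 ≤ |z| := by
    intro z
    have h0 : 0 ≤ |z| := abs_nonneg z
    have h1 : z ^ 2 = |z| ^ 2 := (sq_abs z).symm
    have h2 : z ^ 4 = |z| ^ 4 := by
      calc z ^ 4 = (z ^ 2) ^ 2 := by ring
        _ = _ := by rw [h1]; ring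
    rw [h1, h2]
    set y := |z|
    nlinarith [mul_nonneg h0 (sq_nonneg (y - 2)), mul_nonneg h0 (sq_nonneg (y + 1)), sq_nonneg (y * (y - 2)), mul_nonneg (mul_nonneg h0 h0) h0]
  set P : MvPolynomial (Finset (Fin n)) ℝ :=
    MvPolynomial.C (1 / 2) * MvPolynomial.X S ^ 2 - MvPolynomial.C (1 / 8) * MvPolynomial.X S ^ 4
    with hP
  have hPe : ∀ Z, MvPolynomial.eval Z P = (Z S) ^ 2 / 2 - (Z S) ^ 4 / 8 := by
    intro Z
    simp only [hP, map_sub, map_mul, map_pow, MvPolynomial.eval_C, MvPolynomial.eval_X]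
    ring
  have hval : Ex P = 1 / 8 := by
    have e2 : Ex ((MvPolynomial.X S : MvPolynomial (Finset (Fin n)) ℝ) ^ 2) = 1 := by
      rw [pow_two, stein]
      simp only [MvPolynomial.pderiv_X, Pi.single_eq_same]
      have := Ex_C (ι := Finset (Fin n)) 1
      rwa [map_one] at this
    have e4 : Ex ((MvPolynomial.X S : MvPolynomial (Finset (Fin n)) ℝ) ^ 4) = 3 := by
      rw [pow_succ', stein, Derivation.leibniz_pow]
      simp only [MvPolynomial.pderiv_X, Pi.single_eq_same, smul_eq_mul, mul_one, nsmul_eq_mul]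
      have : ((3 : ℕ) : MvPolynomial (Finset (Fin n)) ℝ) * MvPolynomial.X S ^ (3 - 1) =
          (3 : ℝ) • (MvPolynomial.X S ^ 2) := by
        rw [MvPolynomial.smul_eq_C_mul]
        norm_num
        exact (map_ofNat MvPolynomial.C 3).symm
      rw [this, map_smul, e2]
      norm_num
    rw [hP, map_sub, MvPolynomial.C_mul', MvPolynomial.C_mul', map_smul, map_smul, e2, e4]
    norm_num
  have hfin : (1 : ℝ) / 8 ≤ ∫ Z, lmax (KM n ℓ (2 * k) 0 Z) ∂(gam (Finset (Fin n))) := by
    rw [← hval, Ex_apply]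
    refine integral_mono (int_poly P) (lmax_integrable 0) fun Z => ?_
    simp only
    rw [hPe]
    exact (hpoly _).trans (hpt Z)
  linarith

end Pool.Agent.D0H98.Kik
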