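import Pool.Agent.D0H98.Kik.Signal

/-!
# Comparison of signal and noise for the Kikuchi matrix, all even orders
-/

set_option autoImplicit false
set_option linter.unusedSectionVars false

open Finset MeasureTheory ProbabilityTheory Filter
open Pool.Agent.H320R2.LD (gam)

namespace Pool.Agent.D0H98.Kik

lemma log_small (a b : ℝ) : ∀ᶠ n : ℕ in atTop, a * (Nat.log 2 n + 1) + b ≤ √(n : ℝ) := by
  have h1 : Tendsto (fun x : ℝ => (|a| / Real.log 2) * (Real.log x / x ^ ((1 : ℝ) / 2)) + (|a| + |b|) / x ^ ((1 : ℝ) / 2))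
      atTop (nhds ((|a| / Real.log 2) * 0 + 0)) := by
    refine Tendsto.add (Tendsto.const_mul _ ?_) ?_
    · exact (isLittleO_log_rpow_atTop (by norm_num : (0 : ℝ) < 1 / 2)).tendsto_div_nhds_zero
    · exact Tendsto.div_atTop tendsto_const_nhds (tendsto_rpow_atTop (by norm_num))
  rw [mul_zero, add_zero] at h1
  have h2 := (h1.comp tendsto_natCast_atTop_atTop).eventually (gt_mem_nhds (zero_lt_one' ℝ))
  filter_upwards [h2, eventually_gt_atTop 0] with n hn hn0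
  have hnpos : (0 : ℝ) < n := by exact_mod_cast hn0
  simp only [Function.comp] at hn
  have hs : (n : ℝ) ^ ((1 : ℝ) / 2) = √(n : ℝ) := (Real.sqrt_eq_rpow _).symm
  rw [hs] at hn
  have hspos : 0 < √(n : ℝ) := Real.sqrt_pos.2 hnpos
  have h3 : |a| / Real.log 2 * (Real.log n / √(n : ℝ)) + (|a| + |b|) / √(n : ℝ) =
      (|a| * (Real.log n / Real.log 2) + (|a| + |b|)) / √(n : ℝ) := by
    field_simp
  rw [h3, div_lt_one hspos] at hn
  have h4 : (Nat.log 2 n : ℝ) ≤ Real.log n / Real.log 2 := by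
    have := Real.natLog_le_logb n 2
    simpa [Real.logb] using this
  have h5 : a * (Nat.log 2 n + 1) + b ≤ |a| * (Real.log n / Real.log 2) + (|a| + |b|) := by
    have e1 : a * (Nat.log 2 n + 1) ≤ |a| * (Nat.log 2 n + 1) :=
      mul_le_mul_of_nonneg_right (le_abs_self a) (by positivity)
    have e2 : |a| * (Nat.log 2 n : ℝ) ≤ |a| * (Real.log n / Real.log 2) :=
      mul_le_mul_of_nonneg_left h4 (abs_nonneg a)
    have e3 := le_abs_self b
    nlinarith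
  linarith

lemma nonempty_of_le {n ℓ : ℕ} (h : ℓ ≤ n) : Nonempty {K : Finset (Fin n) // K.card = ℓ} := by
  obtain ⟨t, _, ht⟩ := Finset.exists_subset_card_eq (s := (univ : Finset (Fin n))) (n := ℓ)
    (by rw [Finset.card_univ, Fintype.card_fin]; exact h)
  exact ⟨⟨t, ht⟩⟩

lemma sqrt_opt {a b : ℝ} (ha : 0 < a) (hb : 0 < b) :
    √(a / b) * b + (√(a / b))⁻¹ * a = 2 * √(a * b) := by
  have h1 : √(a / b) * b = √(a * b) := by
    rw [Real.sqrt_div ha.le, Real.sqrt_mul ha.le]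
    have := Real.sqrt_pos.2 hb
    rw [div_mul_eq_mul_div, div_eq_iff this.ne', mul_assoc, Real.mul_self_sqrt hb.le]
  have h2 : (√(a / b))⁻¹ * a = √(a * b) := by
    rw [Real.sqrt_div ha.le, Real.sqrt_mul ha.le, inv_div]
    have := Real.sqrt_pos.2 ha
    rw [div_mul_eq_mul_div, div_eq_iff this.ne']
    have h3 := Real.mul_self_sqrt ha.le
    calc √b * a = √b * (√a * √a) := by rw [h3]
      _ = _ := by ring
  rw [h1, h2]; ring

theorem noise_upper {ℓ k : ℕ} (hk : 1 ≤ k) (hkℓ : k ≤ ℓ) :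
    ∀ᶠ n : ℕ in atTop, ∫ Z, lmax (KM n ℓ (2 * k) 0 Z) ∂(gam (Finset (Fin n))) ≤
      8 * √((ℓ + 1) * (ℓ.choose k * (2 * n) ^ k)) := by
  filter_upwards [log_small (4 * k * ℓ) ℓ, log_small (2 * ℓ) 0, eventually_ge_atTop (ℓ + 1)]
    with n h1 h2 hn
  haveI := nonempty_of_le (n := n) (ℓ := ℓ) (by omega)
  have hn0 : 0 < n := by omega
  have hnpos : (0 : ℝ) < n := by exact_mod_cast hn0
  have hn1 : (1 : ℝ) ≤ n := by exact_mod_cast hn0
  have hℓ : 1 ≤ ℓ := hk.trans hkℓ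
  set m := ℓ * (Nat.log 2 n + 1) with hm
  have hm0 : m ≠ 0 := by
    rw [hm]; exact Nat.mul_ne_zero (by omega) (by omega)
  set j := Nat.log 2 m with hj
  have hjm : 2 ^ j ≤ m := Nat.pow_log_le_self 2 hm0
  have hmj : m < 2 ^ (j + 1) := Nat.lt_pow_succ_log_self (by norm_num) m
  have hpow : n ^ ℓ ≤ 2 ^ (2 ^ (j + 1)) := by
    calc n ^ ℓ ≤ (2 ^ (Nat.log 2 n + 1)) ^ ℓ :=
          Nat.pow_le_pow_left (Nat.lt_pow_succ_log_self (by norm_num) n).le ℓ
      _ = 2 ^ m := by rw [← pow_mul, hm, mul_comm]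
      _ ≤ _ := Nat.pow_le_pow_right (by norm_num) hmj.le
  have hT : ((2 ^ (j + 1) : ℕ) : ℝ) ≤ 2 * ℓ * (Nat.log 2 n + 1) := by
    have : 2 ^ (j + 1) ≤ 2 * m := by rw [pow_succ]; omega
    calc ((2 ^ (j + 1) : ℕ) : ℝ) ≤ ((2 * m : ℕ) : ℝ) := by exact_mod_cast this
      _ = _ := by rw [hm]; push_cast; ring
  set T : ℝ := ((2 ^ (j + 1) : ℕ) : ℝ) with hTdef
  have hT0 : 0 ≤ T := by rw [hTdef]; positivity
  have hC : 0 < (ℓ.choose k : ℝ) := by exact_mod_cast Nat.choose_pos hkℓ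
  set D : ℝ := ℓ.choose k * (2 * n) ^ k with hD
  have hDpos : 0 < D := by rw [hD]; positivity
  set x : ℝ := √(((ℓ : ℝ) + 1) / D) with hx
  have hℓ1 : (0 : ℝ) < (ℓ : ℝ) + 1 := by positivity
  have hxpos : 0 < x := Real.sqrt_pos.2 (div_pos hℓ1 hDpos)
  have hsq : 0 < √(n : ℝ) := Real.sqrt_pos.2 hnpos
  have hsq1 : 1 ≤ √(n : ℝ) := by rw [Real.one_le_sqrt]; exact hn1
  set Y : ℝ := (√(n : ℝ))⁻¹ with hY
  have hYpos : 0 < Y := inv_pos.2 hsq
  have hY1 : Y ≤ 1 := inv_le_one_of_one_le₀ hsq1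
  have h := noise_le (n := n) hk j hpow hxpos hYpos hY1
  refine h.trans ?_
  have hθ : theta n ℓ k (2 ^ (j + 1)) x Y ≤ x * D + x⁻¹ * (ℓ + 1) := by
    unfold theta
    have e1 : ((n : ℝ) + (ℓ + 2 * k * ((2 ^ (j + 1) : ℕ) : ℝ)) / Y) ≤ 2 * n := by
      rw [hY, div_inv_eq_mul, ← hTdef]
      have e2 : (ℓ : ℝ) + 2 * k * T ≤ √(n : ℝ) := by
        have : 2 * (k : ℝ) * T ≤ 2 * k * (2 * ℓ * (Nat.log 2 n + 1)) :=
          mul_le_mul_of_nonneg_left hT (by positivity)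
        calc (ℓ : ℝ) + 2 * k * T ≤ ℓ + 2 * k * (2 * ℓ * (Nat.log 2 n + 1)) := by linarith
          _ = 4 * k * ℓ * (Nat.log 2 n + 1) + ℓ := by ring
          _ ≤ _ := h1
      have e3 : ((ℓ : ℝ) + 2 * k * T) * √(n : ℝ) ≤ √(n : ℝ) * √(n : ℝ) :=
        mul_le_mul_of_nonneg_right e2 hsq.le
      rw [Real.mul_self_sqrt hnpos.le] at e3
      linarith
    have e1' : 0 ≤ ((n : ℝ) + (ℓ + 2 * k * ((2 ^ (j + 1) : ℕ) : ℝ)) / Y) := by positivity
    have e4 : (ℓ : ℝ) / k + ((2 ^ (j + 1) : ℕ) : ℝ) * Y ≤ ℓ + 1 := by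
      have e5 : (ℓ : ℝ) / k ≤ ℓ := div_le_self (by positivity) (by exact_mod_cast hk)
      have e6 : T * Y ≤ 1 := by
        rw [hY, ← div_eq_mul_inv, div_le_one hsq]
        calc T ≤ 2 * ℓ * (Nat.log 2 n + 1) := hT
          _ = 2 * ℓ * (Nat.log 2 n + 1) + 0 := by ring
          _ ≤ _ := h2
      linarith
    have e7 : x * (ℓ.choose k : ℝ) * ((n : ℝ) + (ℓ + 2 * k * ((2 ^ (j + 1) : ℕ) : ℝ)) / Y) ^ k ≤
        x * D := by
      rw [hD, mul_assoc]
      refine mul_le_mul_of_nonneg_left ?_ hxpos.le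
      refine mul_le_mul_of_nonneg_left ?_ hC.le
      exact pow_le_pow_left₀ e1' e1 k
    exact add_le_add e7 (mul_le_mul_of_nonneg_left e4 (inv_pos.2 hxpos).le)
  rw [hx, sqrt_opt hℓ1 hDpos] at hθ
  rw [hx]
  linarith

/-- the constant in the bound for the threshold -/
noncomputable def ck (k : ℕ) : ℝ := 16 * 2 ^ k * √(2 ^ k) * k.factorial

theorem ratio_ge_two {ℓ k : ℕ} (hk : 1 ≤ k) (hkℓ : k ≤ ℓ) {μ : ℝ}
    (hμ : ck k * √(ℓ + 1) ≤ μ * √(ℓ.choose k)) :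
    ∀ᶠ n : ℕ in atTop, 2 ≤
      (∫ Z, lmax (KM n ℓ (2 * k) (μ * (n : ℝ) ^ (-((2 * k : ℕ) : ℝ) / 4)) Z)
        ∂(gam (Finset (Fin n)))) /
      (∫ Z, lmax (KM n ℓ (2 * k) 0 Z) ∂(gam (Finset (Fin n)))) := by
  filter_upwards [noise_upper hk hkℓ, eventually_ge_atTop (2 * (ℓ + k) + 1)] with n h1 hn
  haveI := nonempty_of_le (n := n) (ℓ := ℓ) (by omega)
  have hn0 : 0 < n := by omega
  have hnpos : (0 : ℝ) < n := by exact_mod_cast hn0
  have hpos := noise_pos (n := n) hk hkℓ (by omega)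
  rw [le_div_iff₀ hpos]
  have hC : 0 < (ℓ.choose k : ℝ) := by exact_mod_cast Nat.choose_pos hkℓ
  have hsC : 0 < √(ℓ.choose k : ℝ) := Real.sqrt_pos.2 hC
  have hck : 0 ≤ ck k := by unfold ck; positivity
  have hμ0 : 0 ≤ μ := by
    by_contra h
    push_neg at h
    have h3 : μ * √(ℓ.choose k : ℝ) < 0 := mul_neg_of_neg_of_pos h hsC
    have h4 : 0 ≤ ck k * √((ℓ : ℝ) + 1) := by positivity
    linarith
  have hc : 0 ≤ μ * (n : ℝ) ^ (-((2 * k : ℕ) : ℝ) / 4) := by positivity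
  have h2 := signal_ge (n := n) (ℓ := ℓ) (k := k) hc
  refine le_trans ?_ h2
  -- the power
  set s : ℝ := √((n : ℝ) ^ k) with hs
  have hs2 : s * s = (n : ℝ) ^ k := Real.mul_self_sqrt (by positivity)
  have hspos : 0 < s := Real.sqrt_pos.2 (by positivity)
  have hp : (n : ℝ) ^ (-((2 * k : ℕ) : ℝ) / 4) = s⁻¹ := by
    rw [hs, Real.sqrt_eq_rpow, ← Real.rpow_natCast, ← Real.rpow_mul hnpos.le,
      ← Real.rpow_neg hnpos.le]
    congr 1
    push_cast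
    ring
  have hch : ((n : ℝ) / 2) ^ k ≤ k.factorial * ((n - ℓ).choose k : ℝ) := by
    have e1 := Nat.pow_sub_le_descFactorial (n - ℓ) k
    rw [Nat.descFactorial_eq_factorial_mul_choose] at e1
    have e2 : (((n - ℓ + 1 - k : ℕ) : ℝ)) ^ k ≤ k.factorial * ((n - ℓ).choose k : ℝ) := by
      exact_mod_cast e1
    refine le_trans (pow_le_pow_left₀ (by positivity) ?_ k) e2
    rw [div_le_iff₀ (by norm_num)]
    have : n ≤ (n - ℓ + 1 - k) * 2 := by omega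
    exact_mod_cast this
  have hfac : (0 : ℝ) < k.factorial := by exact_mod_cast Nat.factorial_pos k
  rw [hp]
  have hB : 8 * √((ℓ + 1) * (ℓ.choose k * (2 * n) ^ k)) =
      8 * (√((ℓ : ℝ) + 1) * (√(ℓ.choose k : ℝ) * (√(2 ^ k) * s))) := by
    rw [Real.sqrt_mul (by positivity), Real.sqrt_mul (by positivity), mul_pow,
      Real.sqrt_mul (by positivity), hs]
  rw [hB] at h1
  have hfinal : 2 * (8 * (√((ℓ : ℝ) + 1) * (√(ℓ.choose k : ℝ) * (√(2 ^ k) * s)))) ≤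
      μ * s⁻¹ * ((ℓ.choose k * (n - ℓ).choose k : ℕ) : ℝ) := by
    have e1 : (s * s) / 2 ^ k ≤ k.factorial * ((n - ℓ).choose k : ℝ) := by
      rw [hs2, ← div_pow]; exact hch
    have e2 : s * s / (2 ^ k * k.factorial) ≤ ((n - ℓ).choose k : ℝ) := by
      rw [← div_div, div_le_iff₀ hfac]
      linarith
    have e3 : μ * s⁻¹ * (ℓ.choose k * (s * s / (2 ^ k * k.factorial))) ≤
        μ * s⁻¹ * ((ℓ.choose k * (n - ℓ).choose k : ℕ) : ℝ) := by
      rw [Nat.cast_mul]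
      gcongr
    refine le_trans ?_ e3
    have e4 : μ * s⁻¹ * (ℓ.choose k * (s * s / (2 ^ k * k.factorial))) =
        (μ * √(ℓ.choose k : ℝ)) * (√(ℓ.choose k : ℝ) * s / (2 ^ k * k.factorial)) := by
      have : (ℓ.choose k : ℝ) = √(ℓ.choose k : ℝ) * √(ℓ.choose k : ℝ) :=
        (Real.mul_self_sqrt hC.le).symm
      calc μ * s⁻¹ * (ℓ.choose k * (s * s / (2 ^ k * k.factorial))) =
          μ * (ℓ.choose k : ℝ) * ((s⁻¹ * s) * s / (2 ^ k * k.factorial)) := by ring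
        _ = μ * (√(ℓ.choose k : ℝ) * √(ℓ.choose k : ℝ)) * (s / (2 ^ k * k.factorial)) := by
            rw [← this, inv_mul_cancel₀ hspos.ne', one_mul]
        _ = _ := by ring
    rw [e4]
    have e5 : (ck k * √((ℓ : ℝ) + 1)) * (√(ℓ.choose k : ℝ) * s / (2 ^ k * k.factorial)) ≤
        (μ * √(ℓ.choose k : ℝ)) * (√(ℓ.choose k : ℝ) * s / (2 ^ k * k.factorial)) :=
      mul_le_mul_of_nonneg_right hμ (by positivity)
    refine le_trans (le_of_eq ?_) e5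
    unfold ck
    field_simp
    ring
  linarith

end Pool.Agent.D0H98.Kik
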