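import Pool.Agent.D0H98.Kik.Red

/-!
# The matrix with mean `1/√n`: sharp upper bound for the expected largest eigenvalue
-/

set_option autoImplicit false
set_option linter.unusedSectionVars false

open Finset MeasureTheory ProbabilityTheory Filter
open Pool.Agent.H320R2.LD (gam nsq nrm Lip prove_MGF St_MGF)

namespace Pool.Agent.D0H98.Kik

lemma BM_integrable {n : ℕ} [Nonempty (Fin n)] (c : ℝ) :
    Integrable (fun Z => lmax (BM n c Z)) (gam (Finset (Fin n))) :=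
  (prove_MGF (Finset (Fin n)) _ _ (by norm_num) (BM_lip c)).1

/-- choice of the exponent -/
lemma exists_exponent {η : ℝ} (hη : 0 < η) : ∀ᶠ n : ℕ in atTop, ∃ j : ℕ,
    ((2 ^ (j + 1) : ℕ) : ℝ) ≤ η * √(n : ℝ) ∧ (n : ℝ) ≤ η * (1 + η) ^ (2 ^ (j + 1) - 1) := by
  -- exponentials beat squares
  have h1 : Tendsto (fun m : ℕ => (m : ℝ) ^ 2 / (1 + η) ^ m) atTop (nhds 0) :=
    tendsto_pow_const_div_const_pow_of_one_lt 2 (by linarith)
  have h2 : ∀ᶠ m : ℕ in atTop, (m : ℝ) ^ 2 / (1 + η) ^ m ≤ η ^ 3 / (16 * (1 + η)) :=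
    (h1.eventually (gt_mem_nhds (by positivity))).mono fun _ h => le_of_lt h
  obtain ⟨M, hM⟩ := eventually_atTop.1 h2
  have h3 : Tendsto (fun n : ℕ => η * √(n : ℝ)) atTop atTop :=
    Tendsto.const_mul_atTop hη (Real.tendsto_sqrt_atTop.comp tendsto_natCast_atTop_atTop)
  filter_upwards [h3.eventually_ge_atTop (2 * M + 4)] with n hn
  set s := η * √(n : ℝ) with hs
  set m := ⌊s⌋₊ with hm
  have hs0 : 0 ≤ s := by positivity
  have hms : (m : ℝ) ≤ s := Nat.floor_le hs0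
  have hsm : s < m + 1 := Nat.lt_floor_add_one s
  have hM0 : (0 : ℝ) ≤ M := Nat.cast_nonneg M
  have hm3 : (3 : ℝ) < m := by linarith
  have hm3' : 3 < m := by exact_mod_cast hm3
  have hlog : 1 ≤ Nat.log 2 m := Nat.log_pos (by norm_num) (by omega)
  obtain ⟨j, hj⟩ : ∃ j, Nat.log 2 m = j + 1 := ⟨Nat.log 2 m - 1, by omega⟩
  have hT1 : 2 ^ (j + 1) ≤ m := by rw [← hj]; exact Nat.pow_log_le_self 2 (by omega)
  have hT2 : m < 2 * 2 ^ (j + 1) := by
    have := Nat.lt_pow_succ_log_self (b := 2) (by norm_num) m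
    rw [hj, pow_succ] at this
    omega
  refine ⟨j, ?_, ?_⟩
  · have : ((2 ^ (j + 1) : ℕ) : ℝ) ≤ m := by exact_mod_cast hT1
    linarith
  · set T := 2 ^ (j + 1) with hT
    have hT2' : (m : ℝ) < 2 * T := by exact_mod_cast hT2
    have hT2'' : (m : ℝ) + 1 ≤ 2 * T := by exact_mod_cast hT2
    have hsT : s ≤ 2 * T := by linarith
    have hMT : M ≤ T := by
      have : (M : ℝ) ≤ T := by linarith
      exact_mod_cast this
    have h4 := hM T hMT
    have hpow : 0 < (1 + η) ^ T := by positivity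
    rw [div_le_iff₀ hpow] at h4
    have hT1' : 1 ≤ T := Nat.one_le_two_pow
    have e1 : (1 + η) ^ T = (1 + η) * (1 + η) ^ (T - 1) := by
      rw [← pow_succ']; congr 1; omega
    rw [e1] at h4
    have e2 : η ^ 3 / (16 * (1 + η)) * ((1 + η) * (1 + η) ^ (T - 1)) =
        η ^ 3 / 16 * (1 + η) ^ (T - 1) := by
      field_simp
    rw [e2] at h4
    have hn2 : (n : ℝ) = √(n : ℝ) ^ 2 := (Real.sq_sqrt (Nat.cast_nonneg n)).symm
    have h5 : η ^ 2 * n ≤ 4 * (T : ℝ) ^ 2 := by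
      have : s ^ 2 ≤ (2 * T) ^ 2 := pow_le_pow_left₀ hs0 hsT 2
      rw [hs, mul_pow, ← hn2] at this
      linarith
    have h6 : η ^ 2 * n ≤ η ^ 2 * (η * (1 + η) ^ (T - 1)) := by
      have : 0 ≤ η ^ 3 * (1 + η) ^ (T - 1) := by positivity
      nlinarith
    exact le_of_mul_le_mul_left h6 (by positivity)

theorem BM_upper {η : ℝ} (hη : 0 < η) (hη1 : η ≤ 1) : ∀ᶠ n : ℕ in atTop,
    ∀ c : ℝ, 0 ≤ c → c ≤ (√(n : ℝ))⁻¹ →
    ∫ Z, lmax (BM n c Z) ∂(gam (Finset (Fin n))) ≤ (2 + 22 * η) * √(n : ℝ) := by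
  have h3 : Tendsto (fun n : ℕ => η * √(n : ℝ)) atTop atTop :=
    Tendsto.const_mul_atTop hη (Real.tendsto_sqrt_atTop.comp tendsto_natCast_atTop_atTop)
  filter_upwards [exists_exponent hη, h3.eventually_ge_atTop 2, eventually_gt_atTop 0]
    with n ⟨j, hj1, hj2⟩ hn2 hn0 c hc0 hc1
  haveI : Nonempty (Fin n) := ⟨⟨0, hn0⟩⟩
  have hnpos : (0 : ℝ) < n := by exact_mod_cast hn0
  set s := √(n : ℝ) with hs
  have hspos : 0 < s := Real.sqrt_pos.2 hnpos
  have hss : s * s = n := Real.mul_self_sqrt hnpos.le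
  have hs1 : 1 ≤ s := by
    rw [hs, Real.one_le_sqrt]
    exact_mod_cast hn0
  set T := 2 ^ (j + 1) with hT
  have hT0 : (0 : ℝ) ≤ T := Nat.cast_nonneg T
  have hcx : c * n ≤ (s⁻¹)⁻¹ := by
    refine (mul_le_mul_of_nonneg_right hc1 hnpos.le).trans (le_of_eq ?_)
    rw [inv_inv, ← hss, ← mul_assoc, inv_mul_cancel₀ hspos.ne', one_mul]
  set θ := thetaB n T c s⁻¹ s⁻¹ with hθ
  have hθle : θ ≤ (2 + 6 * η) * s := by
    have e0 : θ ≤ thetaB n T s⁻¹ s⁻¹ s⁻¹ := by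
      rw [hθ]; unfold thetaB
      gcongr
    have e1 : thetaB n T s⁻¹ s⁻¹ s⁻¹ = 2 * s + 2 + 5 * T := by
      unfold thetaB
      rw [← hss]
      field_simp
      ring
    rw [e1] at e0
    linarith
  have hθ0 : 0 ≤ θ := by rw [hθ]; unfold thetaB; positivity
  set θ' := (2 + 6 * η) * s with hθ'
  have hθ'pos : 0 < θ' := by positivity
  set a := (1 + η) * θ' with ha
  have hapos : 0 < a := by positivity
  have hint : ∀ i : Fin n, Integrable (fun Z => (BM n c Z ^ T) i i) (gam (Finset (Fin n))) ∧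
      ∫ Z, (BM n c Z ^ T) i i ∂(gam (Finset (Fin n))) ≤ θ' ^ T := by
    intro i
    have h := BM_diag_moment (n := n) (T := T) (c := c) (x := s⁻¹) (Y := s⁻¹)
      hc0 (inv_pos.2 hspos) hcx (inv_pos.2 hspos) (inv_le_one_of_one_le₀ hs1) i
    exact ⟨h.1, h.2.trans (pow_le_pow_left₀ hθ0 hθle T)⟩
  have h1 : ∫ Z, lmax (BM n c Z) ∂(gam (Finset (Fin n))) ≤
      ∫ Z, (a + (∑ i, (BM n c Z ^ T) i i) / a ^ (T - 1)) ∂(gam (Finset (Fin n))) := by
    refine integral_mono (BM_integrable _) ?_ fun Z => lmax_le_trace (BM_symm _ Z) j hapos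
    exact (integrable_const a).add ((integrable_finsetSum _ fun I _ => (hint I).1).div_const _)
  refine h1.trans ?_
  rw [integral_add (integrable_const a)
    ((integrable_finsetSum _ fun I _ => (hint I).1).div_const _), integral_const, integral_div,
    integral_finsetSum _ fun I _ => (hint I).1]
  simp only [probReal_univ, smul_eq_mul, one_mul]
  have h2 : ∑ i : Fin n, ∫ Z, (BM n c Z ^ T) i i ∂(gam (Finset (Fin n))) ≤ n * θ' ^ T := by
    calc _ ≤ ∑ _i : Fin n, θ' ^ T := Finset.sum_le_sum fun I _ => (hint I).2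
      _ = n * θ' ^ T := by rw [Finset.sum_const, Finset.card_univ, nsmul_eq_mul, Fintype.card_fin]
  have hT1 : 1 ≤ T := Nat.one_le_two_pow
  have h4 : (∑ i : Fin n, ∫ Z, (BM n c Z ^ T) i i ∂(gam (Finset (Fin n)))) / a ^ (T - 1) ≤
      η * θ' := by
    rw [div_le_iff₀ (by positivity)]
    refine h2.trans ?_
    have e1 : a ^ (T - 1) = (1 + η) ^ (T - 1) * θ' ^ (T - 1) := by rw [ha, mul_pow]
    have e2 : θ' ^ T = θ' * θ' ^ (T - 1) := by rw [← pow_succ']; congr 1; omega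
    rw [e1, e2]
    have hp : 0 ≤ θ' * θ' ^ (T - 1) := by positivity
    calc n * (θ' * θ' ^ (T - 1)) ≤ (η * (1 + η) ^ (T - 1)) * (θ' * θ' ^ (T - 1)) :=
          mul_le_mul_of_nonneg_right hj2 hp
      _ = _ := by ring
  have h5 : a + η * θ' ≤ (2 + 22 * η) * s := by
    rw [ha, hθ']
    have : (1 + η) * ((2 + 6 * η) * s) + η * ((2 + 6 * η) * s) =
        ((1 + 2 * η) * (2 + 6 * η)) * s := by ring
    rw [this]
    refine mul_le_mul_of_nonneg_right ?_ hspos.le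
    nlinarith
  linarith

theorem KM2_upper {ℓ : ℕ} (hℓ : 1 ≤ ℓ) {η : ℝ} (hη : 0 < η) (hη1 : η ≤ 1) : ∀ᶠ n : ℕ in atTop,
    ∀ c : ℝ, 0 ≤ c → c ≤ (√(n : ℝ))⁻¹ →
    ∫ Z, lmax (KM n ℓ 2 c Z) ∂(gam (Finset (Fin n))) ≤
      ℓ * ((2 + 22 * η) * √(n : ℝ)) := by
  filter_upwards [BM_upper hη hη1, eventually_ge_atTop (ℓ + 1)] with n h1' hn c hc0 hc1
  have h1 := h1' c hc0 hc1
  haveI : Nonempty {K : Finset (Fin n) // K.card = ℓ} := by
    obtain ⟨t, _, ht⟩ := Finset.exists_subset_card_eq (s := (univ : Finset (Fin n))) (n := ℓ)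
      (by rw [Finset.card_univ, Fintype.card_fin]; omega)
    exact ⟨⟨t, ht⟩⟩
  haveI : Nonempty (Fin n) := ⟨⟨0, by omega⟩⟩
  calc ∫ Z, lmax (KM n ℓ 2 c Z) ∂(gam (Finset (Fin n))) ≤
        ∫ Z, ℓ * lmax (BM n c Z) ∂(gam (Finset (Fin n))) :=
        integral_mono (lmax_integrable _) ((BM_integrable _).const_mul _)
          fun Z => lmax_red hℓ _ Z
    _ = ℓ * ∫ Z, lmax (BM n c Z) ∂(gam (Finset (Fin n))) := integral_const_mul _ _
    _ ≤ _ := by gcongr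

end Pool.Agent.D0H98.Kik
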