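import Pool.Agent.D0H98.Kik.LowerB
import Pool.Agent.D0H98.Kik.UpperC

/-!
# Order two: no separation at signal `n^(-1/2)`
-/

set_option autoImplicit false
set_option linter.unusedSectionVars false

open Finset MeasureTheory ProbabilityTheory Filter
open Pool.Agent.H320R2.LD (gam nsq nrm Lip prove_MGF St_MGF)

namespace Pool.Agent.D0H98.Kik

theorem ratio_two {ℓ : ℕ} (hℓ : 1 ≤ ℓ) {ε : ℝ} (hε : 0 < ε) : ∀ᶠ n : ℕ in atTop,
    ∀ c : ℝ, 0 ≤ c → c ≤ (√(n : ℝ))⁻¹ →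
    (∫ Z, lmax (KM n ℓ 2 c Z) ∂(gam (Finset (Fin n)))) /
      (∫ Z, lmax (KM n ℓ 2 0 Z) ∂(gam (Finset (Fin n)))) < 1 + ε := by
  have hℓ' : (0 : ℝ) < ℓ := by exact_mod_cast hℓ
  set η : ℝ := min 1 (ε / 44) with hη
  have hηpos : 0 < η := by rw [hη]; positivity
  have hη1 : η ≤ 1 := min_le_left _ _
  have hη2 : η ≤ ε / 44 := min_le_right _ _
  set a : ℝ := 2 * ℓ * (1 + ε / 4) / (1 + ε / 2) with ha
  have hapos : 0 < a := by rw [ha]; positivity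
  have ha2 : a < 2 * ℓ := by
    rw [ha, div_lt_iff₀ (by positivity)]
    have : (1 + ε / 4) < (1 + ε / 2) := by linarith
    exact mul_lt_mul_of_pos_left this (by positivity)
  filter_upwards [KM2_upper hℓ hηpos hη1, KM2_lower hℓ hapos ha2, eventually_gt_atTop 0]
    with n h1' h2 hn c hc0 hc1
  have h1 := h1' c hc0 hc1
  have hnpos : (0 : ℝ) < n := by exact_mod_cast hn
  have hspos : 0 < √(n : ℝ) := Real.sqrt_pos.2 hnpos
  have hB : 0 < ∫ Z, lmax (KM n ℓ 2 0 Z) ∂(gam (Finset (Fin n))) :=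
    lt_of_lt_of_le (by positivity) h2
  rw [div_lt_iff₀ hB]
  have h3 : (ℓ : ℝ) * ((2 + 22 * η) * √(n : ℝ)) ≤ (1 + ε / 2) * (a * √(n : ℝ)) := by
    rw [ha]
    have e : (1 + ε / 2) * (2 * ℓ * (1 + ε / 4) / (1 + ε / 2) * √(n : ℝ)) =
        2 * ℓ * (1 + ε / 4) * √(n : ℝ) := by field_simp
    rw [e]
    have : (ℓ : ℝ) * ((2 + 22 * η) * √(n : ℝ)) = ℓ * (2 + 22 * η) * √(n : ℝ) := by ring
    rw [this]
    refine mul_le_mul_of_nonneg_right ?_ hspos.le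
    nlinarith
  have h4 : (1 + ε / 2) * (a * √(n : ℝ)) ≤
      (1 + ε / 2) * ∫ Z, lmax (KM n ℓ 2 0 Z) ∂(gam (Finset (Fin n))) :=
    mul_le_mul_of_nonneg_left h2 (by positivity)
  have h5 : (1 + ε / 2) * (∫ Z, lmax (KM n ℓ 2 0 Z) ∂(gam (Finset (Fin n)))) <
      (1 + ε) * ∫ Z, lmax (KM n ℓ 2 0 Z) ∂(gam (Finset (Fin n))) :=
    mul_lt_mul_of_pos_right (by linarith) hB
  linarith

lemma rpow_half {n : ℕ} : (n : ℝ) ^ (-((2 : ℕ) : ℝ) / 4) = (√(n : ℝ))⁻¹ := by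
  rw [Real.sqrt_eq_rpow, ← Real.rpow_neg (Nat.cast_nonneg n)]
  congr 1
  norm_num

end Pool.Agent.D0H98.Kik
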