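import Pool.Agent.D0H98.Kik.Words

/-!
# Growth of the number of closed walks in the orthant
-/

set_option autoImplicit false
set_option linter.unusedSectionVars false

open Finset

namespace Pool.Agent.D0H98.Kik

section walks

variable {ℓ : ℕ}

/-- the one-dimensional eigenfunction -/
noncomputable def sH (H m : ℕ) : ℝ := if m < H then Real.sin (Real.pi * (m + 1) / (H + 1)) else 0

lemma sH_nonneg (H m : ℕ) : 0 ≤ sH H m := by
  unfold sH
  split_ifs with h
  · refine Real.sin_nonneg_of_nonneg_of_le_pi (by positivity) ?_
    rw [div_le_iff₀ (by positivity)]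
    have : (m : ℝ) + 1 ≤ H + 1 := by
      have : m ≤ H := h.le
      have h2 : (m : ℝ) ≤ H := by exact_mod_cast this
      linarith
    exact mul_le_mul_of_nonneg_left this Real.pi_pos.le
  · exact le_rfl

lemma sH_le_one (H m : ℕ) : sH H m ≤ 1 := by
  unfold sH
  split_ifs
  · exact Real.sin_le_one _
  · exact zero_le_one

lemma sH_step (H m : ℕ) : 2 * Real.cos (Real.pi / (H + 1)) * sH H m ≤
    sH H (m + 1) + if 0 < m then sH H (m - 1) else 0 := by
  have hH : (0 : ℝ) < H + 1 := by positivity
  by_cases h : m < H
  · have e1 : sH H (m + 1) = Real.sin (Real.pi * (m + 1) / (H + 1) + Real.pi / (H + 1)) := by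
      unfold sH
      have e0 : Real.pi * (m + 1) / (H + 1) + Real.pi / (H + 1) =
          Real.pi * ((m + 1 : ℕ) + 1) / (H + 1) := by push_cast; ring
      rw [e0]
      split_ifs with h1
      · rfl
      · have : m + 1 = H := by omega
        rw [this, mul_div_assoc, div_self hH.ne', mul_one, Real.sin_pi]
    have e2 : (if 0 < m then sH H (m - 1) else 0) =
        Real.sin (Real.pi * (m + 1) / (H + 1) - Real.pi / (H + 1)) := by
      split_ifs with h1
      · unfold sH
        rw [if_pos (by omega)]
        congr 1
        have : ((m - 1 : ℕ) : ℝ) = m - 1 := by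
          rw [Nat.cast_sub (by omega)]; simp
        rw [this]; ring
      · have : m = 0 := by omega
        subst this
        have : Real.pi * ((0 : ℕ) + 1) / (H + 1) - Real.pi / (H + 1) = 0 := by
          push_cast; ring
        rw [this, Real.sin_zero]
    have e3 : sH H m = Real.sin (Real.pi * (m + 1) / (H + 1)) := by
      unfold sH; rw [if_pos h]
    rw [e1, e2, e3, Real.sin_add, Real.sin_sub]
    refine le_of_eq ?_
    ring
  · have e3 : sH H m = 0 := by unfold sH; rw [if_neg h]
    rw [e3, mul_zero]
    refine add_nonneg (sH_nonneg _ _) ?_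
    split_ifs
    · exact sH_nonneg _ _
    · exact le_rfl

/-- the product eigenfunction -/
noncomputable def phiH (H : ℕ) (h : Fin ℓ → ℕ) : ℝ := ∏ a, sH H (h a)

lemma phiH_nonneg (H : ℕ) (h : Fin ℓ → ℕ) : 0 ≤ phiH H h :=
  Finset.prod_nonneg fun a _ => sH_nonneg _ _

lemma phiH_update (H : ℕ) (h : Fin ℓ → ℕ) (a : Fin ℓ) (x : ℕ) :
    phiH H (Function.update h a x) = sH H x * ∏ b ∈ univ.erase a, sH H (h b) := by
  unfold phiH
  rw [← Finset.mul_prod_erase univ _ (Finset.mem_univ a), Function.update_self]
  congr 1
  refine Finset.prod_congr rfl fun b hb => ?_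
  rw [Function.update_of_ne (Finset.ne_of_mem_erase hb)]

lemma phiH_step (H : ℕ) (h : Fin ℓ → ℕ) :
    2 * ℓ * Real.cos (Real.pi / (H + 1)) * phiH H h ≤
      ∑ a, (phiH H (Function.update h a (h a + 1)) +
        if 0 < h a then phiH H (Function.update h a (h a - 1)) else 0) := by
  have h1 : ∀ a : Fin ℓ, 2 * Real.cos (Real.pi / (H + 1)) * phiH H h ≤
      (phiH H (Function.update h a (h a + 1)) +
        if 0 < h a then phiH H (Function.update h a (h a - 1)) else 0) := by
    intro a
    have e1 : phiH H h = sH H (h a) * ∏ b ∈ univ.erase a, sH H (h b) := by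
      have := phiH_update H h a (h a)
      rwa [Function.update_eq_self] at this
    have hp : 0 ≤ ∏ b ∈ univ.erase a, sH H (h b) := Finset.prod_nonneg fun a _ => sH_nonneg _ _
    have h2 := mul_le_mul_of_nonneg_right (sH_step H (h a)) hp
    rw [e1, phiH_update, phiH_update]
    refine le_trans (le_of_eq (by ring)) (h2.trans (le_of_eq ?_))
    split_ifs <;> ring
  refine le_trans (le_of_eq ?_) (Finset.sum_le_sum fun a _ => h1 a)
  rw [Finset.sum_const, Finset.card_univ, nsmul_eq_mul, Fintype.card_fin]
  ring

lemma sum_update_succ (h : Fin ℓ → ℕ) (a : Fin ℓ) :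
    ∑ b, Function.update h a (h a + 1) b = ∑ b, h b + 1 := by
  rw [Finset.sum_update_of_mem (Finset.mem_univ a)]
  have := Finset.add_sum_erase univ h (Finset.mem_univ a)
  rw [← Finset.erase_eq]
  omega

lemma sum_update_pred (h : Fin ℓ → ℕ) (a : Fin ℓ) (ha : 0 < h a) :
    ∑ b, Function.update h a (h a - 1) b + 1 = ∑ b, h b := by
  rw [Finset.sum_update_of_mem (Finset.mem_univ a)]
  have := Finset.add_sum_erase univ h (Finset.mem_univ a)
  rw [← Finset.erase_eq]
  omega

lemma PP_ge_one (hℓ : 1 ≤ ℓ) (t : ℕ) (h : Fin ℓ → ℕ) (hle : ∑ a, h a ≤ t)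
    (hpar : Even (t + ∑ a, h a)) : 1 ≤ PP t h := by
  induction t generalizing h with
  | zero =>
    have h0 : h = 0 := by
      funext a
      have := Finset.single_le_sum (f := h) (fun i _ => Nat.zero_le _) (Finset.mem_univ a)
      simp only [Pi.zero_apply]
      omega
    simp only [PP, if_pos h0]
    exact le_rfl
  | succ t ih =>
    simp only [PP]
    have hnn : ∀ a ∈ (univ : Finset (Fin ℓ)), 0 ≤ (PP t (Function.update h a (h a + 1)) +
        if 0 < h a then PP t (Function.update h a (h a - 1)) else 0) := by
      intro a _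
      refine add_nonneg (PP_nonneg _ _) ?_
      split_ifs
      · exact PP_nonneg _ _
      · exact le_rfl
    by_cases hz : ∃ a, 0 < h a
    · obtain ⟨a, ha⟩ := hz
      refine le_trans ?_ (Finset.single_le_sum hnn (Finset.mem_univ a))
      rw [if_pos ha]
      have hs := sum_update_pred h a ha
      have h1 := ih (Function.update h a (h a - 1)) (by omega) (by
        rw [Nat.even_iff] at hpar ⊢
        omega)
      have h2 := PP_nonneg t (Function.update h a (h a + 1))
      linarith
    · push Not at hz
      have hsum : ∑ a, h a = 0 := Finset.sum_eq_zero fun a _ => by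
        have := hz a; omega
      have ht : 1 ≤ t := by
        rw [hsum, Nat.even_iff] at hpar
        omega
      set a : Fin ℓ := ⟨0, by omega⟩ with ha
      refine le_trans ?_ (Finset.single_le_sum hnn (Finset.mem_univ a))
      have hs := sum_update_succ h a
      have h1 := ih (Function.update h a (h a + 1)) (by omega) (by
        rw [Nat.even_iff] at hpar ⊢
        omega)
      have h2 : (0 : ℝ) ≤ if 0 < h a then PP t (Function.update h a (h a - 1)) else 0 := by
        split_ifs
        · exact PP_nonneg _ _
        · exact le_rfl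
      linarith

theorem PP_lower (hℓ : 1 ≤ ℓ) {H : ℕ} (hH : 1 ≤ H) (j : ℕ) (h : Fin ℓ → ℕ)
    (hpar : Even (ℓ * H + j + ∑ a, h a)) :
    (2 * ℓ * Real.cos (Real.pi / (H + 1))) ^ j * phiH H h ≤ PP (ℓ * H + j) h := by
  induction j generalizing h with
  | zero =>
    rw [pow_zero, one_mul, add_zero]
    by_cases hb : ∀ a, h a < H
    · have hsum : ∑ a, h a ≤ ℓ * H := by
        calc ∑ a, h a ≤ ∑ _a : Fin ℓ, H := Finset.sum_le_sum fun a _ => (hb a).le
          _ = ℓ * H := by rw [Finset.sum_const, Finset.card_univ, smul_eq_mul, Fintype.card_fin]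
      refine le_trans ?_ (PP_ge_one hℓ _ h hsum (by simpa using hpar))
      exact Finset.prod_le_one (fun a _ => sH_nonneg _ _) fun a _ => sH_le_one _ _
    · push Not at hb
      obtain ⟨a, ha⟩ := hb
      have : phiH H h = 0 := by
        unfold phiH
        refine Finset.prod_eq_zero (Finset.mem_univ a) ?_
        unfold sH
        rw [if_neg (by omega)]
      rw [this]
      exact PP_nonneg _ _
  | succ j ih =>
    rw [← add_assoc]
    simp only [PP]
    have hcos : 0 ≤ 2 * ℓ * Real.cos (Real.pi / (H + 1)) := by
      have : 0 ≤ Real.cos (Real.pi / (H + 1)) := by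
        refine Real.cos_nonneg_of_neg_pi_div_two_le_of_le ?_ ?_
        · have : 0 ≤ Real.pi / (H + 1) := by positivity
          linarith [Real.pi_pos]
        · have : (1 : ℝ) ≤ H := by exact_mod_cast hH
          exact div_le_div_of_nonneg_left Real.pi_pos.le (by norm_num) (by linarith)
      positivity
    set θ := 2 * ℓ * Real.cos (Real.pi / (H + 1)) with hθ
    calc θ ^ (j + 1) * phiH H h = θ ^ j * (θ * phiH H h) := by ring
      _ ≤ θ ^ j * ∑ a, (phiH H (Function.update h a (h a + 1)) +
        if 0 < h a then phiH H (Function.update h a (h a - 1)) else 0) :=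
          mul_le_mul_of_nonneg_left (phiH_step H h) (by positivity)
      _ ≤ _ := by
          rw [Finset.mul_sum]
          refine Finset.sum_le_sum fun a _ => ?_
          rw [mul_add]
          refine add_le_add ?_ ?_
          · refine ih _ ?_
            rw [sum_update_succ, Nat.even_iff] at *
            omega
          · split_ifs with ha
            · refine ih _ ?_
              have := sum_update_pred h a ha
              rw [Nat.even_iff] at *
              omega
            · simp

lemma phiH_zero_pos {H : ℕ} (hH : 1 ≤ H) : 0 < phiH H (0 : Fin ℓ → ℕ) := by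
  unfold phiH
  refine Finset.prod_pos fun a _ => ?_
  unfold sH
  rw [if_pos (by simp only [Pi.zero_apply]; omega)]
  refine Real.sin_pos_of_pos_of_lt_pi (by positivity) ?_
  rw [div_lt_iff₀ (by positivity)]
  have : (1 : ℝ) ≤ H := by exact_mod_cast hH
  simp only [Pi.zero_apply, Nat.cast_zero, zero_add, mul_one]
  nlinarith [Real.pi_pos]

end walks

end Pool.Agent.D0H98.Kik
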