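import Pool.Agent.D0H98.Kik.Phi

/-!
# Lower bound for the moments of the Kikuchi matrix of order two by a subsolution
-/

set_option autoImplicit false
set_option linter.unusedSectionVars false

open Finset

namespace Pool.Agent.D0H98.Kik

section words

variable {V : Type} [Fintype V] [DecidableEq V] {ℓ : ℕ} (b : Fin ℓ → V)

/-- the present position of particle `a` -/
def top : List (Fin ℓ × V) → Fin ℓ → V
  | [], a => b a
  | p :: w, a => if p.1 = a then p.2 else top w a

/-- the list of pending edges -/
def lw : List (Fin ℓ × V) → List (Finset V)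
  | [] => []
  | p :: w => {top b w p.1, p.2} :: lw w

/-- remove the last step of particle `a` -/
def popw (a : Fin ℓ) : List (Fin ℓ × V) → List (Fin ℓ × V)
  | [] => []
  | p :: w => if p.1 = a then w else p :: popw a w

/-- the index of the last step of particle `a` -/
def idxw (a : Fin ℓ) : List (Fin ℓ × V) → ℕ
  | [] => 0
  | p :: w => if p.1 = a then 0 else idxw a w + 1

/-- number of pending steps of particle `a` -/
def hgt : List (Fin ℓ × V) → Fin ℓ → ℕ
  | [], _ => 0
  | p :: w, a => hgt w a + if p.1 = a then 1 else 0

/-- the set of all vertices -/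
def vset : List (Fin ℓ × V) → Finset V
  | [] => univ.image b
  | p :: w => insert p.2 (vset w)

/-- each step goes to a new vertex -/
def Good : List (Fin ℓ × V) → Prop
  | [] => True
  | p :: w => Good w ∧ p.2 ∉ vset b w

variable {b}

lemma vset_card (w : List (Fin ℓ × V)) : (vset b w).card ≤ ℓ + w.length := by
  induction w with
  | nil =>
    simp only [vset, List.length_nil, add_zero]
    refine Finset.card_image_le.trans ?_
    simp
  | cons p w ih =>
    simp only [vset, List.length_cons]
    have := Finset.card_insert_le p.2 (vset b w)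
    omega

lemma top_mem (w : List (Fin ℓ × V)) (a : Fin ℓ) : top b w a ∈ vset b w := by
  induction w with
  | nil => simp [top, vset]
  | cons p w ih =>
    simp only [top, vset]
    split_ifs
    · exact Finset.mem_insert_self _ _
    · exact Finset.mem_insert_of_mem ih

lemma top_inj (hb : Function.Injective b) (w : List (Fin ℓ × V)) (hw : Good b w) :
    Function.Injective (top b w) := by
  induction w with
  | nil => exact hb
  | cons p w ih =>
    intro a a' h
    simp only [top] at h
    by_cases h1 : p.1 = a
    · by_cases h2 : p.1 = a'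
      · rw [← h1, ← h2]
      · rw [if_pos h1, if_neg h2] at h
        exact absurd (h ▸ top_mem w a') hw.2
    · by_cases h2 : p.1 = a'
      · rw [if_neg h1, if_pos h2] at h
        exact absurd (h ▸ top_mem w a) hw.2
      · rw [if_neg h1, if_neg h2] at h
        exact ih hw.1 h

lemma Jl_lw (hb : Function.Injective b) (w : List (Fin ℓ × V)) (hw : Good b w) :
    Jl (univ.image b) (lw b w) = univ.image (top b w) := by
  induction w with
  | nil => rfl
  | cons p w ih =>
    simp only [Jl, lw, ih hw.1]
    have hinj := top_inj hb w hw.1
    have hy : ∀ a, top b w a ≠ p.2 := fun a h => hw.2 (h ▸ top_mem w a)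
    ext x
    simp only [Finset.mem_symmDiff, Finset.mem_image, Finset.mem_univ, true_and,
      Finset.mem_insert, Finset.mem_singleton]
    constructor
    · rintro (⟨⟨a, rfl⟩, h2⟩ | ⟨h1, h2⟩)
      · push Not at h2
        refine ⟨a, ?_⟩
        simp only [top]
        rw [if_neg]
        intro h
        exact h2.1 (by rw [h])
      · rcases h1 with h1 | h1
        · exact absurd ⟨p.1, h1.symm⟩ h2
        · refine ⟨p.1, ?_⟩
          simp only [top]
          rw [if_pos trivial, h1]
    · rintro ⟨a, rfl⟩
      simp only [top]
      by_cases h : p.1 = a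
      · rw [if_pos h]
        right
        refine ⟨Or.inr rfl, ?_⟩
        rintro ⟨a', h'⟩
        exact hy a' h'
      · rw [if_neg h]
        left
        refine ⟨⟨a, rfl⟩, ?_⟩
        push Not
        exact ⟨fun h' => h (hinj h').symm, hy a⟩

lemma lw_length (w : List (Fin ℓ × V)) : (lw b w).length = w.length := by
  induction w with
  | nil => rfl
  | cons p w ih => simp only [lw, List.length_cons, ih]

lemma top_popw_ne (w : List (Fin ℓ × V)) {a a' : Fin ℓ} (h : a' ≠ a) :
    top b (popw a w) a' = top b w a' := by
  induction w with
  | nil => rfl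
  | cons p w ih =>
    simp only [popw]
    by_cases h1 : p.1 = a
    · rw [if_pos h1]
      simp only [top]
      rw [if_neg]
      rw [h1]
      exact h.symm
    · rw [if_neg h1]
      simp only [top, ih]

lemma idxw_lt (w : List (Fin ℓ × V)) {a : Fin ℓ} (h : 0 < hgt w a) : idxw a w < w.length := by
  induction w with
  | nil => simp [hgt] at h
  | cons p w ih =>
    simp only [idxw, List.length_cons]
    by_cases h1 : p.1 = a
    · rw [if_pos h1]; omega
    · rw [if_neg h1]
      simp only [hgt, if_neg h1, add_zero] at h
      have := ih h
      omega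

lemma lw_getD (w : List (Fin ℓ × V)) {a : Fin ℓ} (h : 0 < hgt w a) :
    (lw b w).getD (idxw a w) ∅ = {top b (popw a w) a, top b w a} := by
  induction w with
  | nil => simp [hgt] at h
  | cons p w ih =>
    simp only [idxw, lw, popw, top]
    by_cases h1 : p.1 = a
    · rw [if_pos h1, if_pos h1, if_pos h1, List.getD_cons_zero, h1]
    · rw [if_neg h1, if_neg h1, if_neg h1, List.getD_cons_succ]
      simp only [hgt, if_neg h1, add_zero] at h
      rw [ih h]
      simp only [top, if_neg h1]

lemma lw_eraseIdx (w : List (Fin ℓ × V)) {a : Fin ℓ} (h : 0 < hgt w a) :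
    (lw b w).eraseIdx (idxw a w) = lw b (popw a w) := by
  induction w with
  | nil => simp [hgt] at h
  | cons p w ih =>
    simp only [idxw, lw, popw]
    by_cases h1 : p.1 = a
    · rw [if_pos h1, if_pos h1, List.eraseIdx_cons_zero]
    · rw [if_neg h1, if_neg h1, List.eraseIdx_cons_succ]
      simp only [hgt, if_neg h1, add_zero] at h
      rw [ih h]
      simp only [lw]
      rw [top_popw_ne w h1]

lemma vset_popw (w : List (Fin ℓ × V)) (a : Fin ℓ) : vset b (popw a w) ⊆ vset b w := by
  induction w with
  | nil => exact Finset.Subset.refl _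
  | cons p w ih =>
    simp only [popw]
    split_ifs
    · simp only [vset]; exact Finset.subset_insert _ _
    · simp only [vset]; exact Finset.insert_subset_insert _ ih

lemma Good_popw (w : List (Fin ℓ × V)) (hw : Good b w) (a : Fin ℓ) : Good b (popw a w) := by
  induction w with
  | nil => trivial
  | cons p w ih =>
    simp only [popw]
    split_ifs
    · exact hw.1
    · exact ⟨ih hw.1, fun h => hw.2 (vset_popw w a h)⟩

lemma top_notMem_popw (w : List (Fin ℓ × V)) (hw : Good b w) {a : Fin ℓ} (h : 0 < hgt w a) :
    top b w a ∉ vset b (popw a w) := by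
  induction w with
  | nil => simp [hgt] at h
  | cons p w ih =>
    simp only [popw, top]
    by_cases h1 : p.1 = a
    · rw [if_pos h1, if_pos h1]; exact hw.2
    · rw [if_neg h1, if_neg h1]
      simp only [hgt, if_neg h1, add_zero] at h
      simp only [vset, Finset.mem_insert]
      push Not
      exact ⟨fun h2 => hw.2 (h2 ▸ top_mem w a), ih hw.1 h⟩

lemma popw_length (w : List (Fin ℓ × V)) {a : Fin ℓ} (h : 0 < hgt w a) :
    (popw a w).length + 1 = w.length := by
  induction w with
  | nil => simp [hgt] at h
  | cons p w ih =>
    simp only [popw]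
    by_cases h1 : p.1 = a
    · rw [if_pos h1, List.length_cons]
    · rw [if_neg h1, List.length_cons, List.length_cons]
      simp only [hgt, if_neg h1, add_zero] at h
      rw [ih h]

lemma hgt_popw (w : List (Fin ℓ × V)) {a : Fin ℓ} (h : 0 < hgt w a) :
    hgt (popw a w) = Function.update (hgt w) a (hgt w a - 1) := by
  induction w with
  | nil => simp [hgt] at h
  | cons p w ih =>
    funext a'
    simp only [popw]
    by_cases h1 : p.1 = a
    · rw [if_pos h1]
      by_cases h2 : a' = a
      · subst h2
        simp [hgt, h1]
      · rw [Function.update_of_ne h2]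
        simp only [hgt]
        rw [if_neg, add_zero]
        rw [h1]
        exact Ne.symm h2
    · rw [if_neg h1]
      simp only [hgt, if_neg h1, add_zero] at h ⊢
      rw [ih h]
      by_cases h2 : a' = a
      · subst h2
        simp [h1]
      · rw [Function.update_of_ne h2, Function.update_of_ne h2]

lemma hgt_cons (w : List (Fin ℓ × V)) (a : Fin ℓ) (y : V) :
    hgt ((a, y) :: w) = Function.update (hgt w) a (hgt w a + 1) := by
  funext a'
  simp only [hgt]
  by_cases h : a = a'
  · subst h; simp
  · rw [if_neg h, add_zero, Function.update_of_ne (Ne.symm h)]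

lemma idxw_inj (w : List (Fin ℓ × V)) {a a' : Fin ℓ} (h : 0 < hgt w a) (h' : 0 < hgt w a')
    (he : idxw a w = idxw a' w) : a = a' := by
  induction w with
  | nil => simp [hgt] at h
  | cons p w ih =>
    simp only [idxw] at he
    by_cases h1 : p.1 = a
    · by_cases h2 : p.1 = a'
      · rw [← h1, ← h2]
      · rw [if_pos h1, if_neg h2] at he; omega
    · by_cases h2 : p.1 = a'
      · rw [if_neg h1, if_pos h2] at he; omega
      · rw [if_neg h1, if_neg h2] at he
        simp only [hgt, if_neg h1, if_neg h2, add_zero] at h h'
        exact ih h h' (by omega)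

lemma hgt_eq_zero (w : List (Fin ℓ × V)) (h : hgt w = 0) : w = [] := by
  cases w with
  | nil => rfl
  | cons p w =>
    have := congrFun h p.1
    simp [hgt] at this

/-- the counting function of the walks in the orthant -/
noncomputable def PP : ℕ → (Fin ℓ → ℕ) → ℝ
  | 0, h => if h = 0 then 1 else 0
  | t + 1, h => ∑ a, (PP t (Function.update h a (h a + 1)) +
      if 0 < h a then PP t (Function.update h a (h a - 1)) else 0)

lemma PP_nonneg (t : ℕ) (h : Fin ℓ → ℕ) : 0 ≤ PP t h := by
  induction t generalizing h with
  | zero => simp only [PP]; split_ifs <;> norm_num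
  | succ t ih =>
    simp only [PP]
    refine Finset.sum_nonneg fun a _ => add_nonneg (ih _) ?_
    split_ifs
    · exact ih _
    · exact le_rfl

theorem PP_le_Phi (hb : Function.Injective b) {T : ℕ} {d : ℝ} (hd : 0 < d)
    (hD : d ^ 2 + ℓ + T ≤ Fintype.card V) (t : ℕ) (w : List (Fin ℓ × V)) (hw : Good b w)
    (hT : w.length + t ≤ T) :
    d ^ t * PP t (hgt w) ≤ d ^ w.length * Phi ℓ 2 (univ.image b) t (lw b w) := by
  induction t generalizing w with
  | zero =>
    simp only [PP, Phi, pow_zero, one_mul]
    by_cases h : hgt w = 0
    · have := hgt_eq_zero w h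
      subst this
      simp [lw, h]
    · rw [if_neg h]
      split_ifs <;> positivity
  | succ t ih =>
    simp only [Phi]
    have hJ := Jl_lw hb w hw
    have hinj := top_inj hb w hw
    -- upward moves
    have hval : ∀ a, ∀ y ∉ vset b w, ({top b w a, y} : Finset V) ∈
        val ℓ 2 (Jl (univ.image b) (lw b w)) := by
      intro a y hy
      have hg : Good b ((a, y) :: w) := ⟨hw, hy⟩
      simp only [val, Finset.mem_filter, Finset.mem_univ, true_and]
      refine ⟨Finset.card_pair (fun h => hy (h ▸ top_mem w a)), ?_⟩
      have h1 : symmDiff (Jl (univ.image b) (lw b w)) {top b w a, y} =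
          Jl (univ.image b) (lw b ((a, y) :: w)) := rfl
      rw [h1, Jl_lw hb _ hg, Finset.card_image_of_injective _ (top_inj hb _ hg)]
      simp
    have hup : ∑ a, d ^ (t + 1) * PP t (Function.update (hgt w) a (hgt w a + 1)) ≤
        d ^ w.length * ∑ S ∈ val ℓ 2 (Jl (univ.image b) (lw b w)),
          Phi ℓ 2 (univ.image b) t (S :: lw b w) := by
      have h1 : ∑ p ∈ (univ : Finset (Fin ℓ)) ×ˢ (univ \ vset b w),
          Phi ℓ 2 (univ.image b) t ({top b w p.1, p.2} :: lw b w) ≤
          ∑ S ∈ val ℓ 2 (Jl (univ.image b) (lw b w)),
            Phi ℓ 2 (univ.image b) t (S :: lw b w) := by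
        rw [← Finset.sum_image (s := (univ : Finset (Fin ℓ)) ×ˢ (univ \ vset b w))
          (g := fun p : Fin ℓ × V => ({top b w p.1, p.2} : Finset V))
          (f := fun S => Phi ℓ 2 (univ.image b) t (S :: lw b w))]
        · refine Finset.sum_le_sum_of_subset_of_nonneg ?_ fun S _ _ => Phi_nonneg _ _ _ _ _
          intro S hS
          obtain ⟨p, hp, rfl⟩ := Finset.mem_image.1 hS
          exact hval p.1 p.2 (Finset.mem_sdiff.1 (Finset.mem_product.1 hp).2).2
        · rintro ⟨a, y⟩ hp ⟨a', y'⟩ hp' h
          simp only [Finset.coe_product, Set.mem_prod, Finset.mem_coe, Finset.mem_univ, true_and,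
            Finset.mem_sdiff] at hp hp'
          simp only at h
          have hy : y ∈ ({top b w a', y'} : Finset V) := by rw [← h]; simp
          have ha : top b w a ∈ ({top b w a', y'} : Finset V) := by rw [← h]; simp
          simp only [Finset.mem_insert, Finset.mem_singleton] at hy ha
          have e1 : y = y' := by
            rcases hy with hy | hy
            · exact absurd (hy ▸ top_mem w a') hp
            · exact hy
          have e2 : a = a' := by
            rcases ha with ha | ha
            · exact hinj ha
            · exact absurd (ha ▸ top_mem w a) hp'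
          rw [e1, e2]
      have h2 : ∑ a, d ^ (t + 1) * PP t (Function.update (hgt w) a (hgt w a + 1)) ≤
          d ^ w.length * ∑ p ∈ (univ : Finset (Fin ℓ)) ×ˢ (univ \ vset b w),
          Phi ℓ 2 (univ.image b) t ({top b w p.1, p.2} :: lw b w) := by
        rw [Finset.sum_product, Finset.mul_sum]
        refine Finset.sum_le_sum fun a _ => ?_
        have h3 : ∀ y ∈ univ \ vset b w,
            d⁻¹ * (d ^ t * PP t (Function.update (hgt w) a (hgt w a + 1))) ≤
            d ^ w.length * Phi ℓ 2 (univ.image b) t ({top b w a, y} :: lw b w) := by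
          intro y hy
          have hg : Good b ((a, y) :: w) := ⟨hw, (Finset.mem_sdiff.1 hy).2⟩
          have h4 := ih ((a, y) :: w) hg (by rw [List.length_cons]; omega)
          rw [hgt_cons, List.length_cons, pow_succ] at h4
          rw [inv_mul_le_iff₀ hd]
          refine h4.trans (le_of_eq ?_)
          simp only [lw]
          ring
        rw [Finset.mul_sum]
        refine le_trans ?_ (Finset.sum_le_sum h3)
        rw [Finset.sum_const, nsmul_eq_mul]
        have h5 : d ^ 2 ≤ ((univ \ vset b w).card : ℝ) := by
          rw [Finset.card_sdiff_of_subset (Finset.subset_univ _), Finset.card_univ]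
          have h6 := vset_card (b := b) w
          have h7 : (vset b w).card ≤ Fintype.card V := Finset.card_le_univ _
          rw [Nat.cast_sub h7]
          have h8 : ((vset b w).card : ℝ) ≤ ℓ + T := by
            have : (vset b w).card ≤ ℓ + T := by omega
            exact_mod_cast this
          linarith
        have h9 := PP_nonneg t (Function.update (hgt w) a (hgt w a + 1))
        calc d ^ (t + 1) * PP t (Function.update (hgt w) a (hgt w a + 1)) =
            d ^ 2 * (d⁻¹ * (d ^ t * PP t (Function.update (hgt w) a (hgt w a + 1)))) := by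
              field_simp
              ring
          _ ≤ _ := mul_le_mul_of_nonneg_right h5 (by positivity)
      exact h2.trans (mul_le_mul_of_nonneg_left h1 (by positivity))
    -- downward moves
    have hdown : ∑ a, d ^ (t + 1) *
        (if 0 < hgt w a then PP t (Function.update (hgt w) a (hgt w a - 1)) else 0) ≤
        d ^ w.length * ∑ i ∈ range (lw b w).length,
          if (lw b w).getD i ∅ ∈ val ℓ 2 (Jl (univ.image b) (lw b w))
            then Phi ℓ 2 (univ.image b) t ((lw b w).eraseIdx i) else 0 := by
      classical
      set G : Finset (Fin ℓ) := univ.filter fun a => 0 < hgt w a with hG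
      have h0 : ∑ a, d ^ (t + 1) *
        (if 0 < hgt w a then PP t (Function.update (hgt w) a (hgt w a - 1)) else 0) =
        ∑ a ∈ G, d ^ (t + 1) * PP t (Function.update (hgt w) a (hgt w a - 1)) := by
        rw [hG, Finset.sum_filter]
        refine Finset.sum_congr rfl fun a _ => ?_
        split_ifs <;> simp
      rw [h0]
      have hvalp : ∀ a ∈ G, (lw b w).getD (idxw a w) ∅ ∈
          val ℓ 2 (Jl (univ.image b) (lw b w)) := by
        intro a ha
        have ha' : 0 < hgt w a := (Finset.mem_filter.1 ha).2
        have hlt : idxw a w < (lw b w).length := by rw [lw_length]; exact idxw_lt w ha'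
        have hget := getD_eq hlt
        simp only [val, Finset.mem_filter, Finset.mem_univ, true_and]
        constructor
        · rw [lw_getD w ha']
          exact Finset.card_pair (fun h => top_notMem_popw w hw ha' (h ▸ top_mem _ a))
        · rw [← Jl_eraseIdx _ _ _ _ hget, lw_eraseIdx w ha', Jl_lw hb _ (Good_popw w hw a),
            Finset.card_image_of_injective _ (top_inj hb _ (Good_popw w hw a))]
          simp
      have h1 : ∑ a ∈ G, Phi ℓ 2 (univ.image b) t (lw b (popw a w)) ≤
          ∑ i ∈ range (lw b w).length,
          if (lw b w).getD i ∅ ∈ val ℓ 2 (Jl (univ.image b) (lw b w))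
            then Phi ℓ 2 (univ.image b) t ((lw b w).eraseIdx i) else 0 := by
        set F : ℕ → ℝ := fun i => if (lw b w).getD i ∅ ∈ val ℓ 2 (Jl (univ.image b) (lw b w))
              then Phi ℓ 2 (univ.image b) t ((lw b w).eraseIdx i) else 0 with hF
        have h2 : ∑ a ∈ G, Phi ℓ 2 (univ.image b) t (lw b (popw a w)) =
            ∑ a ∈ G, F (idxw a w) := by
          refine Finset.sum_congr rfl fun a ha => ?_
          have ha' : 0 < hgt w a := (Finset.mem_filter.1 ha).2
          simp only [hF]
          rw [if_pos (hvalp a ha), lw_eraseIdx w ha']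
        rw [h2, ← Finset.sum_image (s := G) (g := fun a => idxw a w) (f := F)]
        · refine Finset.sum_le_sum_of_subset_of_nonneg ?_ ?_
          · intro i hi
            obtain ⟨a, ha, rfl⟩ := Finset.mem_image.1 hi
            have ha' : 0 < hgt w a := (Finset.mem_filter.1 ha).2
            rw [Finset.mem_range, lw_length]
            exact idxw_lt w ha'
          · intro i _ _
            simp only [hF]
            split_ifs
            · exact Phi_nonneg _ _ _ _ _
            · exact le_rfl
        · intro a ha a' ha' h
          exact idxw_inj w (Finset.mem_filter.1 ha).2 (Finset.mem_filter.1 ha').2 h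
      refine le_trans ?_ (mul_le_mul_of_nonneg_left h1 (by positivity))
      rw [Finset.mul_sum]
      refine Finset.sum_le_sum fun a ha => ?_
      have ha' : 0 < hgt w a := (Finset.mem_filter.1 ha).2
      have hlen := popw_length w ha'
      have h3 := ih (popw a w) (Good_popw w hw a) (by omega)
      rw [hgt_popw w ha'] at h3
      have h4 := mul_le_mul_of_nonneg_left h3 hd.le
      calc d ^ (t + 1) * PP t (Function.update (hgt w) a (hgt w a - 1)) =
          d * (d ^ t * PP t (Function.update (hgt w) a (hgt w a - 1))) := by ring
        _ ≤ d * (d ^ (popw a w).length * Phi ℓ 2 (univ.image b) t (lw b (popw a w))) := h4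
        _ = _ := by rw [← hlen, pow_succ]; ring
    simp only [PP]
    rw [Finset.mul_sum, mul_add]
    refine le_trans (le_of_eq ?_) (add_le_add hup hdown)
    rw [← Finset.sum_add_distrib]
    refine Finset.sum_congr rfl fun a _ => ?_
    ring

end words

end Pool.Agent.D0H98.Kik
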